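import Mathlib

/-!
# Functions of staircase type

A function `a` on a finite set `S` has staircase type `K` when it takes the value `m` exactly `m`
times for `1 ≤ m ≤ K` and no other value. Two functions are transversal on `S` when together they
are injective on `S`.
-/

namespace Pool.Agent.Helper310_Saxl

open Equiv Finset

variable {X : Type*}

/-- `a` takes on `S` the value `m` exactly `m` times, `1 ≤ m ≤ K`, and no other values -/
def IsStair (K : ℕ) (S : Finset X) (a : X → ℕ) : Prop :=
  ∀ m, (S.filter fun x => a x = m).card = if 1 ≤ m ∧ m ≤ K then m else 0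

/-- `a` and `b` are transversal on `S` -/
def Transv {ι κ : Type*} (S : Finset X) (a : X → ι) (b : X → κ) : Prop :=
  ∀ x ∈ S, ∀ y ∈ S, a x = a y → b x = b y → x = y

lemma Transv.symm {ι κ : Type*} {S : Finset X} {a : X → ι} {b : X → κ} (h : Transv S a b) :
    Transv S b a := fun x hx y hy h1 h2 => h x hx y hy h2 h1

lemma IsStair.bounds {K : ℕ} {S : Finset X} {a : X → ℕ} (h : IsStair K S a) {x : X} (hx : x ∈ S) :
    1 ≤ a x ∧ a x ≤ K := by
  have h1 := h (a x)
  have h2 : 0 < (S.filter fun y => a y = a x).card :=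
    Finset.card_pos.2 ⟨x, Finset.mem_filter.2 ⟨hx, rfl⟩⟩
  by_contra hcon
  rw [if_neg hcon] at h1
  omega

lemma IsStair.sum {K : ℕ} {S : Finset X} {a : X → ℕ} (h : IsStair K S a)
    {M : Type*} [AddCommMonoid M] (f : ℕ → M) :
    ∑ x ∈ S, f (a x) = ∑ m ∈ Finset.Icc 1 K, m • f m := by
  have hmaps : ∀ x ∈ S, a x ∈ Finset.Icc 1 K := fun x hx => Finset.mem_Icc.2 (h.bounds hx)
  rw [← Finset.sum_fiberwise_of_maps_to hmaps]
  refine Finset.sum_congr rfl fun m hm => ?_
  rw [Finset.sum_congr rfl (fun x hx => by rw [(Finset.mem_filter.1 hx).2] : ∀ x ∈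
    S.filter (fun x => a x = m), f (a x) = f m), Finset.sum_const, h m,
    if_pos (Finset.mem_Icc.1 hm)]

/-- a value of `a` and a value of `b` at a common point add up to at least `K + 1` -/
lemma IsStair.add_ge {K : ℕ} {S : Finset X} {a b : X → ℕ} (ha : IsStair K S a)
    (hb : IsStair K S b) (hab : Transv S a b) {x : X} (hx : x ∈ S) : K + 1 ≤ a x + b x := by
  classical
  by_contra hcon
  push Not at hcon
  have hbx := hb.bounds hx
  have hax := ha.bounds hx
  set q := b x with hq
  -- the points with large `a`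
  set A := S.filter (fun y => K + 1 - q ≤ a y) with hA
  have hcardA : A.card = ∑ m ∈ Finset.Icc (K + 1 - q) K, m := by
    have h1 : A.card = ∑ y ∈ S, (if K + 1 - q ≤ a y then 1 else 0) := by
      rw [hA, Finset.card_filter]
    rw [h1, ha.sum (fun m => if K + 1 - q ≤ m then 1 else 0)]
    have h2 : Finset.Icc (K + 1 - q) K = (Finset.Icc 1 K).filter (fun m => K + 1 - q ≤ m) := by
      ext m
      simp only [Finset.mem_Icc, Finset.mem_filter]
      omega
    rw [h2, Finset.sum_filter]
    refine Finset.sum_congr rfl fun m _ => ?_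
    by_cases h3 : K + 1 - q ≤ m <;> simp [h3]
  have hmapsB : ∀ y ∈ A, b y ∈ Finset.Icc 1 K := fun y hy =>
    Finset.mem_Icc.2 (hb.bounds (Finset.mem_filter.1 hy).1)
  have hcardA2 : A.card = ∑ v ∈ Finset.Icc 1 K, (A.filter fun y => b y = v).card :=
    Finset.card_eq_sum_card_fiberwise (fun y hy => hmapsB y hy)
  -- a bound for every `b`-block
  have hle : ∀ v ∈ Finset.Icc 1 K, (A.filter fun y => b y = v).card ≤ min v q := by
    intro v hv
    refine le_min ?_ ?_
    · have h1 : (A.filter fun y => b y = v) ⊆ S.filter fun y => b y = v := by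
        intro y hy
        rw [Finset.mem_filter, hA, Finset.mem_filter] at hy
        exact Finset.mem_filter.2 ⟨hy.1.1, hy.2⟩
      have h2 := Finset.card_le_card h1
      rw [hb v, if_pos (Finset.mem_Icc.1 hv)] at h2
      exact h2
    · have h1 : ((A.filter fun y => b y = v).image a).card = (A.filter fun y => b y = v).card := by
        refine Finset.card_image_of_injOn ?_
        intro y hy z hz hyz
        rw [Finset.mem_coe, Finset.mem_filter, hA, Finset.mem_filter] at hy hz
        exact hab y hy.1.1 z hz.1.1 hyz (by rw [hy.2, hz.2])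
      have h2 : (A.filter fun y => b y = v).image a ⊆ Finset.Icc (K + 1 - q) K := by
        intro m hm
        rw [Finset.mem_image] at hm
        obtain ⟨y, hy, rfl⟩ := hm
        rw [Finset.mem_filter, hA, Finset.mem_filter] at hy
        rw [Finset.mem_Icc]
        exact ⟨hy.1.2, (ha.bounds hy.1.1).2⟩
      have h3 := Finset.card_le_card h2
      rw [h1, Nat.card_Icc] at h3
      omega
  -- the block of `x` gives a strict inequality
  have hlt : (A.filter fun y => b y = q).card < min q q := by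
    rw [min_self]
    have h1 : (A.filter fun y => b y = q) ⊂ S.filter fun y => b y = q := by
      rw [Finset.ssubset_iff_of_subset]
      · refine ⟨x, Finset.mem_filter.2 ⟨hx, hq.symm⟩, ?_⟩
        rw [Finset.mem_filter, hA, Finset.mem_filter]
        rintro ⟨⟨_, h2⟩, _⟩
        omega
      · intro y hy
        rw [Finset.mem_filter, hA, Finset.mem_filter] at hy
        exact Finset.mem_filter.2 ⟨hy.1.1, hy.2⟩
    have h2 := Finset.card_lt_card h1
    rw [hb q, if_pos hbx] at h2
    exact h2
  have hsum : A.card < ∑ v ∈ Finset.Icc 1 K, min v q := by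
    rw [hcardA2]
    exact Finset.sum_lt_sum hle ⟨q, Finset.mem_Icc.2 hbx, hlt⟩
  -- the two sums agree
  have hval : ∀ q K : ℕ, q ≤ K → ∑ v ∈ Finset.Icc 1 K, min v q =
      ∑ m ∈ Finset.Icc (K + 1 - q) K, m := by
    intro q K hqK
    obtain ⟨d, rfl⟩ := Nat.exists_eq_add_of_le hqK
    clear hqK
    have e1 : q + d + 1 - q = d + 1 := by omega
    rw [e1]
    induction q with
    | zero => simp
    | succ q ih =>
      have h1 : Finset.Icc (d + 1) (q + 1 + d) = insert (q + 1 + d) (Finset.Icc (d + 1) (q + d)) := by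
        ext m; simp only [Finset.mem_Icc, Finset.mem_insert]; omega
      rw [h1, Finset.sum_insert (by simp [Finset.mem_Icc]), ← ih (by omega)]
      have h2 : Finset.Icc 1 (q + 1 + d) = insert (q + 1 + d) (Finset.Icc 1 (q + d)) := by
        ext m; simp only [Finset.mem_Icc, Finset.mem_insert]; omega
      rw [h2, Finset.sum_insert (by simp [Finset.mem_Icc])]
      have h3 : ∑ v ∈ Finset.Icc 1 (q + d), min v (q + 1) =
          ∑ v ∈ Finset.Icc 1 (q + d), (min v q + if q + 1 ≤ v then 1 else 0) := by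
        refine Finset.sum_congr rfl fun v _ => ?_
        by_cases h4 : q + 1 ≤ v
        · rw [if_pos h4]; omega
        · rw [if_neg h4]; omega
      rw [h3, Finset.sum_add_distrib]
      have h5 : ∑ v ∈ Finset.Icc 1 (q + d), (if q + 1 ≤ v then 1 else 0) = d := by
        rw [← Finset.sum_filter, Finset.sum_const, smul_eq_mul, mul_one]
        have h6 : (Finset.Icc 1 (q + d)).filter (fun v => q + 1 ≤ v) =
            Finset.Icc (q + 1) (q + d) := by
          ext m; simp only [Finset.mem_Icc, Finset.mem_filter]; omega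
        rw [h6, Nat.card_Icc]; omega
      rw [h5]
      omega
  rw [hval q K hbx.2, ← hcardA] at hsum
  exact lt_irrefl _ hsum

/-- the values of `b` on a block of `a` -/
lemma IsStair.image_block {K : ℕ} {S : Finset X} {a b : X → ℕ} (ha : IsStair K S a)
    (hb : IsStair K S b) (hab : Transv S a b) {m : ℕ} (hm : 1 ≤ m ∧ m ≤ K) :
    (S.filter fun x => a x = m).image b = Finset.Icc (K + 1 - m) K := by
  apply Finset.eq_of_subset_of_card_le
  · intro v hv
    rw [Finset.mem_image] at hv
    obtain ⟨y, hy, rfl⟩ := hv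
    rw [Finset.mem_filter] at hy
    have h1 := ha.add_ge hb hab hy.1
    have h2 := hb.bounds hy.1
    rw [Finset.mem_Icc]
    omega
  · rw [Nat.card_Icc, Finset.card_image_of_injOn, ha m, if_pos hm]
    · omega
    · intro y hy z hz hyz
      rw [Finset.mem_coe, Finset.mem_filter] at hy hz
      exact hab y hy.1 z hz.1 (by rw [hy.2, hz.2]) hyz

lemma IsStair.sum_mul {K : ℕ} {S : Finset X} {a b : X → ℕ} (ha : IsStair K S a)
    (hb : IsStair K S b) (hab : Transv S a b) :
    2 * ∑ x ∈ S, (a x : ℤ) * b x = ∑ m ∈ Finset.Icc 1 K, (m : ℤ) ^ 2 * (2 * K + 1 - m) := by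
  have hmaps : ∀ x ∈ S, a x ∈ Finset.Icc 1 K := fun x hx => Finset.mem_Icc.2 (ha.bounds hx)
  rw [← Finset.sum_fiberwise_of_maps_to hmaps, Finset.mul_sum]
  refine Finset.sum_congr rfl fun m hm => ?_
  have hm' := Finset.mem_Icc.1 hm
  have h1 : ∑ x ∈ S.filter (fun x => a x = m), (a x : ℤ) * b x =
      m * ∑ x ∈ S.filter (fun x => a x = m), (b x : ℤ) := by
    rw [Finset.mul_sum]
    refine Finset.sum_congr rfl fun x hx => ?_
    rw [(Finset.mem_filter.1 hx).2]
  have h2 : ∑ x ∈ S.filter (fun x => a x = m), (b x : ℤ) =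
      ∑ v ∈ Finset.Icc (K + 1 - m) K, (v : ℤ) := by
    rw [← ha.image_block hb hab hm', Finset.sum_image]
    intro y hy z hz hyz
    rw [Finset.mem_coe, Finset.mem_filter] at hy hz
    exact hab y hy.1 z hz.1 (by rw [hy.2, hz.2]) hyz
  have h3 : ∀ m K : ℕ, m ≤ K → 2 * ∑ v ∈ Finset.Icc (K + 1 - m) K, (v : ℤ) = m * (2 * K + 1 - m) := by
    intro m K hmK
    induction m with
    | zero => simp
    | succ m ih =>
      have h4 : Finset.Icc (K + 1 - (m + 1)) K = insert (K - m) (Finset.Icc (K + 1 - m) K) := by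
        ext v; simp only [Finset.mem_Icc, Finset.mem_insert]; omega
      rw [h4, Finset.sum_insert (by rw [Finset.mem_Icc]; omega), mul_add, ih (by omega),
        Nat.cast_sub (by omega)]
      push_cast
      ring
  rw [h1, h2]
  have h4 := h3 m K hm'.2
  linear_combination (m : ℤ) * h4

/-- three pairwise transversal functions of staircase type add up to `2K + 1` -/
theorem IsStair.rigid {K : ℕ} {S : Finset X} {a b c : X → ℕ} (ha : IsStair K S a)
    (hb : IsStair K S b) (hc : IsStair K S c) (hab : Transv S a b) (hac : Transv S a c)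
    (hbc : Transv S b c) {x : X} (hx : x ∈ S) : a x + b x + c x = 2 * K + 1 := by
  have hz : ∑ y ∈ S, ((a y : ℤ) + b y + c y - (2 * K + 1)) ^ 2 = 0 := by
    have e : ∀ y, ((a y : ℤ) + b y + c y - (2 * K + 1)) ^ 2 =
        (a y : ℤ) ^ 2 + (b y : ℤ) ^ 2 + (c y : ℤ) ^ 2 +
        2 * ((a y : ℤ) * b y) + 2 * ((a y : ℤ) * c y) + 2 * ((b y : ℤ) * c y)
        - 2 * (2 * K + 1) * (a y) - 2 * (2 * K + 1) * (b y) - 2 * (2 * K + 1) * (c y)
        + (2 * K + 1) ^ 2 := by
      intro y; ring
    simp only [e, Finset.sum_add_distrib, Finset.sum_sub_distrib, ← Finset.mul_sum]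
    rw [ha.sum_mul hb hab, ha.sum_mul hc hac, hb.sum_mul hc hbc]
    have hsq : ∀ {f : X → ℕ}, IsStair K S f → ∑ y ∈ S, (f y : ℤ) ^ 2 =
        ∑ m ∈ Finset.Icc 1 K, (m : ℤ) ^ 3 := by
      intro f hf
      rw [hf.sum (fun m => (m : ℤ) ^ 2)]
      refine Finset.sum_congr rfl fun m _ => ?_
      rw [nsmul_eq_mul]; ring
    have hli : ∀ {f : X → ℕ}, IsStair K S f → ∑ y ∈ S, (f y : ℤ) =
        ∑ m ∈ Finset.Icc 1 K, (m : ℤ) ^ 2 := by
      intro f hf
      rw [hf.sum (fun m => (m : ℤ))]
      refine Finset.sum_congr rfl fun m _ => ?_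
      rw [nsmul_eq_mul]; ring
    have hco : ∑ y ∈ S, ((2 * K + 1 : ℤ) ^ 2) =
        (2 * K + 1) ^ 2 * ∑ m ∈ Finset.Icc 1 K, (m : ℤ) := by
      rw [ha.sum (fun _ => ((2 * K + 1 : ℤ)) ^ 2), Finset.mul_sum]
      refine Finset.sum_congr rfl fun m _ => ?_
      rw [nsmul_eq_mul]; ring
    rw [hsq ha, hsq hb, hsq hc, hli ha, hli hb, hli hc, hco]
    have h1 : ∑ m ∈ Finset.Icc 1 K, (m : ℤ) ^ 2 * (2 * K + 1 - m) =
        (2 * K + 1) * ∑ m ∈ Finset.Icc 1 K, (m : ℤ) ^ 2 - ∑ m ∈ Finset.Icc 1 K, (m : ℤ) ^ 3 := by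
      rw [Finset.mul_sum, ← Finset.sum_sub_distrib]
      refine Finset.sum_congr rfl fun m _ => ?_
      ring
    have h2 : ∀ K : ℕ, 3 * ∑ m ∈ Finset.Icc 1 K, (m : ℤ) ^ 2 =
        (2 * K + 1) * ∑ m ∈ Finset.Icc 1 K, (m : ℤ) := by
      intro K
      have h3 : ∀ K : ℕ, 2 * ∑ m ∈ Finset.Icc 1 K, (m : ℤ) = K * (K + 1) := by
        intro K
        induction K with
        | zero => simp
        | succ K ih =>
          rw [Finset.sum_Icc_succ_top (by omega), mul_add, ih]
          push_cast; ring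
      induction K with
      | zero => simp
      | succ K ih =>
        rw [Finset.sum_Icc_succ_top (by omega), Finset.sum_Icc_succ_top (by omega), mul_add, ih]
        have := h3 K
        push_cast
        linear_combination -this
    rw [h1]
    have h4 := h2 K
    linear_combination (-(2 * (K : ℤ) + 1)) * h4
  have h0 := (Finset.sum_eq_zero_iff_of_nonneg (fun y _ => sq_nonneg _)).1 hz x hx
  have h1 : (a x : ℤ) + b x + c x - (2 * K + 1) = 0 := by
    exact pow_eq_zero_iff (two_ne_zero) |>.1 h0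
  zify
  linarith

end Pool.Agent.Helper310_Saxl
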