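import Mathlib

/-!
# Young subgroups, antisymmetrisers and highest weight vectors

`X` is a finite set and `ρ` a complex representation of `Perm X`.
-/

namespace Pool.Agent.Helper310_Saxl

open Equiv Finset

variable {X : Type*} [Fintype X] [DecidableEq X]

/-- the permutations preserving the fibres of `D` are products of transpositions preserving the
fibres of `D` -/
theorem young_induction {ι : Type*} (D : X → ι) (P : Perm X → Prop) (h1 : P 1)
    (hs : ∀ (g : Perm X) (x y : X), x ≠ y → D x = D y → P g → P (swap x y * g)) :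
    ∀ g : Perm X, (∀ x, D (g x) = D x) → P g := by
  intro g
  induction hn : g.support.card using Nat.strong_induction_on generalizing g with
  | _ n ih =>
    intro hg
    by_cases hg1 : g = 1
    · rw [hg1]; exact h1
    · obtain ⟨x, hx⟩ : ∃ x, g x ≠ x := by
        by_contra hcon
        push Not at hcon
        exact hg1 (Equiv.ext hcon)
      have hlt : (swap x (g x) * g).support.card < g.support.card :=
        Equiv.Perm.card_support_swap_mul hx
      have hinv : ∀ y, D ((swap x (g x) * g) y) = D y := by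
        intro y
        rw [Perm.mul_apply]
        by_cases h2 : g y = x
        · rw [h2, swap_apply_left, hg, ← h2, hg]
        · by_cases h3 : g y = g x
          · rw [h3, swap_apply_right, ← g.injective h3]
          · rw [swap_apply_of_ne_of_ne h2 h3, hg]
      have h4 := ih _ (hn ▸ hlt) (swap x (g x) * g) rfl hinv
      have h5 : g = swap x (g x) * (swap x (g x) * g) := by
        rw [← mul_assoc, swap_mul_self, one_mul]
      rw [h5]
      exact hs _ x (g x) (Ne.symm hx) (by rw [hg]) h4

omit [Fintype X] [DecidableEq X] in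
lemma perm_apply_inv (f : Perm X) (x : X) : f (f⁻¹ x) = x := f.apply_symm_apply x

omit [Fintype X] [DecidableEq X] in
lemma perm_inv_apply (f : Perm X) (x : X) : f⁻¹ (f x) = x := f.symm_apply_apply x

variable {V : Type*} [AddCommGroup V] [Module ℂ V] (ρ : Representation ℂ (Perm X) V)

omit [Fintype X] [DecidableEq X] in
lemma rho_mul (g h : Perm X) (v : V) : ρ (g * h) v = ρ g (ρ h v) := by
  rw [map_mul, Module.End.mul_apply]

omit [Fintype X] in
lemma rho_swap_swap (x y : X) (v : V) : ρ (swap x y) (ρ (swap x y) v) = v := by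
  rw [← rho_mul, swap_mul_self, map_one]; rfl

/-- a vector fixed by the transpositions in the fibres of `D` is fixed by the Young subgroup -/
lemma young_fixed {ι : Type*} (D : X → ι) (v : V)
    (h : ∀ x y, x ≠ y → D x = D y → ρ (swap x y) v = v) (g : Perm X) (hg : ∀ x, D (g x) = D x) :
    ρ g v = v := by
  refine young_induction D (fun g => ρ g v = v) (by simp) ?_ g hg
  intro g x y hxy hD hg
  rw [rho_mul, hg, h x y hxy hD]

/-- sign version -/
lemma young_sign {ι : Type*} (D : X → ι) (v : V)
    (h : ∀ x y, x ≠ y → D x = D y → ρ (swap x y) v = -v) (g : Perm X)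
    (hg : ∀ x, D (g x) = D x) :
    ρ g v = ((Perm.sign g : ℤ) : ℂ) • v := by
  refine young_induction D (fun g => ρ g v = ((Perm.sign g : ℤ) : ℂ) • v) (by simp) ?_ g hg
  intro g x y hxy hD hg
  rw [rho_mul, hg, map_smul, h x y hxy hD, Perm.sign_mul, Perm.sign_swap hxy]
  simp

/-- signs depending on the fibre -/
lemma young_pm {ι : Type*} (D : X → ι) (v : V)
    (h : ∀ x y, x ≠ y → D x = D y → ρ (swap x y) v = v ∨ ρ (swap x y) v = -v) (g : Perm X)
    (hg : ∀ x, D (g x) = D x) :
    ρ g v = v ∨ ρ g v = -v := by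
  refine young_induction D (fun g => ρ g v = v ∨ ρ g v = -v) (by simp) ?_ g hg
  intro g x y hxy hD hg
  rw [rho_mul]
  rcases hg with hg | hg <;> rcases h x y hxy hD with h | h <;> rw [hg]
  · left; exact h
  · right; exact h
  · right; rw [map_neg, h]
  · left; rw [map_neg, h, neg_neg]

/-! ### The antisymmetriser -/

/-- the permutations which fix all points outside `S` -/
def supp (S : Finset X) : Finset (Perm X) := univ.filter fun g => ∀ x, x ∉ S → g x = x

lemma mem_supp {S : Finset X} {g : Perm X} : g ∈ supp S ↔ ∀ x, x ∉ S → g x = x := by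
  simp [supp]

lemma supp_mul {S : Finset X} {g h : Perm X} (hg : g ∈ supp S) (hh : h ∈ supp S) :
    g * h ∈ supp S := by
  rw [mem_supp] at *
  intro x hx
  rw [Perm.mul_apply, hh x hx, hg x hx]

lemma supp_inv {S : Finset X} {g : Perm X} (hg : g ∈ supp S) : g⁻¹ ∈ supp S := by
  rw [mem_supp] at *
  intro x hx
  rw [Perm.inv_eq_iff_eq, hg x hx]

lemma supp_swap {S : Finset X} {x y : X} (hx : x ∈ S) (hy : y ∈ S) : swap x y ∈ supp S := by
  rw [mem_supp]
  intro z hz
  refine swap_apply_of_ne_of_ne ?_ ?_
  · rintro rfl; exact hz hx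
  · rintro rfl; exact hz hy

lemma supp_mono {S T : Finset X} (h : S ⊆ T) {g : Perm X} (hg : g ∈ supp S) : g ∈ supp T := by
  rw [mem_supp] at *
  exact fun x hx => hg x fun hxS => hx (h hxS)

/-- the antisymmetriser of `S` -/
noncomputable def asym (S : Finset X) : V →ₗ[ℂ] V :=
  ∑ g ∈ supp S, ((Perm.sign g : ℤ) : ℂ) • ρ g

lemma asym_apply (S : Finset X) (v : V) :
    asym ρ S v = ∑ g ∈ supp S, ((Perm.sign g : ℤ) : ℂ) • ρ g v := by
  simp [asym, LinearMap.sum_apply]

lemma asym_empty (v : V) : asym ρ (∅ : Finset X) v = v := by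
  rw [asym_apply]
  have : supp (∅ : Finset X) = {1} := by
    ext g
    rw [mem_supp, mem_singleton]
    constructor
    · intro h; exact Equiv.ext fun x => h x (by simp)
    · rintro rfl; simp
  rw [this]; simp

lemma asym_mem_span (S : Finset X) (v : V) :
    asym ρ S v ∈ Submodule.span ℂ {w | ∃ g ∈ supp S, w = ρ g v} := by
  rw [asym_apply]
  exact Submodule.sum_mem _ fun g hg =>
    Submodule.smul_mem _ _ (Submodule.subset_span ⟨g, hg, rfl⟩)

lemma asym_swap_left {S : Finset X} {x y : X} (hx : x ∈ S) (hy : y ∈ S) (hxy : x ≠ y) (v : V) :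
    ρ (swap x y) (asym ρ S v) = -asym ρ S v := by
  rw [asym_apply, map_sum, ← Finset.sum_neg_distrib]
  refine Finset.sum_bij (fun g _ => swap x y * g) ?_ ?_ ?_ ?_
  · intro g hg; exact supp_mul (supp_swap hx hy) hg
  · intro g _ h _ hgh; exact mul_left_cancel hgh
  · intro g hg
    exact ⟨swap x y * g, supp_mul (supp_swap hx hy) hg, by
      rw [← mul_assoc, swap_mul_self, one_mul]⟩
  · intro g hg
    rw [map_smul, ← rho_mul, Perm.sign_mul, Perm.sign_swap hxy]
    simp

lemma asym_swap_right {S : Finset X} {x y : X} (hx : x ∈ S) (hy : y ∈ S) (hxy : x ≠ y) (v : V) :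
    asym ρ S (ρ (swap x y) v) = -asym ρ S v := by
  rw [asym_apply, asym_apply, ← Finset.sum_neg_distrib]
  refine Finset.sum_bij (fun g _ => g * swap x y) ?_ ?_ ?_ ?_
  · intro g hg; exact supp_mul hg (supp_swap hx hy)
  · intro g _ h _ hgh; exact mul_right_cancel hgh
  · intro g hg
    exact ⟨g * swap x y, supp_mul hg (supp_swap hx hy), by
      rw [mul_assoc, swap_mul_self, mul_one]⟩
  · intro g hg
    rw [← rho_mul, Perm.sign_mul, Perm.sign_swap hxy]
    simp

/-- elements commuting with the permutations of `S` -/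
lemma asym_comm {S : Finset X} (k : Perm X) (hk : ∀ x ∈ S, k x = x) (v : V) :
    ρ k (asym ρ S v) = asym ρ S (ρ k v) := by
  rw [asym_apply, asym_apply, map_sum]
  refine Finset.sum_congr rfl fun g hg => ?_
  rw [map_smul, ← rho_mul, ← rho_mul]
  congr 3
  rw [mem_supp] at hg
  refine Equiv.ext fun x => ?_
  rw [Perm.mul_apply, Perm.mul_apply]
  by_cases hx : x ∈ S
  · rw [hk x hx]
    by_cases hgx : g x ∈ S
    · exact hk _ hgx
    · exfalso
      have h1 := g.injective (hg _ hgx)
      rw [h1] at hgx
      exact hgx hx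
  · rw [hg x hx]
    by_cases hkx : k x ∈ S
    · have h1 := hk _ hkx
      exact absurd ((k.injective h1) ▸ hkx) hx
    · rw [hg _ hkx]

lemma asym_comm_swap {S : Finset X} {x y : X} (hx : x ∉ S) (hy : y ∉ S) (v : V) :
    ρ (swap x y) (asym ρ S v) = asym ρ S (ρ (swap x y) v) := by
  refine asym_comm ρ _ (fun z hz => swap_apply_of_ne_of_ne ?_ ?_) v
  · rintro rfl; exact hx hz
  · rintro rfl; exact hy hz

/-- the recursion for the antisymmetriser -/
lemma asym_insert {S : Finset X} {a : X} (ha : a ∉ S) (v : V) :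
    asym ρ (insert a S) v = asym ρ S (v - ∑ y ∈ S, ρ (swap a y) v) := by
  have h1 : asym ρ S (v - ∑ y ∈ S, ρ (swap a y) v) =
      ∑ p ∈ supp S ×ˢ (insert a S),
        ((Perm.sign (p.1 * swap a p.2) : ℤ) : ℂ) • ρ (p.1 * swap a p.2) v := by
    rw [Finset.sum_product, asym_apply]
    refine Finset.sum_congr rfl fun g hg => ?_
    rw [Finset.sum_insert ha, map_sub, smul_sub, map_sum, Finset.smul_sum, sub_eq_add_neg,
      ← Finset.sum_neg_distrib]
    congr 1
    · have : (swap a a : Perm X) = 1 := swap_self a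
      rw [this, mul_one]
    · refine Finset.sum_congr rfl fun y hy => ?_
      have hay : a ≠ y := by rintro rfl; exact ha hy
      rw [rho_mul, Perm.sign_mul, Perm.sign_swap hay]
      simp
  rw [h1, asym_apply]
  symm
  refine Finset.sum_bij' (fun p _ => p.1 * swap a p.2)
    (fun h _ => (h * swap a (h⁻¹ a), h⁻¹ a)) ?_ ?_ ?_ ?_ ?_
  · rintro ⟨g, y⟩ hp
    rw [Finset.mem_product] at hp
    exact supp_mul (supp_mono (Finset.subset_insert a S) hp.1)
      (supp_swap (Finset.mem_insert_self a S) hp.2)
  · intro h hh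
    rw [Finset.mem_product]
    have hmem : h⁻¹ a ∈ insert a S := by
      by_contra hcon
      have h2 := (mem_supp.1 hh) _ hcon
      rw [perm_apply_inv] at h2
      rw [← h2] at hcon
      exact hcon (Finset.mem_insert_self a S)
    refine ⟨?_, hmem⟩
    rw [mem_supp]
    intro x hx
    rw [Perm.mul_apply]
    by_cases hxa : x = a
    · rw [hxa, swap_apply_left, perm_apply_inv]
    · by_cases hxh : x = h⁻¹ a
      · exfalso
        rw [hxh] at hx hxa
        rcases Finset.mem_insert.1 hmem with h3 | h3
        · exact hxa h3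
        · exact hx h3
      · rw [swap_apply_of_ne_of_ne hxa hxh]
        refine (mem_supp.1 hh) x ?_
        rw [Finset.mem_insert]
        push Not
        exact ⟨hxa, hx⟩
  · rintro ⟨g, y⟩ hp
    rw [Finset.mem_product] at hp
    have hga : g⁻¹ a = a := by
      rw [Perm.inv_eq_iff_eq]
      exact ((mem_supp.1 hp.1) a ha).symm
    have hy : (g * swap a y)⁻¹ a = y := by
      rw [mul_inv_rev, Perm.mul_apply, hga, swap_inv, swap_apply_left]
    simp only
    rw [hy]
    simp [mul_assoc]
  · intro h hh
    simp [mul_assoc]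
  · rintro ⟨g, y⟩ hp
    rfl

/-! ### Highest weight vectors -/

/-- `φ` is fixed by the Young subgroup of `D` on `S` and killed by the raising operators: for
`D y0 < D x` the sum of `φ` and of its images under the transpositions of `x` with the elements of
the fibre of `y0` is zero. -/
def HW (S : Finset X) (D : X → ℕ) (φ : V) : Prop :=
  (∀ x ∈ S, ∀ y ∈ S, D x = D y → ρ (swap x y) φ = φ) ∧
  (∀ x ∈ S, ∀ y0 ∈ S, D y0 < D x →
    φ + ∑ y ∈ S.filter (fun y => D y = D y0), ρ (swap x y) φ = 0)

/-- the antisymmetrisation of a highest weight vector over a transversal is nonzero -/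
theorem HW.asym_ne_zero {S : Finset X} {D : X → ℕ} {φ : V} (h : HW ρ S D φ) (hφ : φ ≠ 0)
    (C : Finset X) (hC : C ⊆ S) (hinj : Set.InjOn D (C : Set X)) : asym ρ C φ ≠ 0 := by
  induction C using Finset.induction_on_min_value D with
  | empty => rw [asym_empty]; exact hφ
  | insert a C ha hmin ih =>
    have hCS : C ⊆ S := fun x hx => hC (Finset.mem_insert_of_mem hx)
    have haS : a ∈ S := hC (Finset.mem_insert_self a C)
    have hlt : ∀ y ∈ C, D a < D y := by
      intro y hy
      refine lt_of_le_of_ne (hmin y hy) ?_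
      intro he
      have := hinj (by simp) (by simp [hy]) he
      exact ha (this ▸ hy)
    have ih' := ih hCS (hinj.mono (by simp))
    -- the averaging operator
    set B := S.filter (fun x => D x = D a) with hB
    have hBC : ∀ x ∈ B, x ∉ C := by
      intro x hx hxC
      have h1 := (Finset.mem_filter.1 hx).2
      have h2 := hlt x hxC
      omega
    have key : ∑ x ∈ B, ρ (swap a x) (asym ρ (insert a C) φ)
        = ((B.card : ℂ) + (C.card : ℂ)) • asym ρ C φ := by
      rw [asym_insert ρ ha]
      have e1 : ∀ x ∈ B, ρ (swap a x) (asym ρ C (φ - ∑ y ∈ C, ρ (swap a y) φ)) =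
          asym ρ C (φ - ∑ y ∈ C, ρ (swap y x) φ) := by
        intro x hx
        have hxS := (Finset.mem_filter.1 hx).1
        have hxD := (Finset.mem_filter.1 hx).2
        rw [asym_comm_swap ρ ha (hBC x hx), map_sub, map_sum, h.1 a haS x hxS hxD.symm]
        congr 2
        refine Finset.sum_congr rfl fun y hy => ?_
        have hya : y ≠ a := by rintro rfl; exact ha hy
        have hyx : y ≠ x := by rintro rfl; exact hBC _ hx hy
        by_cases hxa : x = a
        · have e0 : (swap a a : Perm X) = 1 := swap_self a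
          rw [hxa, e0, map_one, swap_comm y a]
          rfl
        · have e2 : swap a x * swap a y = swap y x * swap a x := by
            have h3 : swap a x * swap a y = swap (swap a x a) (swap a x y) * swap a x :=
              mul_swap_eq_swap_mul (swap a x) a y
            rw [h3, swap_apply_left, swap_apply_of_ne_of_ne hya hyx, swap_comm x y]
          rw [← rho_mul, e2, rho_mul, h.1 a haS x hxS hxD.symm]
      rw [Finset.sum_congr rfl e1, ← map_sum, Finset.sum_sub_distrib, Finset.sum_comm]
      have e3 : ∀ y ∈ C, ∑ x ∈ B, ρ (swap y x) φ = -φ := by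
        intro y hy
        have h4 := h.2 y (hCS hy) a haS (hlt y hy)
        rw [← hB] at h4
        exact (neg_eq_of_add_eq_zero_right h4).symm
      rw [Finset.sum_congr rfl e3, Finset.sum_const, Finset.sum_const, ← map_smul]
      congr 1
      rw [← Nat.cast_smul_eq_nsmul ℂ, ← Nat.cast_smul_eq_nsmul ℂ, add_smul, smul_neg, sub_neg_eq_add]
    intro h0
    rw [h0] at key
    simp only [map_zero, Finset.sum_const_zero] at key
    have h5 := smul_eq_zero.1 key.symm
    rcases h5 with h5 | h5
    · have hpos : 0 < B.card := Finset.card_pos.2 ⟨a, Finset.mem_filter.2 ⟨haS, rfl⟩⟩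
      have : ((B.card + C.card : ℕ) : ℂ) = 0 := by push_cast; exact h5
      rw [Nat.cast_eq_zero] at this
      omega
    · exact ih' h5

/-- the highest weight property passes to the complement of the first column -/
theorem HW.sdiff {S : Finset X} {D : X → ℕ} {φ : V} (h : HW ρ S D φ)
    (C : Finset X) (hC : C ⊆ S) (hinj : Set.InjOn D (C : Set X))
    (hhit : ∀ x ∈ S, ∃ y ∈ C, D y = D x) : HW ρ (S \ C) D (asym ρ C φ) := by
  refine ⟨?_, ?_⟩
  · intro x hx y hy hD
    rw [Finset.mem_sdiff] at hx hy
    rw [asym_comm_swap ρ hx.2 hy.2, h.1 x hx.1 y hy.1 hD]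
  · intro x hx y0 hy0 hD
    rw [Finset.mem_sdiff] at hx hy0
    obtain ⟨xi, hxi, hxiD⟩ := hhit y0 hy0.1
    obtain ⟨xj, hxj, hxjD⟩ := hhit x hx.1
    have hne : xi ≠ xj := by
      rintro rfl
      omega
    have hfil : S.filter (fun y => D y = D y0) =
        insert xi ((S \ C).filter (fun y => D y = D y0)) := by
      ext z
      simp only [Finset.mem_filter, Finset.mem_insert, Finset.mem_sdiff]
      constructor
      · rintro ⟨hz, hzD⟩
        by_cases hzC : z ∈ C
        · left
          exact hinj hzC hxi (by rw [hzD, hxiD])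
        · right; exact ⟨⟨hz, hzC⟩, hzD⟩
      · rintro (rfl | ⟨⟨hz, _⟩, hzD⟩)
        · exact ⟨hC hxi, hxiD⟩
        · exact ⟨hz, hzD⟩
    have hnot : xi ∉ (S \ C).filter (fun y => D y = D y0) := by
      simp [hxi]
    have h1 := h.2 x hx.1 y0 hy0.1 hD
    rw [hfil, Finset.sum_insert hnot] at h1
    have h2 : ∀ y ∈ (S \ C).filter (fun y => D y = D y0),
        ρ (swap x y) (asym ρ C φ) = asym ρ C (ρ (swap x y) φ) := by
      intro y hy
      have hyC := (Finset.mem_sdiff.1 (Finset.mem_filter.1 hy).1).2
      exact asym_comm_swap ρ hx.2 hyC φ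
    rw [Finset.sum_congr rfl h2, ← map_sum, ← map_add]
    have h3 : φ + ∑ y ∈ (S \ C).filter (fun y => D y = D y0), ρ (swap x y) φ =
        -(ρ (swap x xi) φ) := by
      have : φ + (ρ (swap x xi) φ +
        ∑ y ∈ (S \ C).filter (fun y => D y = D y0), ρ (swap x y) φ) = 0 := h1
      rw [eq_neg_iff_add_eq_zero, ← this]
      abel
    rw [h3, map_neg, neg_eq_zero]
    -- now `asym C (swap x xi φ) = 0`
    have hxxi : x ≠ xi := by rintro rfl; exact hx.2 hxi
    have hxxj : x ≠ xj := by rintro rfl; exact hx.2 hxj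
    have h4 : ρ (swap xi xj) (ρ (swap x xi) φ) = ρ (swap x xi) φ := by
      have e : swap xi xj * swap x xi = swap x xi * swap x xj := by
        have h5 : swap x xi * swap x xj = swap (swap x xi x) (swap x xi xj) * swap x xi :=
          mul_swap_eq_swap_mul (swap x xi) x xj
        rw [h5, swap_apply_left, swap_apply_of_ne_of_ne hxxj.symm hne.symm]
      rw [← rho_mul, e, rho_mul, h.1 x hx.1 xj (hC hxj) hxjD.symm]
    have h6 := asym_swap_right ρ hxi hxj hne (ρ (swap x xi) φ)
    rw [h4] at h6
    have h7 : (2 : ℂ) • asym ρ C (ρ (swap x xi) φ) = 0 := by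
      rw [two_smul]
      nth_rewrite 1 [h6]
      simp
    exact (smul_eq_zero.1 h7).resolve_left two_ne_zero

/-- from a highest weight vector one gets a nonzero vector on which the transpositions in the
columns act by `-1` -/
theorem HW.exists_column {S : Finset X} {D : X → ℕ} {φ : V} (h : HW ρ S D φ) (hφ : φ ≠ 0)
    (c : X → ℕ) (hinj : ∀ x ∈ S, ∀ y ∈ S, D x = D y → c x = c y → x = y)
    (hleft : ∀ x ∈ S, ∀ j, j < c x → ∃ y ∈ S, D y = D x ∧ c y = j) :
    ∃ ψ : V, ψ ≠ 0 ∧ ψ ∈ Submodule.span ℂ {w | ∃ g ∈ supp S, w = ρ g φ} ∧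
      ∀ x ∈ S, ∀ y ∈ S, x ≠ y → c x = c y → ρ (swap x y) ψ = -ψ := by
  -- process the columns one by one
  have main : ∀ j : ℕ, ∃ ψ : V, ψ ≠ 0 ∧
      ψ ∈ Submodule.span ℂ {w | ∃ g ∈ supp S, w = ρ g φ} ∧
      HW ρ (S.filter fun x => j ≤ c x) D ψ ∧
      ∀ x ∈ S, ∀ y ∈ S, x ≠ y → c x = c y → c x < j → ρ (swap x y) ψ = -ψ := by
    intro j
    induction j with
    | zero =>
      refine ⟨φ, hφ, ?_, ?_, ?_⟩
      · exact Submodule.subset_span ⟨1, by rw [mem_supp]; simp, by simp⟩
      · simpa using h
      · intro x _ y _ _ _ hx; omega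
    | succ j ih =>
      obtain ⟨ψ, hψ0, hspan, hHW, hsign⟩ := ih
      set C := S.filter (fun x => c x = j) with hCdef
      have hCS : C ⊆ S.filter fun x => j ≤ c x := by
        intro x hx
        rw [hCdef, Finset.mem_filter] at hx
        rw [Finset.mem_filter]
        exact ⟨hx.1, hx.2.ge⟩
      have hCinj : Set.InjOn D (C : Set X) := by
        intro x hx y hy hD
        have hx' := Finset.mem_filter.1 (Finset.mem_coe.1 hx)
        have hy' := Finset.mem_filter.1 (Finset.mem_coe.1 hy)
        exact hinj x hx'.1 y hy'.1 hD (by rw [hx'.2, hy'.2])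
      have hhit : ∀ x ∈ S.filter (fun x => j ≤ c x), ∃ y ∈ C, D y = D x := by
        intro x hx
        rw [Finset.mem_filter] at hx
        rcases Nat.eq_or_lt_of_le hx.2 with h1 | h1
        · exact ⟨x, by rw [hCdef, Finset.mem_filter]; exact ⟨hx.1, h1.symm⟩, rfl⟩
        · obtain ⟨y, hy, hyD, hyc⟩ := hleft x hx.1 j h1
          exact ⟨y, by rw [hCdef, Finset.mem_filter]; exact ⟨hy, hyc⟩, hyD⟩
      refine ⟨asym ρ C ψ, ?_, ?_, ?_, ?_⟩
      · exact hHW.asym_ne_zero ρ hψ0 C hCS hCinj
      · -- in the span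
        rw [asym_apply]
        refine Submodule.sum_mem _ fun g hg => Submodule.smul_mem _ _ ?_
        have hgS : g ∈ supp S := supp_mono (fun x hx => (Finset.mem_filter.1 (hCS hx)).1) hg
        have hmap : ∀ w ∈ Submodule.span ℂ {w | ∃ g ∈ supp S, w = ρ g φ},
            ρ g w ∈ Submodule.span ℂ {w | ∃ g ∈ supp S, w = ρ g φ} := by
          intro w hw
          induction hw using Submodule.span_induction with
          | mem w hw =>
            obtain ⟨g', hg', rfl⟩ := hw
            exact Submodule.subset_span ⟨g * g', supp_mul hgS hg', by rw [rho_mul]⟩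
          | zero => simp
          | add a b _ _ ha hb => rw [map_add]; exact Submodule.add_mem _ ha hb
          | smul a b _ hb => rw [map_smul]; exact Submodule.smul_mem _ _ hb
        exact hmap ψ hspan
      · have h1 := hHW.sdiff ρ C hCS hCinj hhit
        have h2 : S.filter (fun x => j ≤ c x) \ C = S.filter fun x => j + 1 ≤ c x := by
          ext x
          simp only [hCdef, Finset.mem_sdiff, Finset.mem_filter]
          constructor
          · rintro ⟨⟨h3, h4⟩, h5⟩
            refine ⟨h3, ?_⟩
            have : c x ≠ j := fun h6 => h5 ⟨h3, h6⟩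
            omega
          · rintro ⟨h3, h4⟩
            exact ⟨⟨h3, by omega⟩, fun h5 => by omega⟩
        rw [h2] at h1
        exact h1
      · intro x hx y hy hxy hcxy hlt
        rcases Nat.lt_succ_iff_lt_or_eq.1 hlt with h3 | h3
        · have hxC : x ∉ C := by
            rw [hCdef, Finset.mem_filter]; rintro ⟨_, h4⟩; omega
          have hyC : y ∉ C := by
            rw [hCdef, Finset.mem_filter]; rintro ⟨_, h4⟩; omega
          rw [asym_comm_swap ρ hxC hyC, hsign x hx y hy hxy hcxy h3, map_neg]
        · have hxC : x ∈ C := by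
            rw [hCdef, Finset.mem_filter]; exact ⟨hx, h3⟩
          have hyC : y ∈ C := by
            rw [hCdef, Finset.mem_filter]; exact ⟨hy, by omega⟩
          exact asym_swap_left ρ hxC hyC hxy ψ
  obtain ⟨ψ, h0, h1, _, h3⟩ := main ((S.sup c) + 1)
  refine ⟨ψ, h0, h1, ?_⟩
  intro x hx y hy hxy hc
  exact h3 x hx y hy hxy hc (Nat.lt_succ_of_le (Finset.le_sup (f := c) hx))

end Pool.Agent.Helper310_Saxl
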