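import Mathlib
import Pool.Agent.Helper310_Saxl.Young
import Pool.Agent.Helper310_Saxl.Stair

/-!
# Boards and the parity lemma

A board is a finite set cut in (at most) two halves; every half carries three pairwise transversal
functions of staircase type whose sum is constant, the row size, the column size and the diagonal
size. The rows and the columns of the board may run through both halves.
-/

namespace Pool.Agent.Helper310_Saxl

open Equiv Finset

/-- a board -/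
structure Board (X : Type*) [Fintype X] where
  K : Bool → ℕ
  hf : X → Bool
  s : X → ℕ
  t : X → ℕ
  b : X → ℕ
  R : X → ℕ
  C : X → ℕ
  hs : ∀ h, IsStair (K h) (univ.filter fun x => hf x = h) s
  ht : ∀ h, IsStair (K h) (univ.filter fun x => hf x = h) t
  hb : ∀ h, IsStair (K h) (univ.filter fun x => hf x = h) b
  hsum : ∀ x, s x + t x + b x = 2 * K (hf x) + 1
  hst : ∀ x y, hf x = hf y → s x = s y → t x = t y → x = y
  hRC : ∀ x y, R x = R y → C x = C y → x = y
  hRs : ∀ x y, hf x = hf y → (R x = R y ↔ s x = s y)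
  hCt : ∀ x y, hf x = hf y → (C x = C y ↔ t x = t y)

variable {X : Type*} [Fintype X]

/-- `a'` can be moved to `a` along the blocks of `c` when both are transversal to `c` -/
theorem exists_along [DecidableEq X] (K : Bool → ℕ) (hf : X → Bool) (c a a' : X → ℕ)
    (hc : ∀ h, IsStair (K h) (univ.filter fun x => hf x = h) c)
    (ha : ∀ h, IsStair (K h) (univ.filter fun x => hf x = h) a)
    (ha' : ∀ h, IsStair (K h) (univ.filter fun x => hf x = h) a')
    (hca : ∀ x y, hf x = hf y → c x = c y → a x = a y → x = y)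
    (hca' : ∀ x y, hf x = hf y → c x = c y → a' x = a' y → x = y) :
    ∃ g : Perm X, (∀ x, hf (g x) = hf x) ∧ (∀ x, c (g x) = c x) ∧ ∀ x, a (g x) = a' x := by
  have key : ∀ x, ∃ y, hf y = hf x ∧ c y = c x ∧ a y = a' x := by
    intro x
    have hx : x ∈ univ.filter fun z => hf z = hf x := by simp
    have hcx := (hc (hf x)).bounds hx
    have h1 := (hc (hf x)).image_block (ha (hf x)) (fun y hy z hz => hca y z (by
      rw [(Finset.mem_filter.1 hy).2, (Finset.mem_filter.1 hz).2])) hcx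
    have h2 := (hc (hf x)).image_block (ha' (hf x)) (fun y hy z hz => hca' y z (by
      rw [(Finset.mem_filter.1 hy).2, (Finset.mem_filter.1 hz).2])) hcx
    have h3 : a' x ∈ ((univ.filter fun z => hf z = hf x).filter fun z => c z = c x).image a' :=
      Finset.mem_image_of_mem _ (by simp)
    rw [h2, ← h1, Finset.mem_image] at h3
    obtain ⟨y, hy, hyx⟩ := h3
    rw [Finset.mem_filter, Finset.mem_filter] at hy
    exact ⟨y, hy.1.2, hy.2, hyx⟩
  choose f hf1 hf2 hf3 using key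
  have hinj : Function.Injective f := by
    intro x y hxy
    refine hca' x y ?_ ?_ ?_
    · rw [← hf1 x, ← hf1 y, hxy]
    · rw [← hf2 x, ← hf2 y, hxy]
    · rw [← hf3 x, ← hf3 y, hxy]
  refine ⟨Equiv.ofBijective f (Finite.injective_iff_bijective.1 hinj), ?_, ?_, ?_⟩
  · intro x; exact hf1 x
  · intro x; exact hf2 x
  · intro x; exact hf3 x

lemma IsStair.comp_perm [DecidableEq X] {K : ℕ} {hf : X → Bool} {h : Bool} {a : X → ℕ}
    (ha : IsStair K (univ.filter fun x => hf x = h) a) (g : Perm X) (hg : ∀ x, hf (g x) = hf x) :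
    IsStair K (univ.filter fun x => hf x = h) (fun x => a (g x)) := by
  intro m
  rw [← ha m]
  refine Finset.card_bij (fun x _ => g x) ?_ ?_ ?_
  · intro x hx
    simp only [Finset.mem_filter, Finset.mem_univ, true_and] at hx ⊢
    rw [hg]; exact hx
  · intro x _ y _ hxy; exact g.injective hxy
  · intro y hy
    refine ⟨g⁻¹ y, ?_, perm_apply_inv g y⟩
    simp only [Finset.mem_filter, Finset.mem_univ, true_and] at hy ⊢
    rw [perm_apply_inv]
    refine ⟨?_, hy.2⟩
    rw [← hy.1]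
    have := hg (g⁻¹ y)
    rw [perm_apply_inv] at this
    exact this.symm

namespace Board

variable (β : Board X)

lemma transv_bt {x y : X} (h : β.hf x = β.hf y) (h1 : β.b x = β.b y) (h2 : β.t x = β.t y) :
    x = y := by
  refine β.hst x y h ?_ h2
  have e1 := β.hsum x
  have e2 := β.hsum y
  rw [h] at e1
  omega

lemma transv_bs {x y : X} (h : β.hf x = β.hf y) (h1 : β.b x = β.b y) (h2 : β.s x = β.s y) :
    x = y := by
  refine β.hst x y h h2 ?_
  have e1 := β.hsum x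
  have e2 := β.hsum y
  rw [h] at e1
  omega

variable [DecidableEq X]

/-- the stabiliser of the rows -/
def SR : Subgroup (Perm X) where
  carrier := {g | ∀ x, β.R (g x) = β.R x}
  mul_mem' := by intro g h hg hh x; rw [Perm.mul_apply, hg, hh]
  one_mem' := by intro x; rfl
  inv_mem' := by
    intro g hg x
    have := hg (g⁻¹ x)
    rw [perm_apply_inv] at this
    exact this.symm

/-- the stabiliser of the columns -/
def SC : Subgroup (Perm X) where
  carrier := {g | ∀ x, β.C (g x) = β.C x}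
  mul_mem' := by intro g h hg hh x; rw [Perm.mul_apply, hg, hh]
  one_mem' := by intro x; rfl
  inv_mem' := by
    intro g hg x
    have := hg (g⁻¹ x)
    rw [perm_apply_inv] at this
    exact this.symm

/-- the stabiliser of the diagonals of the two halves -/
def Sb : Subgroup (Perm X) where
  carrier := {g | ∀ x, β.hf (g x) = β.hf x ∧ β.b (g x) = β.b x}
  mul_mem' := by
    intro g h hg hh x
    rw [Perm.mul_apply, (hg _).1, (hg _).2, (hh _).1, (hh _).2]
    exact ⟨rfl, rfl⟩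
  one_mem' := by intro x; exact ⟨rfl, rfl⟩
  inv_mem' := by
    intro g hg x
    have := hg (g⁻¹ x)
    rw [perm_apply_inv] at this
    exact ⟨this.1.symm, this.2.symm⟩

lemma mem_SR {g : Perm X} : g ∈ β.SR ↔ ∀ x, β.R (g x) = β.R x := Iff.rfl
lemma mem_SC {g : Perm X} : g ∈ β.SC ↔ ∀ x, β.C (g x) = β.C x := Iff.rfl
lemma mem_Sb {g : Perm X} : g ∈ β.Sb ↔ ∀ x, β.hf (g x) = β.hf x ∧ β.b (g x) = β.b x := Iff.rfl

instance : DecidablePred (· ∈ β.SR) := fun g => decidable_of_iff _ (β.mem_SR (g := g)).symm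
instance : DecidablePred (· ∈ β.SC) := fun g => decidable_of_iff _ (β.mem_SC (g := g)).symm
instance : DecidablePred (· ∈ β.Sb) := fun g => decidable_of_iff _ (β.mem_Sb (g := g)).symm

/-- the function `g ↦ Σ sgn c [g c ∈ S_R]` -/
def f0 (g : Perm X) : ℤ :=
  ∑ c ∈ univ.filter (· ∈ β.SC), (Perm.sign c : ℤ) * (if g * c ∈ β.SR then 1 else 0)

lemma f0_left {r : Perm X} (hr : r ∈ β.SR) (g : Perm X) : β.f0 (r * g) = β.f0 g := by
  unfold f0
  refine Finset.sum_congr rfl fun c _ => ?_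
  have : (r * g * c ∈ β.SR) ↔ (g * c ∈ β.SR) := by
    rw [mul_assoc]; exact β.SR.mul_mem_cancel_left hr
  simp only [this]

lemma f0_right {c : Perm X} (hc : c ∈ β.SC) (g : Perm X) :
    β.f0 (g * c) = (Perm.sign c : ℤ) * β.f0 g := by
  unfold f0
  rw [Finset.mul_sum]
  refine Finset.sum_bij (fun d _ => c * d) ?_ ?_ ?_ ?_
  · intro d hd
    rw [Finset.mem_filter] at hd ⊢
    exact ⟨Finset.mem_univ _, β.SC.mul_mem hc hd.2⟩
  · intro d _ e _ hde; exact mul_left_cancel hde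
  · intro d hd
    rw [Finset.mem_filter] at hd
    exact ⟨c⁻¹ * d, Finset.mem_filter.2 ⟨Finset.mem_univ _, β.SC.mul_mem (β.SC.inv_mem hc) hd.2⟩,
      by simp⟩
  · intro d _
    rw [Perm.sign_mul, mul_assoc g c d]
    have h1 : ((Perm.sign c : ℤˣ) : ℤ) * ((Perm.sign c : ℤˣ) : ℤ) = 1 := by
      rw [← Units.val_mul, Int.units_mul_self, Units.val_one]
    push_cast
    linear_combination (-((Perm.sign d : ℤˣ) : ℤ) * (if g * (c * d) ∈ β.SR then 1 else 0)) * h1

/-- the parity of the number of the pairs `(r, c)` with `r⁻¹ h⁻¹ c ∈ S_R` -/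
def par (h : Perm X) : ZMod 2 :=
  ∑ p ∈ (univ.filter (· ∈ β.Sb)) ×ˢ (univ.filter (· ∈ β.SC)),
    if p.1⁻¹ * h⁻¹ * p.2 ∈ β.SR then 1 else 0

/-- the value at `1` of `h v_ξ` -/
def val (ξ : Perm X → ℤ) (h : Perm X) : ℤ :=
  ∑ r ∈ univ.filter (· ∈ β.Sb), ξ r * β.f0 (r⁻¹ * h⁻¹)

lemma val_par (ξ : Perm X → ℤ) (hξ : ∀ r, ξ r = 1 ∨ ξ r = -1) (h : Perm X) :
    ((β.val ξ h : ℤ) : ZMod 2) = β.par h := by
  unfold val par f0
  rw [Finset.sum_product]
  push_cast
  refine Finset.sum_congr rfl fun r _ => ?_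
  have h1 : ((ξ r : ℤ) : ZMod 2) = 1 := by
    rcases hξ r with h1 | h1 <;> rw [h1]
    · simp
    · decide
  rw [h1, one_mul]
  refine Finset.sum_congr rfl fun c _ => ?_
  have h2 : (((Perm.sign c : ℤˣ) : ℤ) : ZMod 2) = 1 := by
    rcases Int.units_eq_one_or (Perm.sign c) with h1 | h1 <;> rw [h1]
    · simp
    · decide
  rw [h2, one_mul]

lemma par_even {h : Perm X} {x y : X} (hxy : x ≠ y) (h1 : β.hf (h⁻¹ x) = β.hf (h⁻¹ y))
    (h2 : β.b (h⁻¹ x) = β.b (h⁻¹ y)) (h3 : β.C x = β.C y) : β.par h = 0 := by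
  unfold par
  have hb : swap (h⁻¹ x) (h⁻¹ y) ∈ β.Sb := by
    rw [mem_Sb]
    intro z
    by_cases h4 : z = h⁻¹ x
    · rw [h4, swap_apply_left, h1, h2]; exact ⟨rfl, rfl⟩
    · by_cases h5 : z = h⁻¹ y
      · rw [h5, swap_apply_right, h1, h2]; exact ⟨rfl, rfl⟩
      · rw [swap_apply_of_ne_of_ne h4 h5]; exact ⟨rfl, rfl⟩
  have hc : swap x y ∈ β.SC := by
    rw [mem_SC]
    intro z
    by_cases h4 : z = x
    · rw [h4, swap_apply_left, h3]
    · by_cases h5 : z = y
      · rw [h5, swap_apply_right, h3]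
      · rw [swap_apply_of_ne_of_ne h4 h5]
  have hcon : swap (h⁻¹ x) (h⁻¹ y) * h⁻¹ = h⁻¹ * swap x y :=
    (mul_swap_eq_swap_mul h⁻¹ x y).symm
  refine Finset.sum_involution (fun p _ => (swap (h⁻¹ x) (h⁻¹ y) * p.1, swap x y * p.2))
    ?_ ?_ ?_ ?_
  · rintro ⟨r, c⟩ _
    have : (swap (h⁻¹ x) (h⁻¹ y) * r)⁻¹ * h⁻¹ * (swap x y * c) = r⁻¹ * h⁻¹ * c := by
      rw [mul_inv_rev, swap_inv, mul_assoc r⁻¹, hcon, mul_assoc, mul_assoc, ← mul_assoc (swap x y),
        swap_mul_self, one_mul, mul_assoc]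
    simp only [this]
    split_ifs
    · decide
    · decide
  · rintro ⟨r, c⟩ _ _ h6
    have h7 := congrArg Prod.snd h6
    simp only at h7
    have h8 : swap x y = 1 := by
      have := congrArg (· * c⁻¹) h7
      simpa using this
    exact hxy (Equiv.swap_eq_one_iff.1 h8)
  · rintro ⟨r, c⟩ hp
    rw [Finset.mem_product, Finset.mem_filter, Finset.mem_filter] at hp ⊢
    exact ⟨⟨Finset.mem_univ _, β.Sb.mul_mem hb hp.1.2⟩,
      ⟨Finset.mem_univ _, β.SC.mul_mem hc hp.2.2⟩⟩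
  · rintro ⟨r, c⟩ _
    simp only [← mul_assoc, swap_mul_self, one_mul]

lemma par_transl {r0 c0 : Perm X} (hr : r0 ∈ β.Sb) (hc : c0 ∈ β.SC) :
    β.par (c0 * r0) = β.par 1 := by
  unfold par
  refine Finset.sum_bij (fun p _ => (r0 * p.1, c0⁻¹ * p.2)) ?_ ?_ ?_ ?_
  · rintro ⟨r, c⟩ hp
    rw [Finset.mem_product, Finset.mem_filter, Finset.mem_filter] at hp ⊢
    exact ⟨⟨Finset.mem_univ _, β.Sb.mul_mem hr hp.1.2⟩,
      ⟨Finset.mem_univ _, β.SC.mul_mem (β.SC.inv_mem hc) hp.2.2⟩⟩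
  · rintro ⟨r, c⟩ _ ⟨r', c'⟩ _ h
    rw [Prod.mk.injEq] at h ⊢
    exact ⟨mul_left_cancel h.1, mul_left_cancel h.2⟩
  · rintro ⟨r, c⟩ hp
    rw [Finset.mem_product, Finset.mem_filter, Finset.mem_filter] at hp
    refine ⟨(r0⁻¹ * r, c0 * c), ?_, by simp⟩
    rw [Finset.mem_product, Finset.mem_filter, Finset.mem_filter]
    exact ⟨⟨Finset.mem_univ _, β.Sb.mul_mem (β.Sb.inv_mem hr) hp.1.2⟩,
      ⟨Finset.mem_univ _, β.SC.mul_mem hc hp.2.2⟩⟩
  · rintro ⟨r, c⟩ _
    have : (r0 * r)⁻¹ * 1⁻¹ * (c0⁻¹ * c) = r⁻¹ * (c0 * r0)⁻¹ * c := by group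
    simp only [this]

/-- the rigidity of the triple (rows, columns, diagonals) -/
lemma rigid {r c : Perm X} (hr : r ∈ β.Sb) (hc : c ∈ β.SC) (h : r⁻¹ * c ∈ β.SR) :
    r = 1 ∧ c = 1 := by
  have hR : ∀ y, β.R (r⁻¹ y) = β.R (c⁻¹ y) := by
    intro y
    have := h (c⁻¹ y)
    rw [Perm.mul_apply, perm_apply_inv] at this
    exact this
  have hr' := β.Sb.inv_mem hr
  have hc' := β.SC.inv_mem hc
  have hrhf : ∀ x, β.hf (r⁻¹ x) = β.hf x := fun x => (hr' x).1
  -- the transported rows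
  have hs' : ∀ x, β.s (r⁻¹ x) = β.s x := by
    intro x
    have hst : ∀ y, y ∈ (univ.filter fun z => β.hf z = β.hf x) → β.hf y = β.hf x := fun y hy =>
      (Finset.mem_filter.1 hy).2
    have h1 := (β.hb (β.hf x)).rigid ((β.hs (β.hf x)).comp_perm r⁻¹ hrhf) (β.ht (β.hf x))
      (fun y hy z hz hyz1 hyz2 => by
        -- `b` and `s ∘ r⁻¹`
        have h2 : r⁻¹ y = r⁻¹ z := β.transv_bs (by rw [hrhf, hrhf, hst y hy, hst z hz])
          (by rw [(hr' y).2, (hr' z).2, hyz1]) hyz2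
        exact r⁻¹.injective h2)
      (fun y hy z hz hyz1 hyz2 => β.transv_bt (by rw [hst y hy, hst z hz]) hyz1 hyz2)
      (fun y hy z hz hyz1 hyz2 => by
        have h2 : β.hf y = β.hf z := by rw [hst y hy, hst z hz]
        have h3 : β.R (r⁻¹ y) = β.R (r⁻¹ z) := by
          rw [β.hRs _ _ (by rw [hrhf, hrhf, h2])]; exact hyz1
        rw [hR, hR] at h3
        have h4 : β.C (c⁻¹ y) = β.C (c⁻¹ z) := by
          rw [hc' y, hc' z]; exact (β.hCt y z h2).2 hyz2
        exact c⁻¹.injective (β.hRC _ _ h3 h4))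
      (x := x) (by simp)
    have h2 := β.hsum x
    omega
  have hr1 : ∀ x, r⁻¹ x = x := fun x =>
    β.transv_bs (hrhf x) (hr' x).2 (hs' x)
  have hr2 : r = 1 := by
    refine Equiv.ext fun x => ?_
    have := hr1 (r x)
    rw [perm_inv_apply] at this
    exact this.symm
  refine ⟨hr2, ?_⟩
  refine Equiv.ext fun x => ?_
  have h5 : c⁻¹ (c x) = c x := by
    refine β.hRC _ _ ?_ (hc' _)
    rw [← hR, hr1]
  rw [perm_inv_apply] at h5
  exact h5.symm

lemma par_one : β.par 1 = 1 := by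
  unfold par
  rw [Finset.sum_eq_single (1, 1)]
  · rw [if_pos]
    simp [β.SR.one_mem]
  · rintro ⟨r, c⟩ hp hne
    rw [Finset.mem_product, Finset.mem_filter, Finset.mem_filter] at hp
    rw [if_neg]
    intro h
    rw [inv_one, mul_one] at h
    obtain ⟨h1, h2⟩ := β.rigid hp.1.2 hp.2.2 h
    exact hne (Prod.ext h1 h2)
  · intro h
    exfalso
    apply h
    rw [Finset.mem_product, Finset.mem_filter, Finset.mem_filter]
    exact ⟨⟨Finset.mem_univ _, β.Sb.one_mem⟩, ⟨Finset.mem_univ _, β.SC.one_mem⟩⟩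

/-- The parity lemma for one factor. -/
theorem par_iff {h : Perm X} (hh : ∀ x, β.hf (h x) = β.hf x) :
    β.par h = 1 ↔ ∀ x y, β.hf x = β.hf y → β.b (h⁻¹ x) = β.b (h⁻¹ y) → β.t x = β.t y → x = y := by
  have hh' : ∀ x, β.hf (h⁻¹ x) = β.hf x := by
    intro x
    have := hh (h⁻¹ x)
    rw [perm_apply_inv] at this
    exact this.symm
  constructor
  · intro h1 x y h2 h3 h4
    by_contra hxy
    have := β.par_even (h := h) hxy (by rw [hh', hh', h2]) h3 ((β.hCt x y h2).2 h4)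
    rw [this] at h1
    exact absurd h1 (by decide)
  · intro h1
    obtain ⟨g, hg1, hg2, hg3⟩ := exists_along β.K β.hf β.t β.b (fun x => β.b (h⁻¹ x)) β.ht β.hb
      (fun h0 => (β.hb h0).comp_perm h⁻¹ hh') (fun x y h2 h3 h4 => β.transv_bt h2 h4 h3)
      (fun x y h2 h3 h4 => h1 x y h2 h4 h3)
    have hgC : g⁻¹ ∈ β.SC := by
      apply β.SC.inv_mem
      intro x
      exact (β.hCt _ _ (hg1 x)).2 (hg2 x)
    have hgb : g * h ∈ β.Sb := by
      intro x
      rw [Perm.mul_apply, hg1, hh, hg3, perm_inv_apply]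
      exact ⟨rfl, rfl⟩
    have h2 := β.par_transl hgb hgC
    rw [inv_mul_cancel_left] at h2
    rw [h2, par_one]

/-- the permutation which exchanges rows and columns in both halves -/
theorem exists_refl : ∃ g : Perm X, g ∈ β.Sb ∧ ∀ x, β.t (g⁻¹ x) = β.s x := by
  obtain ⟨g, hg1, hg2, hg3⟩ := exists_along β.K β.hf β.b β.t β.s β.hb β.ht β.hs
    (fun x y h2 h3 h4 => β.transv_bt h2 h3 h4) (fun x y h2 h3 h4 => β.transv_bs h2 h3 h4)
  refine ⟨g⁻¹, β.Sb.inv_mem fun x => ⟨hg1 x, hg2 x⟩, ?_⟩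
  intro x
  rw [inv_inv]; exact hg3 x

lemma odd_iff_zmod (a : ℤ) : Odd a ↔ ((a : ℤ) : ZMod 2) = 1 := by
  rw [← Int.not_even_iff_odd, even_iff_two_dvd]
  have := ZMod.intCast_zmod_eq_zero_iff_dvd a 2
  have h2 : ∀ z : ZMod 2, z = 1 ↔ ¬ z = 0 := by decide
  rw [h2]
  exact (not_congr this).symm

/-- The parity lemma for the product of the two factors. -/
theorem odd_iff {g1 : Perm X} (hg1 : g1 ∈ β.Sb) (hg1t : ∀ x, β.t (g1⁻¹ x) = β.s x)
    (ξ ξ' : Perm X → ℤ) (hξ : ∀ r, ξ r = 1 ∨ ξ r = -1) (hξ' : ∀ r, ξ' r = 1 ∨ ξ' r = -1)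
    {h : Perm X} (hh : ∀ x, β.hf (h x) = β.hf x) :
    Odd (β.val ξ (g1⁻¹ * h) * β.val ξ' h) ↔ h ∈ β.Sb := by
  have hh' : ∀ x, β.hf (h⁻¹ x) = β.hf x := by
    intro x
    have := hh (h⁻¹ x)
    rw [perm_apply_inv] at this
    exact this.symm
  have hg1' := β.Sb.inv_mem hg1
  rw [Int.odd_mul, odd_iff_zmod, odd_iff_zmod, val_par β ξ hξ, val_par β ξ' hξ',
    β.par_iff hh, β.par_iff (h := g1⁻¹ * h) (fun x => by rw [Perm.mul_apply, (hg1' _).1, hh])]
  have e1 : (∀ x y, β.hf x = β.hf y → β.b ((g1⁻¹ * h)⁻¹ x) = β.b ((g1⁻¹ * h)⁻¹ y) →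
      β.t x = β.t y → x = y) ↔
      ∀ x y, β.hf x = β.hf y → β.b (h⁻¹ x) = β.b (h⁻¹ y) → β.s x = β.s y → x = y := by
    constructor
    · intro h1 x y h2 h3 h4
      have := h1 (g1⁻¹ x) (g1⁻¹ y) (by rw [(hg1' _).1, (hg1' _).1, h2])
        (by rw [mul_inv_rev, inv_inv, Perm.mul_apply, Perm.mul_apply, perm_apply_inv,
          perm_apply_inv, h3]) (by rw [hg1t, hg1t, h4])
      exact g1⁻¹.injective this
    · intro h1 x y h2 h3 h4
      have := h1 (g1 x) (g1 y) (by rw [(hg1 _).1, (hg1 _).1, h2])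
        (by rw [mul_inv_rev, inv_inv, Perm.mul_apply, Perm.mul_apply] at h3; exact h3)
        (by rw [← hg1t, ← hg1t, perm_inv_apply, perm_inv_apply, h4])
      exact g1.injective this
  rw [e1]
  constructor
  · rintro ⟨h1, h2⟩
    have h3 : h⁻¹ ∈ β.Sb := by
      intro x
      refine ⟨hh' x, ?_⟩
      have hst : ∀ y, y ∈ (univ.filter fun z => β.hf z = β.hf x) → β.hf y = β.hf x :=
        fun y hy => (Finset.mem_filter.1 hy).2
      have h4 := ((β.hb (β.hf x)).comp_perm h⁻¹ hh').rigid (β.hs (β.hf x)) (β.ht (β.hf x))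
        (fun y hy z hz => h1 y z (by rw [hst y hy, hst z hz]))
        (fun y hy z hz => h2 y z (by rw [hst y hy, hst z hz]))
        (fun y hy z hz => β.hst y z (by rw [hst y hy, hst z hz])) (x := x) (by simp)
      have h5 := β.hsum x
      omega
    have := β.Sb.inv_mem h3
    rwa [inv_inv] at this
  · intro h1
    have h2 := β.Sb.inv_mem h1
    refine ⟨fun x y h3 h4 h5 => ?_, fun x y h3 h4 h5 => ?_⟩
    · rw [(h2 x).2, (h2 y).2] at h4
      exact β.transv_bs h3 h4 h5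
    · rw [(h2 x).2, (h2 y).2] at h4
      exact β.transv_bt h3 h4 h5

end Board

end Pool.Agent.Helper310_Saxl
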