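import Mathlib
import Pool.Agent.Helper310_Saxl.Board

/-!
# Rectangular boards
-/

namespace Pool.Agent.Helper310_Saxl

open Equiv Finset

section

variable {X : Type*} [Fintype X] {r k : ℕ} (e : X ≃ Fin r × Fin k)

/-- the row of a cell -/
def rowOf (x : X) : ℕ := ((e x).1 : ℕ)

/-- the column of a cell -/
def colOf (x : X) : ℕ := ((e x).2 : ℕ)

omit [Fintype X] in
lemma rowOf_lt (x : X) : rowOf e x < r := (e x).1.2
omit [Fintype X] in
lemma colOf_lt (x : X) : colOf e x < k := (e x).2.2

omit [Fintype X] in
lemma cell_ext {x y : X} (h1 : rowOf e x = rowOf e y) (h2 : colOf e x = colOf e y) : x = y :=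
  e.injective (Prod.ext (Fin.ext h1) (Fin.ext h2))

omit [Fintype X] in
lemma exists_cell {i j : ℕ} (hi : i < r) (hj : j < k) : ∃ x, rowOf e x = i ∧ colOf e x = j :=
  ⟨e.symm (⟨i, hi⟩, ⟨j, hj⟩), by simp [rowOf], by simp [colOf]⟩

/-- counting cells on a line -/
lemma count_cells (A : X → Prop) [DecidablePred A] (m : ℕ) (c : ℕ → ℕ → ℕ) (f g : ℕ → ℕ)
    (h1 : ∀ x, A x → c (rowOf e x) (colOf e x) < m ∧
      f (c (rowOf e x) (colOf e x)) = rowOf e x ∧ g (c (rowOf e x) (colOf e x)) = colOf e x)
    (h2 : ∀ v < m, f v < r ∧ g v < k ∧ c (f v) (g v) = v ∧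
      ∀ x, rowOf e x = f v → colOf e x = g v → A x) :
    (univ.filter A).card = m := by
  rw [← Finset.card_range m]
  refine Finset.card_bij (fun x _ => c (rowOf e x) (colOf e x)) ?_ ?_ ?_
  · intro x hx
    rw [Finset.mem_filter] at hx
    rw [Finset.mem_range]
    exact (h1 x hx.2).1
  · intro x hx y hy hxy
    rw [Finset.mem_filter] at hx hy
    obtain ⟨_, h3, h4⟩ := h1 x hx.2
    obtain ⟨_, h5, h6⟩ := h1 y hy.2
    refine cell_ext e ?_ ?_
    · rw [← h3, ← h5, hxy]
    · rw [← h4, ← h6, hxy]
  · intro v hv
    rw [Finset.mem_range] at hv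
    obtain ⟨h3, h4, h5, h6⟩ := h2 v hv
    obtain ⟨x, hx1, hx2⟩ := exists_cell e h3 h4
    exact ⟨x, Finset.mem_filter.2 ⟨Finset.mem_univ _, h6 x hx1 hx2⟩, by rw [hx1, hx2, h5]⟩

/-- functions of staircase type on a set of cells -/
lemma stair_cells (A : X → Prop) [DecidablePred A] (s : X → ℕ) (K : ℕ) (c : ℕ → ℕ → ℕ → ℕ)
    (f g : ℕ → ℕ → ℕ)
    (h1 : ∀ x, A x → 1 ≤ s x ∧ s x ≤ K ∧ c (s x) (rowOf e x) (colOf e x) < s x ∧
      f (s x) (c (s x) (rowOf e x) (colOf e x)) = rowOf e x ∧
      g (s x) (c (s x) (rowOf e x) (colOf e x)) = colOf e x)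
    (h2 : ∀ m v, 1 ≤ m → m ≤ K → v < m → f m v < r ∧ g m v < k ∧ c m (f m v) (g m v) = v ∧
      ∀ x, rowOf e x = f m v → colOf e x = g m v → A x ∧ s x = m) :
    IsStair K (univ.filter A) s := by
  intro m
  rw [Finset.filter_filter]
  by_cases hm : 1 ≤ m ∧ m ≤ K
  · rw [if_pos hm]
    refine count_cells e _ m (c m) (f m) (g m) ?_ ?_
    · rintro x ⟨hx, rfl⟩
      exact (h1 x hx).2.2
    · intro v hv
      exact h2 m v hm.1 hm.2 hv
  · rw [if_neg hm, Finset.card_eq_zero, Finset.filter_eq_empty_iff]
    rintro x _ ⟨hx, rfl⟩
    exact hm ⟨(h1 x hx).1, (h1 x hx).2.1⟩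

variable (r k)

/-- the sizes of the rows of the two halves -/
def sB (i j : ℕ) : ℕ := if j < i then i else k - i
/-- the sizes of the columns of the two halves -/
def tB (i j : ℕ) : ℕ := if j < i then r - 1 - j else j + 1
/-- the sizes of the diagonals of the two halves -/
def bB (i j : ℕ) : ℕ := if j < i then r - (i - j) else k - (j - i)

variable {r k}

/-- the board given by a rectangle of `r` rows and `k` columns, `r = k` or `r = k + 1`. The first
half consists of the cells below the main diagonal, the second of the other ones. -/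
def boxBoard (h1 : k ≤ r) (h2 : r ≤ k + 1) (e : X ≃ Fin r × Fin k) : Board X where
  K h := if h then r - 1 else k
  hf x := decide (colOf e x < rowOf e x)
  s x := sB k (rowOf e x) (colOf e x)
  t x := tB r (rowOf e x) (colOf e x)
  b x := bB r k (rowOf e x) (colOf e x)
  R := rowOf e
  C := colOf e
  hs h := by
    cases h
    · refine stair_cells e _ _ _ (fun m i j => j - i) (fun m v => k - m) (fun m v => k - m + v)
        ?_ ?_
      · intro x hx
        have h5 := rowOf_lt e x
        have h6 := colOf_lt e x
        simp only [decide_eq_false_iff_not, not_lt] at hx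
        simp only [sB, Bool.false_eq_true, if_false]
        rw [if_neg (by omega)]
        refine ⟨?_, ?_, ?_, ?_, ?_⟩ <;> first | omega | trivial
      · intro m v hm1 hm2 hv
        simp only [Bool.false_eq_true, if_false] at hm2
        refine ⟨by omega, by omega, by omega, ?_⟩
        intro x h5 h6
        simp only [decide_eq_false_iff_not, not_lt, sB]
        rw [if_neg (by omega)]; omega
    · refine stair_cells e _ _ _ (fun m i j => j) (fun m v => m) (fun m v => v) ?_ ?_
      · intro x hx
        have h5 := rowOf_lt e x
        have h6 := colOf_lt e x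
        simp only [decide_eq_true_eq] at hx
        simp only [sB, if_true]
        rw [if_pos hx]
        refine ⟨?_, ?_, ?_, ?_, ?_⟩ <;> first | omega | trivial
      · intro m v hm1 hm2 hv
        simp only [if_true] at hm2
        refine ⟨by omega, by omega, by omega, ?_⟩
        intro x h5 h6
        simp only [decide_eq_true_eq, sB]
        rw [if_pos (by omega)]; omega
  ht h := by
    cases h
    · refine stair_cells e _ _ _ (fun m i j => i) (fun m v => v) (fun m v => m - 1) ?_ ?_
      · intro x hx
        have h5 := rowOf_lt e x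
        have h6 := colOf_lt e x
        simp only [decide_eq_false_iff_not, not_lt] at hx
        simp only [tB, Bool.false_eq_true, if_false]
        rw [if_neg (by omega)]
        refine ⟨?_, ?_, ?_, ?_, ?_⟩ <;> first | omega | trivial
      · intro m v hm1 hm2 hv
        simp only [Bool.false_eq_true, if_false] at hm2
        refine ⟨by omega, by omega, by omega, ?_⟩
        intro x h5 h6
        simp only [decide_eq_false_iff_not, not_lt, tB]
        rw [if_neg (by omega)]; omega
    · refine stair_cells e _ _ _ (fun m i j => r - 1 - i) (fun m v => r - 1 - v)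
        (fun m v => r - 1 - m) ?_ ?_
      · intro x hx
        have h5 := rowOf_lt e x
        have h6 := colOf_lt e x
        simp only [decide_eq_true_eq] at hx
        simp only [tB, if_true]
        rw [if_pos hx]
        refine ⟨?_, ?_, ?_, ?_, ?_⟩ <;> first | omega | trivial
      · intro m v hm1 hm2 hv
        simp only [if_true] at hm2
        refine ⟨by omega, by omega, by omega, ?_⟩
        intro x h5 h6
        simp only [decide_eq_true_eq, tB]
        rw [if_pos (by omega)]; omega
  hb h := by
    cases h
    · refine stair_cells e _ _ _ (fun m i j => i) (fun m v => v) (fun m v => v + (k - m)) ?_ ?_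
      · intro x hx
        have h5 := rowOf_lt e x
        have h6 := colOf_lt e x
        simp only [decide_eq_false_iff_not, not_lt] at hx
        simp only [bB, Bool.false_eq_true, if_false]
        rw [if_neg (by omega)]
        refine ⟨?_, ?_, ?_, ?_, ?_⟩ <;> first | omega | trivial
      · intro m v hm1 hm2 hv
        simp only [Bool.false_eq_true, if_false] at hm2
        refine ⟨by omega, by omega, by omega, ?_⟩
        intro x h5 h6
        simp only [decide_eq_false_iff_not, not_lt, bB]
        rw [if_neg (by omega)]; omega
    · refine stair_cells e _ _ _ (fun m i j => j) (fun m v => v + (r - m)) (fun m v => v) ?_ ?_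
      · intro x hx
        have h5 := rowOf_lt e x
        have h6 := colOf_lt e x
        simp only [decide_eq_true_eq] at hx
        simp only [bB, if_true]
        rw [if_pos hx]
        refine ⟨?_, ?_, ?_, ?_, ?_⟩ <;> first | omega | trivial
      · intro m v hm1 hm2 hv
        simp only [if_true] at hm2
        refine ⟨by omega, by omega, by omega, ?_⟩
        intro x h5 h6
        simp only [decide_eq_true_eq, bB]
        rw [if_pos (by omega)]; omega
  hsum x := by
    have h5 := rowOf_lt e x
    have h6 := colOf_lt e x
    by_cases h : colOf e x < rowOf e x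
    · simp only [sB, tB, bB, h, if_true, decide_true]; omega
    · simp only [sB, tB, bB, h, if_false, decide_false, Bool.false_eq_true]; omega
  hst x y h3 h4 h5 := by
    have h6 := rowOf_lt e x
    have h7 := colOf_lt e x
    have h8 := rowOf_lt e y
    have h9 := colOf_lt e y
    by_cases h : colOf e x < rowOf e x
    · have h' : colOf e y < rowOf e y := by
        simpa [h] using h3
      simp only [sB, tB, if_pos h, if_pos h'] at h4 h5
      exact cell_ext e h4 (by omega)
    · have h' : ¬ colOf e y < rowOf e y := by
        simpa [h] using h3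
      simp only [sB, tB, if_neg h, if_neg h'] at h4 h5
      exact cell_ext e (by omega) (by omega)
  hRC x y h3 h4 := cell_ext e h3 h4
  hRs x y h3 := by
    have h6 := rowOf_lt e x
    have h7 := colOf_lt e x
    have h8 := rowOf_lt e y
    have h9 := colOf_lt e y
    by_cases h : colOf e x < rowOf e x
    · have h' : colOf e y < rowOf e y := by
        simpa [h] using h3
      simp only [sB, tB, if_pos h, if_pos h']
    · have h' : ¬ colOf e y < rowOf e y := by
        simpa [h] using h3
      simp only [sB, tB, if_neg h, if_neg h']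
      omega
  hCt x y h3 := by
    have h6 := rowOf_lt e x
    have h7 := colOf_lt e x
    have h8 := rowOf_lt e y
    have h9 := colOf_lt e y
    by_cases h : colOf e x < rowOf e x
    · have h' : colOf e y < rowOf e y := by
        simpa [h] using h3
      simp only [sB, tB, if_pos h, if_pos h']
      omega
    · have h' : ¬ colOf e y < rowOf e y := by
        simpa [h] using h3
      simp only [sB, tB, if_neg h, if_neg h']
      omega

end

end Pool.Agent.Helper310_Saxl
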