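import Mathlib

/-!
# The odd lemma

Let `z` be a vector of a complex representation of a finite group `G` and `l` a linear form such
that `l (g z)` is an integer for all `g`, odd exactly when `g` lies in the subgroup `H`. If `H`
acts on `z` and on a nonzero vector `y` of a representation `U` by the same signs, then there is a
nonzero intertwining map from `U` to the span of the orbit of `z`.
-/

namespace Pool.Agent.Helper310_Saxl

open Representation Finset

section

variable {G : Type*} [Group G] [Fintype G] (H : Subgroup G)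
    {Z U : Type*} [AddCommGroup Z] [Module ℂ Z] [AddCommGroup U] [Module ℂ U]

/-- an integer matrix which is the identity modulo two is invertible over `ℂ` -/
lemma det_ne_zero_of_odd {ι : Type*} [Fintype ι] [DecidableEq ι] (M : Matrix ι ι ℤ)
    (h : ∀ p q, Odd (M p q) ↔ p = q) : (M.map (fun a : ℤ => (a : ℂ))).det ≠ 0 := by
  have h1 : (M.map (Int.castRingHom (ZMod 2))) = 1 := by
    ext p q
    rw [Matrix.map_apply, Matrix.one_apply]
    by_cases hpq : p = q
    · have := (h p q).2 hpq
      rw [if_pos hpq]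
      obtain ⟨a, ha⟩ := this
      rw [ha]
      have : (2 : ZMod 2) = 0 := rfl
      simp [this]
    · have h2 : ¬ Odd (M p q) := fun hh => hpq ((h p q).1 hh)
      rw [if_neg hpq]
      rw [Int.not_odd_iff_even] at h2
      obtain ⟨a, ha⟩ := h2
      rw [ha]
      have : (2 : ZMod 2) = 0 := rfl
      have h3 : (Int.castRingHom (ZMod 2)) (a + a) = 2 * (a : ZMod 2) := by
        simp [two_mul]
      rw [h3, this, zero_mul]
  have h2 : (Int.castRingHom (ZMod 2)) M.det = 1 := by
    rw [RingHom.map_det]
    have : (Int.castRingHom (ZMod 2)).mapMatrix M = 1 := h1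
    rw [this, Matrix.det_one]
  have h3 : M.det ≠ 0 := by
    intro h0
    rw [h0] at h2
    simp at h2
  have h4 : (M.map (fun a : ℤ => (a : ℂ))).det = ((M.det : ℤ) : ℂ) := by
    have := (RingHom.map_det (Int.castRingHom ℂ) M)
    simpa [RingHom.mapMatrix_apply] using this.symm
  rw [h4]
  exact_mod_cast h3

theorem odd_lemma (ρZ : Representation ℂ G Z) (ρU : Representation ℂ G U)
    (z : Z) (y : U) (hy0 : y ≠ 0)
    (hH : ∀ h ∈ H, (ρZ h z = z ∧ ρU h y = y) ∨ (ρZ h z = -z ∧ ρU h y = -y))
    (l : Z →ₗ[ℂ] ℂ) (m : G → ℤ) (hm : ∀ g, l (ρZ g z) = m g)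
    (hodd : ∀ g, Odd (m g) ↔ g ∈ H) :
    ∃ f : IntertwiningMap ρU ρZ, f ≠ 0 ∧
      ∀ x, f x ∈ Submodule.span ℂ (Set.range fun g => ρZ g z) := by
  classical
  -- the signs
  let c : G → ℂ := fun h => if ρU h y = y then 1 else -1
  have hc1 : ∀ h ∈ H, ρU h y = c h • y ∧ ρZ h z = c h • z := by
    intro h hh
    by_cases h1 : ρU h y = y
    · have hc : c h = 1 := if_pos h1
      rw [hc, one_smul, one_smul]
      refine ⟨h1, ?_⟩
      rcases hH h hh with h2 | h2
      · exact h2.1
      · exfalso
        apply hy0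
        have h3 : y = -y := by rw [← h2.2, h1]
        have h4 : (2 : ℂ) • y = 0 := by
          rw [two_smul]
          nth_rewrite 1 [h3]
          simp
        exact (smul_eq_zero.1 h4).resolve_left two_ne_zero
    · have hc : c h = -1 := if_neg h1
      rw [hc]
      rcases hH h hh with h2 | h2
      · exact absurd h2.2 h1
      · rw [h2.1, h2.2]; simp
  have hcc : ∀ h, c h * c h = 1 := by
    intro h
    by_cases h1 : ρU h y = y
    · have hc : c h = 1 := if_pos h1
      rw [hc]; norm_num
    · have hc : c h = -1 := if_neg h1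
      rw [hc]; norm_num
  have hcmul : ∀ h ∈ H, ∀ h' ∈ H, c (h * h') = c h * c h' := by
    intro h hh h' hh'
    have h1 : ρU (h * h') y = (c h * c h') • y := by
      rw [map_mul, Module.End.mul_apply, (hc1 h' hh').1, map_smul, (hc1 h hh).1, smul_smul,
        mul_comm]
    rw [(hc1 (h * h') (H.mul_mem hh hh')).1] at h1
    exact smul_left_injective ℂ hy0 h1
  -- a linear form with `f0 y ≠ 0`
  obtain ⟨f0, hf0⟩ : ∃ f0 : Module.Dual ℂ U, f0 y ≠ 0 := by
    by_contra hcon
    push Not at hcon
    exact hy0 ((Module.forall_dual_apply_eq_zero_iff ℂ y).1 hcon)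
  let f : U →ₗ[ℂ] ℂ := ∑ h : H, c h • (f0 ∘ₗ ρU (h : G))
  have hfapp : ∀ x, f x = ∑ h : H, c h * f0 (ρU (h : G) x) := by
    intro x
    simp [f, LinearMap.sum_apply]
  have hfeq : ∀ h ∈ H, ∀ x, f (ρU h x) = c h * f x := by
    intro h hh x
    rw [hfapp, hfapp, Finset.mul_sum]
    refine Fintype.sum_bijective (fun h' : H => h' * ⟨h, hh⟩)
      (Group.mulRight_bijective (⟨h, hh⟩ : H)) _ _ ?_
    intro h'
    have e1 : ((h' * ⟨h, hh⟩ : H) : G) = (h' : G) * h := rfl
    have e2 : c ((h' * ⟨h, hh⟩ : H) : G) = c (h' : G) * c h := by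
      rw [e1]; exact hcmul _ h'.2 _ hh
    rw [e2, e1, map_mul, Module.End.mul_apply]
    have := hcc h
    linear_combination (-(c (h' : G) * f0 (ρU (h' : G) (ρU h x)))) * this
  have hfy : f y ≠ 0 := by
    have : f y = (Fintype.card H : ℂ) * f0 y := by
      rw [hfapp]
      have : ∀ h : H, c h * f0 (ρU (h : G) y) = f0 y := by
        intro h
        rw [(hc1 h h.2).1, map_smul, smul_eq_mul, ← mul_assoc, hcc, one_mul]
      simp [this]
    rw [this]
    refine mul_ne_zero ?_ hf0
    exact_mod_cast Fintype.card_ne_zero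
  -- the intertwining map
  let Tl : U →ₗ[ℂ] Z := ∑ g : G, (f ∘ₗ ρU g⁻¹).smulRight (ρZ g z)
  have hT : ∀ x, Tl x = ∑ g : G, f (ρU g⁻¹ x) • ρZ g z := by
    intro x
    simp [Tl, LinearMap.sum_apply]
  have hTi : ∀ (g : G) (x : U), Tl (ρU g x) = ρZ g (Tl x) := by
    intro g x
    rw [hT, hT, map_sum]
    refine Fintype.sum_bijective (fun h => g⁻¹ * h) (Group.mulLeft_bijective g⁻¹) _ _ ?_
    intro h
    rw [map_smul, ← Module.End.mul_apply (ρZ g), ← map_mul, ← Module.End.mul_apply (ρU h⁻¹),
      ← map_mul]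
    congr 2
    · congr 2; group
    · congr 1; group
  refine ⟨Tl.intertwiningMap_of_isIntertwiningMap ρU ρZ hTi, ?_, ?_⟩
  · intro h0
    have hTy : Tl y = 0 := by
      have := congrArg (fun F : IntertwiningMap ρU ρZ => F y) h0
      simpa using this
    -- coefficients
    let a : G → ℂ := fun g => f (ρU g⁻¹ y)
    have ha : ∀ g, ∀ h ∈ H, a (g * h) • ρZ (g * h) z = a g • ρZ g z := by
      intro g h hh
      have e1 : a (g * h) = c h * a g := by
        simp only [a]
        rw [mul_inv_rev, map_mul, Module.End.mul_apply, hfeq h⁻¹ (H.inv_mem hh)]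
        congr 1
        have h1 : c (h * h⁻¹) = c h * c h⁻¹ := hcmul h hh h⁻¹ (H.inv_mem hh)
        have h2 : c (h * h⁻¹) = 1 := by
          rw [mul_inv_cancel]
          simp [c]
        rw [h2] at h1
        have h3 := hcc h
        linear_combination (c h⁻¹) * (-h3) - (c h) * h1
      have e2 : ρZ (g * h) z = c h • ρZ g z := by
        rw [map_mul, Module.End.mul_apply, (hc1 h hh).2, map_smul]
      rw [e1, e2, smul_smul]
      congr 1
      have := hcc h
      linear_combination a g * this
    have hfib : ∀ (q : G ⧸ H) (g : G), (g : G ⧸ H) = q →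
        a g • ρZ g z = a q.out • ρZ q.out z := by
      intro q g hg
      have h1 : (q.out : G)⁻¹ * g ∈ H := by
        rw [← QuotientGroup.eq]
        rw [hg]; exact QuotientGroup.out_eq' q
      have h2 := ha q.out _ h1
      rw [mul_inv_cancel_left] at h2
      exact h2
    -- the weighted coefficients
    let w : G ⧸ H → ℂ := fun q => ((univ.filter fun g : G => (g : G ⧸ H) = q).card : ℂ) * a q.out
    have hsum : Tl y = ∑ q : G ⧸ H, w q • ρZ q.out z := by
      rw [hT]
      rw [← Finset.sum_fiberwise univ (fun g : G => (g : G ⧸ H))]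
      refine Finset.sum_congr rfl fun q _ => ?_
      rw [Finset.sum_congr rfl (fun g hg => hfib q g (Finset.mem_filter.1 hg).2)]
      rw [Finset.sum_const]
      simp only [w]
      rw [mul_smul, Nat.cast_smul_eq_nsmul]
    let M : Matrix (G ⧸ H) (G ⧸ H) ℤ := fun p q => m ((p.out : G)⁻¹ * q.out)
    have hM : ∀ p q, Odd (M p q) ↔ p = q := by
      intro p q
      simp only [M]
      rw [hodd, ← QuotientGroup.eq, QuotientGroup.out_eq', QuotientGroup.out_eq']
    have hMw : (M.map (fun a : ℤ => (a : ℂ))).mulVec w = 0 := by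
      ext p
      have h1 : l (ρZ (p.out : G)⁻¹ (Tl y)) = 0 := by rw [hTy]; simp
      rw [hsum, map_sum, map_sum] at h1
      rw [Matrix.mulVec, dotProduct]
      rw [Pi.zero_apply, ← h1]
      refine Finset.sum_congr rfl fun q _ => ?_
      rw [map_smul, map_smul, ← Module.End.mul_apply (ρZ (p.out : G)⁻¹), ← map_mul, hm,
        Matrix.map_apply, smul_eq_mul, mul_comm]
    have hw := Matrix.eq_zero_of_mulVec_eq_zero (det_ne_zero_of_odd M hM) hMw
    have h1 : w ((1 : G) : G ⧸ H) = 0 := by rw [hw]; rfl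
    rcases mul_eq_zero.1 h1 with h2 | h2
    · have h3 : (univ.filter fun g : G => (g : G ⧸ H) = ((1 : G) : G ⧸ H)).card = 0 := by
        exact_mod_cast h2
      rw [Finset.card_eq_zero] at h3
      have h4 : (1 : G) ∈ (univ.filter fun g : G => (g : G ⧸ H) = ((1 : G) : G ⧸ H)) := by simp
      rw [h3] at h4
      simp at h4
    · have h3 := hfib ((1 : G) : G ⧸ H) 1 rfl
      rw [h2, zero_smul] at h3
      have h4 : a 1 = f y := by simp [a]
      rw [h4] at h3
      have h5 : z ≠ 0 := by
        intro hz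
        have h6 := hm 1
        rw [hz, map_zero, map_zero] at h6
        have h7 : m 1 = 0 := by exact_mod_cast h6.symm
        have h8 := (hodd 1).2 H.one_mem
        rw [h7] at h8
        simp at h8
      have h6 : ρZ 1 z = z := by simp
      rw [h6] at h3
      exact (smul_ne_zero hfy h5) h3
  · intro x
    have : (Tl.intertwiningMap_of_isIntertwiningMap ρU ρZ hTi) x = Tl x := rfl
    rw [this, hT]
    refine Submodule.sum_mem _ fun g _ => Submodule.smul_mem _ _ (Submodule.subset_span ⟨g, rfl⟩)

end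

end Pool.Agent.Helper310_Saxl
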