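import Mathlib
import Pool.Agent.Helper310_Saxl.Board

/-!
# Signed permutations and the modules `Q`

The modules `Q ι` are spaces of functions on `(ι → X) × Perm X`; inside them we use the vectors
`F v τ`, a model of `v ⊗ e_{τ 1} ∧ e_{τ 2} ∧ ...`.
-/

namespace Pool.Agent.Helper310_Saxl

open Equiv Finset

/-- Permutations act on sign vectors. -/
def act (X : Type*) : Perm X →* MulAut (X → ℤˣ) where
  toFun π :=
    { toFun := fun s i => s (π.symm i)
      invFun := fun s i => s (π i)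
      left_inv := fun s => by funext i; simp
      right_inv := fun s => by funext i; simp
      map_mul' := fun s t => rfl }
  map_one' := rfl
  map_mul' _ _ := rfl

/-- The group of signed permutations of the letters `X`; the element `(s, π)` maps the basis
vector `e_x` to `s (π x) • e_(π x)`. -/
abbrev W (X : Type*) := (X → ℤˣ) ⋊[act X] Perm X

instance (X : Type*) [Fintype X] [DecidableEq X] : Fintype (W X) :=
  Fintype.ofEquiv _ SemidirectProduct.equivProd.symm

lemma act_apply {X : Type*} (π : Perm X) (s : X → ℤˣ) (x : X) : act X π s x = s (π⁻¹ x) := rfl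

variable {X : Type*} [Fintype X] [DecidableEq X]

/-- the space of functions on `(ι → X) × Perm X` -/
abbrev QQ (X ι : Type*) := (ι → X) × Perm X → ℂ

/-- the action of the signed permutations on `QQ X ι` -/
def repQ (X ι : Type*) [Fintype ι] : Representation ℂ (W X) (QQ X ι) where
  toFun w :=
    { toFun := fun F p => (((∏ j, w.left (p.1 j) : ℤˣ) : ℤ) : ℂ) *
        F (fun j => w.right⁻¹ (p.1 j), w.right⁻¹ * p.2)
      map_add' := by intro F F'; funext p; simp [mul_add]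
      map_smul' := by intro c F; funext p; simp [mul_left_comm] }
  map_one' := by
    ext F p
    simp
  map_mul' := by
    intro w w'
    ext F p
    simp only [LinearMap.coe_mk, AddHom.coe_mk, Module.End.mul_apply, SemidirectProduct.mul_left,
      SemidirectProduct.mul_right, Pi.mul_apply, act_apply, Finset.prod_mul_distrib]
    push_cast
    rw [mul_assoc]
    congr 1

lemma repQ_apply {ι : Type*} [Fintype ι] (w : W X) (F : QQ X ι) (p : (ι → X) × Perm X) :
    repQ X ι w F p = (((∏ j, w.left (p.1 j) : ℤˣ) : ℤ) : ℂ) *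
      F (fun j => w.right⁻¹ (p.1 j), w.right⁻¹ * p.2) := rfl

/-- the left regular action on functions -/
def repV (X : Type*) : Representation ℂ (Perm X) (Perm X → ℂ) where
  toFun π :=
    { toFun := fun f g => f (π⁻¹ * g)
      map_add' := by intro F F'; rfl
      map_smul' := by intro c F; rfl }
  map_one' := by ext F p; simp
  map_mul' := by intro w w'; ext F p; simp [mul_assoc]

lemma repV_apply (π : Perm X) (f : Perm X → ℂ) (g : Perm X) : repV X π f g = f (π⁻¹ * g) := rfl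

/-- the vectors `v ⊗ e_{τ 1} ∧ e_{τ 2} ∧ ...` -/
def FF {ι : Type*} [Fintype ι] [DecidableEq ι] (τ : ι → X) : (Perm X → ℂ) →ₗ[ℂ] QQ X ι where
  toFun v p := (∑ σ : Perm ι, if p.1 = τ ∘ σ then (((Perm.sign σ : ℤˣ) : ℤ) : ℂ) else 0) * v p.2
  map_add' := by intro v v'; funext p; simp [mul_add]
  map_smul' := by intro c v; funext p; simp [mul_left_comm]

section FF

variable {ι : Type*} [Fintype ι] [DecidableEq ι]

lemma FF_apply (τ : ι → X) (v : Perm X → ℂ) (p : (ι → X) × Perm X) :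
    FF τ v p = (∑ σ : Perm ι, if p.1 = τ ∘ σ then (((Perm.sign σ : ℤˣ) : ℤ) : ℂ) else 0) *
      v p.2 := rfl

/-- the action of a signed permutation which preserves the image of `τ` -/
lemma repQ_FF (τ : ι → X) (w : W X) (σ0 : Perm ι) (h : ∀ j, w.right (τ j) = τ (σ0 j))
    (v : Perm X → ℂ) :
    repQ X ι w (FF τ v) = (((∏ j, w.left (τ j) : ℤˣ) : ℤ) : ℂ) •
      (((Perm.sign σ0 : ℤˣ) : ℤ) : ℂ) • FF τ (repV X w.right v) := by
  funext p
  rw [repQ_apply, Pi.smul_apply, Pi.smul_apply, FF_apply, FF_apply, repV_apply, smul_eq_mul,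
    smul_eq_mul]
  simp only
  have key : (((∏ j, w.left (p.1 j) : ℤˣ) : ℤ) : ℂ) *
      (∑ σ : Perm ι, if (fun j => w.right⁻¹ (p.1 j)) = τ ∘ σ then
        (((Perm.sign σ : ℤˣ) : ℤ) : ℂ) else 0) =
      (((∏ j, w.left (τ j) : ℤˣ) : ℤ) : ℂ) * ((((Perm.sign σ0 : ℤˣ) : ℤ) : ℂ) *
        ∑ σ : Perm ι, if p.1 = τ ∘ σ then (((Perm.sign σ : ℤˣ) : ℤ) : ℂ) else 0) := by
    rw [Finset.mul_sum, Finset.mul_sum, Finset.mul_sum]
    refine Fintype.sum_bijective (fun σ => σ0 * σ) (Group.mulLeft_bijective σ0) _ _ ?_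
    intro σ
    have hiff : ((fun j => w.right⁻¹ (p.1 j)) = τ ∘ σ) ↔ (p.1 = τ ∘ (σ0 * σ : Perm ι)) := by
      constructor
      · intro h1
        funext j
        have h2 := congrFun h1 j
        simp only [Function.comp_apply] at h2
        rw [Perm.inv_eq_iff_eq, h] at h2
        rw [h2]; rfl
      · intro h1
        funext j
        rw [h1]
        simp only [Function.comp_apply]
        rw [Perm.inv_eq_iff_eq, h]; rfl
    by_cases h1 : p.1 = τ ∘ (σ0 * σ : Perm ι)
    · rw [if_pos (hiff.2 h1), if_pos h1]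
      have h2 : ∏ j, w.left (p.1 j) = ∏ j, w.left (τ j) := by
        rw [h1]
        exact Fintype.prod_equiv (σ0 * σ) _ _ (fun j => rfl)
      rw [h2, Perm.sign_mul]
      have h3 : (((Perm.sign σ0 : ℤˣ) : ℤ) : ℂ) * (((Perm.sign σ0 : ℤˣ) : ℤ) : ℂ) = 1 := by
        rw [← Int.cast_mul, ← Units.val_mul, Int.units_mul_self]; simp
      rw [Units.val_mul, Int.cast_mul]
      linear_combination (-(((∏ j, w.left (τ j) : ℤˣ) : ℤ) : ℂ) *
        (((Perm.sign σ : ℤˣ) : ℤ) : ℂ)) * h3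
    · rw [if_neg (fun h2 => h1 (hiff.1 h2)), if_neg h1]; ring
  rw [← mul_assoc, key]
  ring

/-- the value at `(τ, g)` of a translate of `FF τ v` for `v` with integral values -/
lemma repQ_FF_val (τ : ι → X) (w : W X) (v : Perm X → ℤ) (g : Perm X) :
    repQ X ι w (FF τ (fun a => (v a : ℂ))) (τ, g) =
      (((((∏ j, w.left (τ j) : ℤˣ) : ℤ) *
        (∑ σ : Perm ι, if (fun j => w.right⁻¹ (τ j)) = τ ∘ σ then
          ((Perm.sign σ : ℤˣ) : ℤ) else 0) * v (w.right⁻¹ * g) : ℤ)) : ℂ) := by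
  rw [repQ_apply, FF_apply]
  push_cast
  ring

/-- the parity of the integer coefficient -/
lemma odd_coeff {τ : ι → X} (hτ : Function.Injective τ) (π : Perm X) :
    Odd (∑ σ : Perm ι, if (fun j => π⁻¹ (τ j)) = τ ∘ σ then ((Perm.sign σ : ℤˣ) : ℤ) else 0) ↔
      ∀ x, x ∈ Set.range τ → π x ∈ Set.range τ := by
  constructor
  · intro h
    have h1 : ∃ σ : Perm ι, (fun j => π⁻¹ (τ j)) = τ ∘ σ := by
      by_contra hcon
      push Not at hcon
      rw [Finset.sum_eq_zero (fun σ _ => if_neg (hcon σ))] at h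
      exact absurd h (by decide)
    obtain ⟨σ, hσ⟩ := h1
    rintro x ⟨j, rfl⟩
    refine ⟨σ⁻¹ j, ?_⟩
    have h2 := congrFun hσ (σ⁻¹ j)
    simp only [Function.comp_apply] at h2
    rw [perm_apply_inv, Perm.inv_eq_iff_eq] at h2
    exact h2
  · intro h
    have h1 : ∀ j, ∃ i, π (τ j) = τ i := fun j => by
      obtain ⟨i, hi⟩ := h (τ j) ⟨j, rfl⟩
      exact ⟨i, hi.symm⟩
    choose f hf using h1
    have hinj : Function.Injective f := by
      intro a b hab
      have := hf a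
      rw [hab, ← hf b] at this
      exact hτ (π.injective this)
    let σ0 : Perm ι := Equiv.ofBijective f (Finite.injective_iff_bijective.1 hinj)
    have hσ0 : ∀ j, π (τ j) = τ (σ0 j) := hf
    rw [Finset.sum_eq_single σ0⁻¹]
    · rw [if_pos]
      · rcases Int.units_eq_one_or (Perm.sign σ0⁻¹) with h1 | h1 <;> rw [h1] <;> decide
      · funext j
        simp only [Function.comp_apply]
        rw [Perm.inv_eq_iff_eq, hσ0, perm_apply_inv]
    · intro σ _ hne
      rw [if_neg]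
      intro h2
      apply hne
      have h3 : ∀ j, σ0 (σ j) = j := by
        intro j
        have := congrFun h2 j
        simp only [Function.comp_apply] at this
        rw [Perm.inv_eq_iff_eq, hσ0] at this
        exact (hτ this).symm
      refine Equiv.ext fun j => ?_
      rw [← h3 j, perm_inv_apply, h3 j]
    · intro h2; exact absurd (Finset.mem_univ _) h2

end FF

/-! ### The vectors `u` and `v_ξ` -/

namespace Board

variable (β : Board X)

/-- the vector `v_ξ = Σ ξ(r) r u` -/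
def vec (ξ : Perm X → ℤ) (g : Perm X) : ℤ := ∑ r ∈ univ.filter (· ∈ β.Sb), ξ r * β.f0 (r⁻¹ * g)

lemma vec_eq (ξ : Perm X → ℤ) (h g : Perm X) : β.vec ξ (h⁻¹ * g) = β.val ξ (g⁻¹ * h) := by
  unfold vec val
  rw [mul_inv_rev, inv_inv]

/-- the basic vector `u` -/
def uu (g : Perm X) : ℂ := (β.f0 g : ℂ)

lemma vec_eq_sum (ξ : Perm X → ℤ) :
    (fun g => (β.vec ξ g : ℂ)) =
      ∑ r ∈ univ.filter (· ∈ β.Sb), (ξ r : ℂ) • repV X r β.uu := by
  funext g
  rw [Finset.sum_apply]
  unfold vec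
  push_cast
  rfl

lemma repV_vec {Hs : Subgroup (Perm X)} (hHs : Hs ≤ β.Sb) (lam : Perm X → ℤˣ) (ξ : Perm X → ℤˣ)
    (hξ : ∀ h ∈ Hs, ∀ r, ξ (h * r) = lam h * ξ r) {h : Perm X} (hh : h ∈ Hs) :
    repV X h (fun g => (β.vec (fun r => ((ξ r : ℤˣ) : ℤ)) g : ℂ)) =
      (((lam h : ℤˣ) : ℤ) : ℂ) • fun g => (β.vec (fun r => ((ξ r : ℤˣ) : ℤ)) g : ℂ) := by
  funext g
  rw [repV_apply, Pi.smul_apply, smul_eq_mul]
  have : β.vec (fun r => ((ξ r : ℤˣ) : ℤ)) (h⁻¹ * g) =
      ((lam h : ℤˣ) : ℤ) * β.vec (fun r => ((ξ r : ℤˣ) : ℤ)) g := by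
    unfold vec
    rw [Finset.mul_sum]
    refine Finset.sum_bij (fun r _ => h * r) ?_ ?_ ?_ ?_
    · intro r hr
      rw [Finset.mem_filter] at hr ⊢
      exact ⟨Finset.mem_univ _, β.Sb.mul_mem (hHs hh) hr.2⟩
    · intro a _ b _ hab; exact mul_left_cancel hab
    · intro r hr
      rw [Finset.mem_filter] at hr
      exact ⟨h⁻¹ * r, Finset.mem_filter.2 ⟨Finset.mem_univ _,
        β.Sb.mul_mem (β.Sb.inv_mem (hHs hh)) hr.2⟩, by simp⟩
    · intro r _
      simp only [hξ h hh r]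
      rw [mul_inv_rev, mul_assoc r⁻¹]
      have h1 : ((lam h : ℤˣ) : ℤ) * ((lam h : ℤˣ) : ℤ) = 1 := by
        rw [← Units.val_mul, Int.units_mul_self, Units.val_one]
      push_cast
      linear_combination (-((ξ r : ℤˣ) : ℤ) * β.f0 (r⁻¹ * (h⁻¹ * g))) * h1
  rw [this]
  push_cast
  ring

end Board

/-- signs with prescribed behaviour under a subgroup -/
lemma exists_signs {G : Type*} [Group G] (Hs : Subgroup G) (lam : G → ℤˣ)
    (hmul : ∀ a ∈ Hs, ∀ b ∈ Hs, lam (a * b) = lam a * lam b) :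
    ∃ ξ : G → ℤˣ, ∀ h ∈ Hs, ∀ r, ξ (h * r) = lam h * ξ r := by
  refine ⟨fun r => lam (r * ((r⁻¹ : G) : G ⧸ Hs).out), ?_⟩
  intro h hh r
  have h1 : (((h * r)⁻¹ : G) : G ⧸ Hs) = ((r⁻¹ : G) : G ⧸ Hs) := by
    rw [QuotientGroup.eq]
    have : ((h * r)⁻¹)⁻¹ * r⁻¹ = h := by group
    rw [this]; exact hh
  have h2 : r * ((r⁻¹ : G) : G ⧸ Hs).out ∈ Hs := by
    have h3 : ((((r⁻¹ : G) : G ⧸ Hs).out : G) : G ⧸ Hs) = ((r⁻¹ : G) : G ⧸ Hs) :=
      QuotientGroup.out_eq' _
    rw [QuotientGroup.eq] at h3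
    have h4 := Hs.inv_mem h3
    rwa [mul_inv_rev, inv_inv, inv_inv] at h4
  simp only [h1]
  rw [mul_assoc, hmul h hh _ h2]

end Pool.Agent.Helper310_Saxl
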