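import Mathlib
import Pool.Agent.Helper310_Saxl.Odd
import Pool.Agent.Helper310_Saxl.Wrep

/-!
# The embedding theorem
-/

namespace Pool.Agent.Helper310_Saxl

open Equiv Finset Representation
open scoped TensorProduct

/-- A group of signed permutations of the letters `X` which contains all the permutations. -/
structure SGrp (X : Type*) (Γ : Type*) [Group Γ] where
  φ : Γ →* W X
  σ : Perm X →* Γ
  hσ : ∀ π, φ (σ π) = SemidirectProduct.inr π
  hinj : Function.Injective φ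

variable {X : Type*} [Fintype X] [DecidableEq X] {Γ : Type*} [Group Γ] [Fintype Γ]

/-- the representation of `Γ` on `QQ X ι` -/
abbrev SGrp.repG (S : SGrp X Γ) (ι : Type*) [Fintype ι] : Representation ℂ Γ (QQ X ι) :=
  (repQ X ι).comp S.φ

/-- the restriction of a representation to the permutations -/
abbrev SGrp.res (S : SGrp X Γ) {V : Type*} [AddCommGroup V] [Module ℂ V]
    (ρ : Representation ℂ Γ V) : Representation ℂ (Perm X) V := ρ.comp S.σ

omit [Fintype X] [DecidableEq X] [Fintype Γ] in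
lemma SGrp.φ_mul_inv (S : SGrp X Γ) (g : Γ) :
    (S.φ (g * (S.σ (S.φ g).right)⁻¹)).right = 1 ∧
      (S.φ (g * (S.σ (S.φ g).right)⁻¹)).left = (S.φ g).left := by
  rw [map_mul, map_inv, S.hσ, ← map_inv]
  constructor
  · rw [SemidirectProduct.mul_right, SemidirectProduct.right_inr, mul_inv_cancel]
  · rw [SemidirectProduct.mul_left, SemidirectProduct.left_inr, map_one, mul_one]

lemma prod_symmDiff {α : Type*} [DecidableEq α] (s : α → ℤˣ) (P B : Finset α) :
    (∏ x ∈ P, s x) * (∏ x ∈ symmDiff P B, s x) = ∏ x ∈ B, s x := by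
  have h1 : ∏ x ∈ P, s x = (∏ x ∈ P \ B, s x) * ∏ x ∈ P ∩ B, s x := by
    rw [← Finset.prod_union (Finset.disjoint_sdiff_inter P B), Finset.sdiff_union_inter]
  have h2 : ∏ x ∈ B, s x = (∏ x ∈ B \ P, s x) * ∏ x ∈ P ∩ B, s x := by
    rw [Finset.inter_comm, ← Finset.prod_union (Finset.disjoint_sdiff_inter B P),
      Finset.sdiff_union_inter]
  have h3 : ∏ x ∈ symmDiff P B, s x = (∏ x ∈ P \ B, s x) * ∏ x ∈ B \ P, s x := by
    rw [symmDiff_def, Finset.sup_eq_union, Finset.prod_union]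
    exact disjoint_sdiff_sdiff
  rw [h1, h2, h3]
  have h4 : (∏ x ∈ P \ B, s x) * (∏ x ∈ P \ B, s x) = 1 := Int.units_mul_self _
  calc _ = ((∏ x ∈ P \ B, s x) * (∏ x ∈ P \ B, s x)) * ((∏ x ∈ B \ P, s x) *
        ∏ x ∈ P ∩ B, s x) := by
        simp only [mul_assoc, mul_comm, mul_left_comm]
    _ = _ := by rw [h4, one_mul]

/-- the sign of the permutation induced on `P` -/
noncomputable def sgOn (P : Finset X) (π : Perm X) : ℤˣ := by
  classical
  exact if h : ∀ x, π x ∈ P ↔ x ∈ P then Perm.sign (π.subtypePerm h) else 1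

lemma sgOn_eq {P : Finset X} {π : Perm X} (h : ∀ x, π x ∈ P ↔ x ∈ P) :
    sgOn P π = Perm.sign (π.subtypePerm h) := by
  unfold sgOn; rw [dif_pos h]

lemma sgOn_mul {P : Finset X} {π π' : Perm X} (h : ∀ x, π x ∈ P ↔ x ∈ P)
    (h' : ∀ x, π' x ∈ P ↔ x ∈ P) : sgOn P (π * π') = sgOn P π * sgOn P π' := by
  have h2 : ∀ x, (π * π') x ∈ P ↔ x ∈ P := fun x => by rw [Perm.mul_apply, h, h']
  rw [sgOn_eq h, sgOn_eq h', sgOn_eq h2, ← Perm.sign_mul]
  rfl

/-- the inclusion of `P` -/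
abbrev incl (P : Finset X) : P → X := Subtype.val

lemma repQ_FF_incl (P : Finset X) (w : W X) (h : ∀ x, w.right x ∈ P ↔ x ∈ P)
    (v : Perm X → ℂ) :
    repQ X P w (FF (incl P) v) = (((∏ x ∈ P, w.left x : ℤˣ) : ℤ) : ℂ) •
      (((sgOn P w.right : ℤˣ) : ℤ) : ℂ) • FF (incl P) (repV X w.right v) := by
  rw [repQ_FF (incl P) w (w.right.subtypePerm h) (fun j => rfl), sgOn_eq h]
  congr 3
  exact Finset.prod_coe_sort P w.left

/-- the image of a preserved set -/
lemma preserve_iff {P : Finset X} {π : Perm X} (h : ∀ x ∈ P, π x ∈ P) (x : X) :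
    π x ∈ P ↔ x ∈ P := by
  constructor
  · intro hx
    have h1 : P.image π = P := by
      apply Finset.eq_of_subset_of_card_le
      · intro y hy
        obtain ⟨z, hz, rfl⟩ := Finset.mem_image.1 hy
        exact h z hz
      · rw [Finset.card_image_of_injective _ π.injective]
    rw [← h1, Finset.mem_image] at hx
    obtain ⟨z, hz, hzx⟩ := hx
    rwa [← π.injective hzx]
  · exact h x

lemma xor_aux {p p' b b' : Prop} (h8 : p' ↔ p)
    (h7 : (p' ∧ ¬b' ∨ b' ∧ ¬p') ↔ (p ∧ ¬b ∨ b ∧ ¬p)) : b' ↔ b := by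
  by_cases h1 : p <;> by_cases h2 : b <;> simp_all

theorem embed (β : Board X) (S : SGrp X Γ) {U : Type*} [AddCommGroup U] [Module ℂ U]
    (ρU : Representation ℂ Γ U) (B : Finset X) (y : U) (hy0 : y ≠ 0)
    (hT : ∀ g : Γ, (S.φ g).right = 1 →
      ρU g y = (((∏ x ∈ B, (S.φ g).left x : ℤˣ) : ℤ) : ℂ) • y)
    (hS : ∀ π ∈ β.Sb, (∀ x, π x ∈ B ↔ x ∈ B) → ρU (S.σ π) y = y ∨ ρU (S.σ π) y = -y) :
    ∃ (P1 P2 : Finset X) (v1 v2 : Perm X → ℂ),
      (∀ i : Bool, (if i then v1 else v2) ∈ Submodule.span ℂ (Set.range fun r => repV X r β.uu)) ∧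
      ∃ f : IntertwiningMap ρU ((S.repG P1).tprod (S.repG P2)), f ≠ 0 ∧
        ∀ x, f x ∈ Submodule.span ℂ (Set.range fun g =>
          ((S.repG P1).tprod (S.repG P2)) g (FF (incl P1) v1 ⊗ₜ[ℂ] FF (incl P2) v2)) := by
  classical
  obtain ⟨g1, hg1, hg1t⟩ := β.exists_refl
  set P1 : Finset X := univ.filter fun x => β.hf x = true with hP1
  set P2 : Finset X := symmDiff P1 B with hP2
  -- the subgroup
  let Hs : Subgroup (Perm X) :=
    { carrier := {π | π ∈ β.Sb ∧ ∀ x, π x ∈ B ↔ x ∈ B}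
      mul_mem' := by
        rintro a b ⟨ha, ha'⟩ ⟨hb, hb'⟩
        exact ⟨β.Sb.mul_mem ha hb, fun x => by rw [Perm.mul_apply, ha', hb']⟩
      one_mem' := ⟨β.Sb.one_mem, fun x => Iff.rfl⟩
      inv_mem' := by
        rintro a ⟨ha, ha'⟩
        exact ⟨β.Sb.inv_mem ha, fun x => by rw [← ha' (a⁻¹ x), perm_apply_inv]⟩ }
  have hHs : Hs ≤ β.Sb := fun π hπ => hπ.1
  have hB : ∀ π ∈ Hs, ∀ x, π x ∈ B ↔ x ∈ B := fun π hπ => hπ.2
  have hP1' : ∀ π ∈ Hs, ∀ x, π x ∈ P1 ↔ x ∈ P1 := by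
    intro π hπ x
    rw [hP1, Finset.mem_filter, Finset.mem_filter, (hHs hπ x).1]
    simp
  have hP2' : ∀ π ∈ Hs, ∀ x, π x ∈ P2 ↔ x ∈ P2 := by
    intro π hπ x
    rw [hP2, Finset.mem_symmDiff, Finset.mem_symmDiff, hP1' π hπ, hB π hπ]
  -- the signs on `y`
  let θ : Perm X → ℤˣ := fun π => if ρU (S.σ π) y = y then 1 else -1
  have hθ : ∀ π ∈ Hs, ρU (S.σ π) y = (((θ π : ℤˣ) : ℤ) : ℂ) • y := by
    intro π hπ
    by_cases h1 : ρU (S.σ π) y = y
    · have : θ π = 1 := if_pos h1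
      rw [this, h1]; simp
    · have : θ π = -1 := if_neg h1
      rw [this]
      rcases hS π hπ.1 hπ.2 with h2 | h2
      · exact absurd h2 h1
      · rw [h2]; simp
  have hθmul : ∀ a ∈ Hs, ∀ b ∈ Hs, θ (a * b) = θ a * θ b := by
    intro a ha b hb
    have h1 := hθ (a * b) (Hs.mul_mem ha hb)
    rw [map_mul, map_mul, Module.End.mul_apply, hθ b hb, map_smul, hθ a ha, smul_smul] at h1
    have h2 := smul_left_injective ℂ hy0 h1
    have h3 : ((θ (a * b) : ℤˣ) : ℤ) = ((θ a * θ b : ℤˣ) : ℤ) := by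
      rw [Units.val_mul, mul_comm]
      exact_mod_cast h2.symm
    exact Units.ext h3
  let lam : Perm X → ℤˣ := fun π => θ π * sgOn P1 π * sgOn P2 π
  have hlam : ∀ a ∈ Hs, ∀ b ∈ Hs, lam (a * b) = lam a * lam b := by
    intro a ha b hb
    simp only [lam]
    rw [hθmul a ha b hb, sgOn_mul (hP1' a ha) (hP1' b hb), sgOn_mul (hP2' a ha) (hP2' b hb)]
    simp only [mul_assoc, mul_comm, mul_left_comm]
  obtain ⟨ξ, hξ⟩ := exists_signs Hs lam hlam
  have hξ1 : ∀ h ∈ Hs, ∀ r : Perm X, (fun _ : Perm X => (1 : ℤˣ)) (h * r) =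
      (fun _ : Perm X => (1 : ℤˣ)) h * (fun _ : Perm X => (1 : ℤˣ)) r := by
    intro h _ r; simp
  set w1 : Perm X → ℤ := β.vec (fun r => (((fun _ : Perm X => (1 : ℤˣ)) r : ℤˣ) : ℤ)) with hw1
  set w2 : Perm X → ℤ := β.vec (fun r => ((ξ r : ℤˣ) : ℤ)) with hw2
  refine ⟨P1, P2, fun g => (w1 g : ℂ), fun g => (w2 g : ℂ), ?_, ?_⟩
  · have hspan : ∀ ζ : Perm X → ℤ, (fun g => (β.vec ζ g : ℂ)) ∈
        Submodule.span ℂ (Set.range fun r => repV X r β.uu) := by
      intro ζ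
      rw [β.vec_eq_sum]
      exact Submodule.sum_mem _ fun r _ => Submodule.smul_mem _ _ (Submodule.subset_span ⟨r, rfl⟩)
    intro i
    cases i
    · simp only [Bool.false_eq_true, if_false]; exact hspan _
    · simp only [if_true]; exact hspan _
  · -- the action of `H` on `z`
    let H : Subgroup Γ := Hs.comap (SemidirectProduct.rightHom.comp S.φ)
    have hHmem : ∀ g, g ∈ H ↔ (S.φ g).right ∈ Hs := fun g => Iff.rfl
    set z : QQ X P1 ⊗[ℂ] QQ X P2 :=
      FF (incl P1) (fun g => (w1 g : ℂ)) ⊗ₜ[ℂ] FF (incl P2) (fun g => (w2 g : ℂ)) with hz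
    let l : QQ X P1 ⊗[ℂ] QQ X P2 →ₗ[ℂ] ℂ :=
      TensorProduct.lift ((LinearMap.mul ℂ ℂ).compl₁₂
        (LinearMap.proj (R := ℂ) (φ := fun _ : (P1 → X) × Perm X => ℂ) (incl P1, g1))
        (LinearMap.proj (R := ℂ) (φ := fun _ : (P2 → X) × Perm X => ℂ) (incl P2, 1)))
    have hl : ∀ a b, l (a ⊗ₜ[ℂ] b) = a (incl P1, g1) * b (incl P2, 1) := by
      intro a b
      simp [l]
    let cf : (P : Finset X) → Perm X → ℤ := fun P π =>
      ∑ τ : Perm P, if (fun j => π⁻¹ (incl P j)) = incl P ∘ τ then ((Perm.sign τ : ℤˣ) : ℤ) else 0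
    let m : Γ → ℤ := fun g =>
      (((∏ j, (S.φ g).left (incl P1 j) : ℤˣ) : ℤ) * cf P1 (S.φ g).right *
        w1 ((S.φ g).right⁻¹ * g1)) *
      (((∏ j, (S.φ g).left (incl P2 j) : ℤˣ) : ℤ) * cf P2 (S.φ g).right *
        w2 ((S.φ g).right⁻¹ * 1))
    have hm : ∀ g, l (((S.repG P1).tprod (S.repG P2)) g z) = m g := by
      intro g
      rw [hz, Representation.tprod_apply, TensorProduct.map_tmul, hl]
      simp only [MonoidHom.comp_apply]
      rw [repQ_FF_val, repQ_FF_val]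
      simp only [m, cf]
      push_cast
      rfl
    have hcf : ∀ P π, Odd (cf P π) ↔ ∀ x ∈ P, π x ∈ P := by
      intro P π
      have := odd_coeff (τ := incl P) Subtype.val_injective π
      simp only [cf]
      rw [this]
      constructor
      · intro h x hx
        obtain ⟨j, hj⟩ := h x ⟨⟨x, hx⟩, rfl⟩
        rw [← hj]; exact j.2
      · rintro h x ⟨j, rfl⟩
        exact ⟨⟨_, h j j.2⟩, rfl⟩
    have hunit : ∀ u : ℤˣ, Odd (u : ℤ) := by
      intro u
      rcases Int.units_eq_one_or u with h | h <;> rw [h] <;> decide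
    have hodd : ∀ g, Odd (m g) ↔ g ∈ H := by
      intro g
      rw [hHmem]
      set π := (S.φ g).right with hπ
      simp only [m]
      rw [Int.odd_mul, Int.odd_mul, Int.odd_mul, Int.odd_mul, Int.odd_mul, hcf, hcf, ← hπ]
      rw [hw1, hw2, β.vec_eq, β.vec_eq, inv_one, one_mul]
      constructor
      · rintro ⟨⟨⟨_, h1⟩, h2⟩, ⟨⟨_, h3⟩, h4⟩⟩
        have h1' := preserve_iff h1
        have h3' := preserve_iff h3
        have h5 : ∀ x, β.hf (π x) = β.hf x := by
          intro x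
          have := h1' x
          rw [hP1, Finset.mem_filter, Finset.mem_filter] at this
          simp only [Finset.mem_univ, true_and] at this
          cases h6 : β.hf x
          · rw [h6] at this
            cases h7 : β.hf (π x)
            · rfl
            · exact absurd (this.1 h7) (by simp)
          · exact this.2 h6
        have h6 := (β.odd_iff hg1 hg1t _ _ (fun r => Or.inl (by simp))
          (fun r => by
            rcases Int.units_eq_one_or (ξ r) with h | h <;> simp [h]) h5).1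
            (Int.odd_mul.2 ⟨h2, h4⟩)
        refine ⟨h6, fun x => ?_⟩
        have h7 := h3' x
        have h8 := h1' x
        rw [hP2, Finset.mem_symmDiff, Finset.mem_symmDiff] at h7
        exact xor_aux h8 h7
      · intro h
        have h6 := (β.odd_iff hg1 hg1t (fun r => (((fun _ : Perm X => (1 : ℤˣ)) r : ℤˣ) : ℤ))
          (fun r => ((ξ r : ℤˣ) : ℤ)) (fun r => Or.inl (by simp))
          (fun r => by
            rcases Int.units_eq_one_or (ξ r) with h | h <;> simp [h])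
          (fun x => (h.1 x).1)).2 h.1
        rw [Int.odd_mul] at h6
        exact ⟨⟨⟨hunit _, fun x hx => (hP1' π h x).2 hx⟩, h6.1⟩,
          ⟨⟨hunit _, fun x hx => (hP2' π h x).2 hx⟩, h6.2⟩⟩
    have hH : ∀ h ∈ H, (((S.repG P1).tprod (S.repG P2)) h z = z ∧ ρU h y = y) ∨
        (((S.repG P1).tprod (S.repG P2)) h z = -z ∧ ρU h y = -y) := by
      intro h hh
      rw [hHmem] at hh
      set π := (S.φ h).right with hπ
      -- the action on `y`
      have e1 : ρU h y = (((∏ x ∈ B, (S.φ h).left x * 1 : ℤˣ) : ℤ) : ℂ) •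
          (((θ π : ℤˣ) : ℤ) : ℂ) • y := by
        have h1 : h = (h * (S.σ (S.φ h).right)⁻¹) * S.σ π := by
          rw [hπ, inv_mul_cancel_right]
        have h2 := S.φ_mul_inv h
        rw [h1, map_mul, Module.End.mul_apply, hθ π hh, map_smul, hT _ h2.1, h2.2, ← h1,
          smul_comm]
        simp only [mul_one]
      -- the action on `z`
      have e2 : ((S.repG P1).tprod (S.repG P2)) h z =
          (((∏ x ∈ B, (S.φ h).left x * 1 : ℤˣ) : ℤ) : ℂ) • (((θ π : ℤˣ) : ℤ) : ℂ) • z := by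
        rw [hz, Representation.tprod_apply, TensorProduct.map_tmul]
        simp only [MonoidHom.comp_apply]
        rw [repQ_FF_incl P1 (S.φ h) (hP1' π hh), repQ_FF_incl P2 (S.φ h) (hP2' π hh), ← hπ,
          hw1, hw2, β.repV_vec hHs _ _ hξ1 hh, β.repV_vec hHs lam ξ hξ hh, map_smul, map_smul]
        simp only [smul_smul, TensorProduct.smul_tmul_smul]
        congr 1
        have h3 := prod_symmDiff (S.φ h).left P1 B
        rw [← hP2] at h3
        simp only [mul_one]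
        rw [← h3]
        simp only [lam]
        have h4 : ((sgOn P1 π : ℤˣ) : ℤ) * ((sgOn P1 π : ℤˣ) : ℤ) = 1 := by
          rw [← Units.val_mul, Int.units_mul_self, Units.val_one]
        have h5 : ((sgOn P2 π : ℤˣ) : ℤ) * ((sgOn P2 π : ℤˣ) : ℤ) = 1 := by
          rw [← Units.val_mul, Int.units_mul_self, Units.val_one]
        have h4' : (((sgOn P1 π : ℤˣ) : ℤ) : ℂ) * (((sgOn P1 π : ℤˣ) : ℤ) : ℂ) = 1 := by
          exact_mod_cast h4
        have h5' : (((sgOn P2 π : ℤˣ) : ℤ) : ℂ) * (((sgOn P2 π : ℤˣ) : ℤ) : ℂ) = 1 := by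
          exact_mod_cast h5
        simp only [Units.val_mul, Int.cast_mul, Units.val_one, Int.cast_one]
        set A1 := (((∏ x ∈ P1, (S.φ h).left x : ℤˣ) : ℤ) : ℂ)
        set A2 := (((∏ x ∈ P2, (S.φ h).left x : ℤˣ) : ℤ) : ℂ)
        set S1 := (((sgOn P1 π : ℤˣ) : ℤ) : ℂ)
        set S2 := (((sgOn P2 π : ℤˣ) : ℤ) : ℂ)
        set T0 := (((θ π : ℤˣ) : ℤ) : ℂ)
        linear_combination (A1 * A2 * T0 * S2 * S2) * h4' + (A1 * A2 * T0) * h5'
      simp only [mul_one] at e1 e2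
      rw [smul_smul] at e1 e2
      have h7 : ∀ u : ℤˣ, (((u : ℤˣ) : ℤ) : ℂ) = 1 ∨ (((u : ℤˣ) : ℤ) : ℂ) = -1 := by
        intro u
        rcases Int.units_eq_one_or u with h | h <;> simp [h]
      rcases h7 (∏ x ∈ B, (S.φ h).left x) with h8 | h8 <;> rcases h7 (θ π) with h9 | h9 <;>
        rw [h8, h9] at e1 e2
      · left; rw [e1, e2]; simp
      · right; rw [e1, e2]; simp
      · right; rw [e1, e2]; simp
      · left; rw [e1, e2]; simp
    exact odd_lemma H _ ρU z y hy0 hH l m hm hodd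

end Pool.Agent.Helper310_Saxl
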