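import Mathlib
import Pool.Agent.Helper310_Saxl.Young

/-!
# Peeling

Let `N` be a nonzero subspace of a representation of `Perm X`, stable under the permutations of
`S`. If `|S| > (m-1)^2` and `A ⊆ S` has `m` elements, then `N` has a nonzero vector on which all
transpositions of `A` act by `1`, or a nonzero vector on which they all act by `-1`.
-/

namespace Pool.Agent.Helper310_Saxl

open Equiv Finset

variable {X : Type*} [Fintype X] [DecidableEq X]
variable {V : Type*} [AddCommGroup V] [Module ℂ V] (ρ : Representation ℂ (Perm X) V)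

/-- `v` is fixed by the Young subgroup of `D` on `S` -/
def FixedOn {ι : Type*} (S : Finset X) (D : X → ι) (v : V) : Prop :=
  ∀ x ∈ S, ∀ y ∈ S, D x = D y → ρ (swap x y) v = v

/-- moving the letter `x` to the fibre of `y0` -/
lemma raise_fixed {ι : Type*} [DecidableEq ι] {S : Finset X} {D : X → ι} {v : V}
    (h : FixedOn ρ S D v) {x y0 : X} (hx : x ∈ S) (hy0 : y0 ∈ S) (hne : D y0 ≠ D x) :
    FixedOn ρ S (Function.update D x (D y0))
      (v + ∑ y ∈ S.filter (fun y => D y = D y0), ρ (swap x y) v) := by
  set B := S.filter (fun y => D y = D y0) with hB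
  have hxB : x ∉ B := by
    rw [hB, Finset.mem_filter]
    rintro ⟨_, h1⟩
    exact hne h1.symm
  -- the case of a transposition involving `x`
  have hcase : ∀ q ∈ S, q ≠ x → D y0 = D q →
      ρ (swap x q) (v + ∑ y ∈ B, ρ (swap x y) v) = v + ∑ y ∈ B, ρ (swap x y) v := by
    intro q hq hqx hDq
    have hqB : q ∈ B := by rw [hB, Finset.mem_filter]; exact ⟨hq, hDq.symm⟩
    rw [← Finset.add_sum_erase B _ hqB]
    rw [map_add, map_add, rho_swap_swap, map_sum]
    have : ∀ y ∈ B.erase q, ρ (swap x q) (ρ (swap x y) v) = ρ (swap x y) v := by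
      intro y hy
      have hyq := (Finset.mem_erase.1 hy).1
      have hyB := (Finset.mem_erase.1 hy).2
      have hyS := (Finset.mem_filter.1 hyB).1
      have hyD := (Finset.mem_filter.1 hyB).2
      have hyx : y ≠ x := by rintro rfl; exact hxB hyB
      have e : swap x q * swap x y = swap x y * swap q y := by
        have h3 : swap x y * swap q y = swap (swap x y q) (swap x y y) * swap x y :=
          mul_swap_eq_swap_mul (swap x y) q y
        rw [h3, swap_apply_right, swap_apply_of_ne_of_ne hqx hyq.symm, swap_comm q x]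
      rw [← rho_mul, e, rho_mul, h q hq y hyS (by rw [← hDq, hyD])]
    rw [Finset.sum_congr rfl this]
    abel
  intro p hp q hq hpq
  by_cases hpx : p = x
  · by_cases hqx : q = x
    · rw [hpx, hqx]
      have e0 : (swap x x : Perm X) = 1 := swap_self x
      rw [e0, map_one]; rfl
    · rw [hpx, Function.update_self, Function.update_of_ne hqx] at hpq
      rw [hpx]
      exact hcase q hq hqx hpq
  · by_cases hqx : q = x
    · rw [hqx, Function.update_self, Function.update_of_ne hpx] at hpq
      rw [hqx, swap_comm p x]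
      exact hcase p hp hpx hpq.symm
    · rw [Function.update_of_ne hpx, Function.update_of_ne hqx] at hpq
      rw [map_add, h p hp q hq hpq, map_sum]
      congr 1
      have hswap : ∀ y, D (swap p q y) = D y := by
        intro y
        by_cases h1 : y = p
        · rw [h1, swap_apply_left, hpq]
        · by_cases h2 : y = q
          · rw [h2, swap_apply_right, hpq]
          · rw [swap_apply_of_ne_of_ne h1 h2]
      have hswapS : ∀ y ∈ S, swap p q y ∈ S := by
        intro y hy
        by_cases h1 : y = p
        · rw [h1, swap_apply_left]; exact hq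
        · by_cases h2 : y = q
          · rw [h2, swap_apply_right]; exact hp
          · rw [swap_apply_of_ne_of_ne h1 h2]; exact hy
      refine Finset.sum_bij (fun y _ => swap p q y) ?_ ?_ ?_ ?_
      · intro y hy
        rw [hB, Finset.mem_filter] at hy ⊢
        exact ⟨hswapS y hy.1, by rw [hswap, hy.2]⟩
      · intro a _ b _ hab; exact (swap p q).injective hab
      · intro y hy
        refine ⟨swap p q y, ?_, by simp⟩
        rw [hB, Finset.mem_filter] at hy ⊢
        exact ⟨hswapS y hy.1, by rw [hswap, hy.2]⟩
      · intro y hy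
        have e : swap p q * swap x y = swap x (swap p q y) * swap p q := by
          have h3 : swap p q * swap x y = swap (swap p q x) (swap p q y) * swap p q :=
            mul_swap_eq_swap_mul (swap p q) x y
          rw [h3, swap_apply_of_ne_of_ne (Ne.symm hpx) (Ne.symm hqx)]
        rw [← rho_mul, e, rho_mul, h p hp q hq hpq]

/-- the sum of the squares of the sizes of the fibres -/
def energy {ι : Type*} [Fintype ι] [DecidableEq ι] (S : Finset X) (D : X → ι) : ℕ :=
  ∑ l, (S.filter fun z => D z = l).card ^ 2

omit [Fintype X] in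
lemma energy_update {ι : Type*} [Fintype ι] [DecidableEq ι] {S : Finset X} {D : X → ι} {x : X}
    {a : ι} (hx : x ∈ S) (hne : a ≠ D x)
    (hle : (S.filter fun z => D z = D x).card ≤ (S.filter fun z => D z = a).card) :
    energy S D < energy S (Function.update D x a) := by
  have hcard : ∀ l, (((S.filter fun z => Function.update D x a z = l).card : ℤ)) =
      (S.filter fun z => D z = l).card + (if l = a then 1 else 0) - (if l = D x then 1 else 0) := by
    intro l
    rw [Finset.card_filter, Finset.card_filter]
    push_cast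
    rw [← Finset.add_sum_erase S _ hx, ← Finset.add_sum_erase S (fun z => if D z = l then (1 : ℤ) else 0) hx]
    have : ∀ z ∈ S.erase x, (if Function.update D x a z = l then (1 : ℤ) else 0) =
        if D z = l then 1 else 0 := by
      intro z hz
      rw [Function.update_of_ne (Finset.mem_erase.1 hz).1]
    rw [Finset.sum_congr rfl this, Function.update_self]
    have e1 : (if a = l then (1 : ℤ) else 0) = if l = a then 1 else 0 := by
      by_cases h : a = l
      · rw [if_pos h, if_pos h.symm]
      · rw [if_neg h, if_neg (Ne.symm h)]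
    have e2 : (if D x = l then (1 : ℤ) else 0) = if l = D x then 1 else 0 := by
      by_cases h : D x = l
      · rw [if_pos h, if_pos h.symm]
      · rw [if_neg h, if_neg (Ne.symm h)]
    rw [e1, e2]; ring
  have h1 : ((energy S (Function.update D x a) : ℕ) : ℤ) = (energy S D : ℤ)
      + 2 * (S.filter fun z => D z = a).card - 2 * (S.filter fun z => D z = D x).card + 2 := by
    unfold energy
    push_cast
    have : ∀ l, (((S.filter fun z => Function.update D x a z = l).card : ℤ)) ^ 2 =
        ((S.filter fun z => D z = l).card : ℤ) ^ 2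
        + (if l = a then 2 * ((S.filter fun z => D z = a).card : ℤ) + 1 else 0)
        + (if l = D x then 1 - 2 * ((S.filter fun z => D z = D x).card : ℤ) else 0) := by
      intro l
      rw [hcard l]
      by_cases h : l = a
      · rw [if_pos h, if_pos h, if_neg (by rw [h]; exact hne), if_neg (by rw [h]; exact hne), h]
        ring
      · by_cases h' : l = D x
        · rw [if_neg h, if_neg h, if_pos h', if_pos h', h']; ring
        · rw [if_neg h, if_neg h, if_neg h', if_neg h']; ring
    rw [Finset.sum_congr rfl (fun l _ => this l), Finset.sum_add_distrib, Finset.sum_add_distrib]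
    simp
    ring
  zify
  rw [h1]
  have : ((S.filter fun z => D z = D x).card : ℤ) ≤ (S.filter fun z => D z = a).card := by
    exact_mod_cast hle
  linarith

/-- a permutation of `S` which moves `A0` to `A` -/
lemma exists_move {S A0 A : Finset X} (h0 : A0 ⊆ S) (h1 : A ⊆ S) (hc : A0.card = A.card) :
    ∃ g ∈ supp S, ∀ x ∈ A, g⁻¹ x ∈ A0 := by
  obtain ⟨σ, hσ⟩ := Perm.exists_map_finset_eq (β := S) (A0.subtype (· ∈ S)) (A.subtype (· ∈ S))
    (by
      rw [Finset.card_subtype, Finset.card_subtype, Finset.filter_true_of_mem h0,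
        Finset.filter_true_of_mem h1, hc])
  refine ⟨Perm.ofSubtype σ, ?_, ?_⟩
  · rw [mem_supp]
    intro x hx
    exact Perm.ofSubtype_apply_of_not_mem σ hx
  · intro x hx
    have hxS := h1 hx
    have hmem : (⟨x, hxS⟩ : S) ∈ A.subtype (· ∈ S) := by rw [Finset.mem_subtype]; exact hx
    rw [← hσ, Finset.mem_map] at hmem
    obtain ⟨y, hy, hyx⟩ := hmem
    rw [Finset.mem_subtype] at hy
    have h2 : (Perm.ofSubtype σ) (y : X) = x := by
      rw [Perm.ofSubtype_apply_coe]
      have : σ y = ⟨x, hxS⟩ := hyx
      rw [this]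
    have h3 : (Perm.ofSubtype σ)⁻¹ x = y := by
      rw [Perm.inv_eq_iff_eq, h2]
    rw [h3]; exact hy

theorem peel_one (S : Finset X) (N : Submodule ℂ V) (hN : N ≠ ⊥)
    (hstab : ∀ g ∈ supp S, ∀ v ∈ N, ρ g v ∈ N) (A : Finset X) (hA : A ⊆ S)
    (hcard : A.card ≤ 1 ∨ (A.card - 1) ^ 2 < S.card) :
    ∃ v ∈ N, v ≠ 0 ∧ ((∀ x ∈ A, ∀ y ∈ A, x ≠ y → ρ (swap x y) v = v) ∨
      (∀ x ∈ A, ∀ y ∈ A, x ≠ y → ρ (swap x y) v = -v)) := by
  classical
  obtain ⟨w0, hw0N, hw0⟩ := Submodule.exists_mem_ne_zero_of_ne_bot hN
  by_cases hm : A.card ≤ 1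
  · refine ⟨w0, hw0N, hw0, Or.inl ?_⟩
    intro x hx y hy hxy
    exact absurd (Finset.card_le_one.1 hm x hx y hy) hxy
  have hcard' := hcard.resolve_left hm
  -- it suffices to have the vector for one subset of the right size
  suffices hsuff : ∃ A0 ⊆ S, A0.card = A.card ∧ ∃ v ∈ N, v ≠ 0 ∧
      ((∀ x ∈ A0, ∀ y ∈ A0, x ≠ y → ρ (swap x y) v = v) ∨
      (∀ x ∈ A0, ∀ y ∈ A0, x ≠ y → ρ (swap x y) v = -v)) by
    obtain ⟨A0, hA0, hc, v, hvN, hv0, hv⟩ := hsuff
    obtain ⟨g, hg, hgA⟩ := exists_move hA0 hA hc
    refine ⟨ρ g v, hstab g hg v hvN, ?_, ?_⟩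
    · intro h0
      apply hv0
      have := congrArg (ρ g⁻¹) h0
      rw [← rho_mul, inv_mul_cancel, map_one, map_zero] at this
      exact this
    · have key : ∀ x y, ρ (swap x y) (ρ g v) = ρ g (ρ (swap (g⁻¹ x) (g⁻¹ y)) v) := by
        intro x y
        rw [← rho_mul, ← rho_mul, swap_mul_eq_mul_swap]
      rcases hv with hv | hv
      · left
        intro x hx y hy hxy
        rw [key, hv _ (hgA x hx) _ (hgA y hy) (fun h => hxy (g⁻¹.injective h))]
      · right
        intro x hx y hy hxy
        rw [key, hv _ (hgA x hx) _ (hgA y hy) (fun h => hxy (g⁻¹.injective h)), map_neg]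
  -- maximise the energy
  let 𝒟 : Finset (X → X) := univ.filter fun D => ∃ v ∈ N, v ≠ 0 ∧ FixedOn ρ S D v
  have h𝒟 : 𝒟.Nonempty := by
    refine ⟨id, ?_⟩
    rw [Finset.mem_filter]
    refine ⟨Finset.mem_univ _, w0, hw0N, hw0, ?_⟩
    intro x _ y _ hxy
    have hxy' : x = y := hxy
    rw [hxy']
    have e0 : (swap y y : Perm X) = 1 := swap_self y
    rw [e0, map_one]; rfl
  obtain ⟨D, hD, hmax⟩ := Finset.exists_max_image 𝒟 (energy S) h𝒟
  rw [Finset.mem_filter] at hD
  obtain ⟨_, v, hvN, hv0, hfix⟩ := hD
  -- the raising relations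
  have hraise : ∀ x ∈ S, ∀ y0 ∈ S, D y0 ≠ D x →
      (S.filter fun z => D z = D x).card ≤ (S.filter fun z => D z = D y0).card →
      v + ∑ y ∈ S.filter (fun y => D y = D y0), ρ (swap x y) v = 0 := by
    intro x hx y0 hy0 hne hle
    by_contra hcon
    have h1 := raise_fixed ρ hfix hx hy0 hne
    have h2 : Function.update D x (D y0) ∈ 𝒟 := by
      rw [Finset.mem_filter]
      refine ⟨Finset.mem_univ _, _, ?_, hcon, h1⟩
      refine N.add_mem hvN (Submodule.sum_mem _ fun y hy => hstab _ ?_ v hvN)
      exact supp_swap hx (Finset.mem_filter.1 hy).1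
    have h3 := hmax _ h2
    have h4 := energy_update hx hne hle
    omega
  by_cases hbig : ∃ l, A.card ≤ (S.filter fun z => D z = l).card
  · obtain ⟨l, hl⟩ := hbig
    obtain ⟨A0, hA0, hA0c⟩ := Finset.exists_subset_card_eq hl
    refine ⟨A0, fun x hx => (Finset.mem_filter.1 (hA0 hx)).1, hA0c, v, hvN, hv0, Or.inl ?_⟩
    intro x hx y hy _
    have hx' := Finset.mem_filter.1 (hA0 hx)
    have hy' := Finset.mem_filter.1 (hA0 hy)
    exact hfix x hx'.1 y hy'.1 (by rw [hx'.2, hy'.2])
  · push Not at hbig
    -- many fibres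
    have hmany : A.card ≤ (S.image D).card := by
      have h1 : S.card ≤ (S.image D).card * (A.card - 1) := by
        have := Finset.card_le_mul_card_image_of_maps_to (f := D) (s := S) (t := S.image D)
          (fun x hx => Finset.mem_image_of_mem D hx) (A.card - 1) (fun l _ => by
            have := hbig l
            omega)
        rw [mul_comm]
        exact this
      by_contra hcon
      push Not at hcon
      have h2 : (S.image D).card ≤ A.card - 1 := by omega
      have h3 : (S.image D).card * (A.card - 1) ≤ (A.card - 1) * (A.card - 1) :=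
        Nat.mul_le_mul_right _ h2
      rw [pow_two] at hcard'
      omega
    obtain ⟨L, hL, hLc⟩ := Finset.exists_subset_card_eq hmany
    -- representatives
    have hpre : ∀ l : X, ∃ x : X, l ∈ S.image D → x ∈ S ∧ D x = l := by
      intro l
      by_cases hl : l ∈ S.image D
      · obtain ⟨x, hx, hxl⟩ := Finset.mem_image.1 hl
        exact ⟨x, fun _ => ⟨hx, hxl⟩⟩
      · exact ⟨l, fun h => absurd h hl⟩
    choose pre hpre using hpre
    have hCD : ∀ l ∈ L, D (pre l) = l := fun l hl => (hpre l (hL hl)).2
    have hCS : L.image pre ⊆ S := by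
      intro x hx
      obtain ⟨l, hl, rfl⟩ := Finset.mem_image.1 hx
      exact (hpre l (hL hl)).1
    have hpreinj : Set.InjOn pre (L : Set X) := by
      intro a ha b hb hab
      have := congrArg D hab
      rwa [hCD a ha, hCD b hb] at this
    have hDinj : Set.InjOn D (L.image pre : Set X) := by
      intro x hx y hy hxy
      rw [Finset.coe_image] at hx hy
      obtain ⟨a, ha, rfl⟩ := hx
      obtain ⟨b, hb, rfl⟩ := hy
      rw [hCD a ha, hCD b hb] at hxy
      rw [hxy]
    -- ranks of the labels
    let n := Fintype.card X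
    let sz : X → ℕ := fun l => (S.filter fun z => D z = l).card
    have hsz : ∀ l, sz l ≤ n := fun l => Finset.card_le_univ _
    let idx : X → ℕ := fun l => (Fintype.equivFin X l : ℕ)
    have hidx : ∀ l, idx l < n := fun l => (Fintype.equivFin X l).2
    let rank : X → ℕ := fun l => (n - sz l) * n + idx l
    have hrank1 : ∀ a b, rank a < rank b → sz b ≤ sz a := by
      intro a b hab
      by_contra hcon
      push Not at hcon
      have h1 : n - sz b + 1 ≤ n - sz a := by
        have := hsz b
        omega
      have h2 : (n - sz b + 1) * n ≤ (n - sz a) * n := Nat.mul_le_mul_right _ h1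
      have h3 := hidx b
      simp only [rank] at hab
      rw [add_mul, one_mul] at h2
      omega
    have hrank2 : ∀ a b, rank a = rank b → a = b := by
      intro a b hab
      have h1 : rank a % n = idx a := by
        simp only [rank]
        rw [Nat.mul_add_mod_self_right, Nat.mod_eq_of_lt (hidx a)]
      have h2 : rank b % n = idx b := by
        simp only [rank]
        rw [Nat.mul_add_mod_self_right, Nat.mod_eq_of_lt (hidx b)]
      have h3 : idx a = idx b := by rw [← h1, ← h2, hab]
      exact (Fintype.equivFin X).injective (Fin.ext h3)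
    have hHW : HW ρ S (fun x => rank (D x)) v := by
      refine ⟨?_, ?_⟩
      · intro x hx y hy hxy
        exact hfix x hx y hy (hrank2 _ _ hxy)
      · intro x hx y0 hy0 hlt
        have h1 : S.filter (fun y => rank (D y) = rank (D y0)) = S.filter (fun y => D y = D y0) := by
          ext z
          simp only [Finset.mem_filter]
          constructor
          · rintro ⟨h2, h3⟩; exact ⟨h2, hrank2 _ _ h3⟩
          · rintro ⟨h2, h3⟩; exact ⟨h2, by rw [h3]⟩
        rw [h1]
        refine hraise x hx y0 hy0 ?_ (hrank1 _ _ hlt)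
        intro h2
        have hlt' : rank (D y0) < rank (D x) := hlt
        rw [h2] at hlt'
        exact lt_irrefl _ hlt'
    have hasym := hHW.asym_ne_zero ρ hv0 (L.image pre) hCS (by
      intro x hx y hy hxy
      exact hDinj hx hy (hrank2 _ _ hxy))
    refine ⟨L.image pre, hCS, ?_, asym ρ (L.image pre) v, ?_, hasym, Or.inr ?_⟩
    · rw [Finset.card_image_of_injOn hpreinj, hLc]
    · rw [asym_apply]
      exact Submodule.sum_mem _ fun g hg =>
        Submodule.smul_mem _ _ (hstab g (supp_mono hCS hg) v hvN)
    · intro x hx y hy hxy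
      exact asym_swap_left ρ hx hy hxy v

lemma sum_stair (j n : ℕ) :
    2 * ∑ m ∈ Finset.range (n + 1), (if 1 ≤ m ∧ m ≤ j then m else 0) =
      min n j * (min n j + 1) := by
  induction n with
  | zero => simp
  | succ n ih =>
    rw [Finset.sum_range_succ, mul_add, ih]
    by_cases h : n + 1 ≤ j
    · rw [if_pos ⟨by omega, h⟩, min_eq_left h, min_eq_left (by omega : n ≤ j)]
      ring
    · rw [if_neg (by omega), min_eq_right (by omega : j ≤ n + 1),
        min_eq_right (by omega : j ≤ n)]
      ring

omit [Fintype X] in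
/-- the size of a set with blocks of sizes `(h, m)`, `1 ≤ m ≤ K h` -/
lemma card_blocks (K : Bool → ℕ) (S : Finset X) (b : X → Bool × ℕ)
    (hb : ∀ h m, (S.filter fun x => b x = (h, m)).card = if 1 ≤ m ∧ m ≤ K h then m else 0) :
    2 * S.card = K true * (K true + 1) + K false * (K false + 1) := by
  have hmaps : Set.MapsTo b (S : Set X)
      ((Finset.univ : Finset Bool) ×ˢ Finset.range (K true + K false + 1) :
        Finset (Bool × ℕ)) := by
    intro x hx
    have h2 : x ∈ S.filter fun z => b z = ((b x).1, (b x).2) := by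
      rw [Finset.mem_filter]; exact ⟨hx, rfl⟩
    have h3 := Finset.card_pos.2 ⟨x, h2⟩
    rw [hb] at h3
    have h4 : 1 ≤ (b x).2 ∧ (b x).2 ≤ K (b x).1 := by
      by_contra hcon
      rw [if_neg hcon] at h3
      omega
    rw [Finset.coe_product, Set.mem_prod]
    refine ⟨by simp, ?_⟩
    rw [Finset.mem_coe, Finset.mem_range]
    have h5 : K (b x).1 ≤ K true + K false := by
      cases (b x).1 <;> omega
    omega
  rw [Finset.card_eq_sum_card_fiberwise hmaps, Finset.sum_product]
  have h6 : ∀ h : Bool, ∀ m ∈ Finset.range (K true + K false + 1),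
      (S.filter fun a => b a = (h, m)).card = if 1 ≤ m ∧ m ≤ K h then m else 0 :=
    fun h m _ => hb h m
  simp only [Fintype.sum_bool, mul_add]
  rw [Finset.sum_congr rfl (h6 true), Finset.sum_congr rfl (h6 false), sum_stair, sum_stair,
    min_eq_right (by omega), min_eq_right (by omega)]
  ring

/-- Peeling of all blocks. `b` is a block function on `S` with the values `(h, m)`, and
`(h, m)` is taken `m` times for `1 ≤ m ≤ K h`. -/
theorem peel_all (K : Bool → ℕ) (hK : K true ≤ K false + 1 ∧ K false ≤ K true + 1)
    (S : Finset X) (b : X → Bool × ℕ)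
    (hb : ∀ h m, (S.filter fun x => b x = (h, m)).card = if 1 ≤ m ∧ m ≤ K h then m else 0)
    (N : Submodule ℂ V) (hN : N ≠ ⊥) (hstab : ∀ g ∈ supp S, ∀ v ∈ N, ρ g v ∈ N) :
    ∃ v ∈ N, v ≠ 0 ∧ ∃ θ : Bool × ℕ → ℂ, (∀ p, θ p = 1 ∨ θ p = -1) ∧
      ∀ x ∈ S, ∀ y ∈ S, x ≠ y → b x = b y → ρ (swap x y) v = θ (b x) • v := by
  classical
  induction hn : K true + K false using Nat.strong_induction_on generalizing K S N with
  | _ n ih =>
    by_cases hn0 : n = 0
    · obtain ⟨w0, hw0N, hw0⟩ := Submodule.exists_mem_ne_zero_of_ne_bot hN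
      refine ⟨w0, hw0N, hw0, fun _ => 1, fun _ => Or.inl rfl, ?_⟩
      intro x hx
      exfalso
      have h1 := hb (b x).1 (b x).2
      have h2 : x ∈ S.filter fun z => b z = ((b x).1, (b x).2) := by
        rw [Finset.mem_filter]; exact ⟨hx, rfl⟩
      have h3 : K (b x).1 = 0 := by
        cases (b x).1 <;> omega
      rw [h3, if_neg (by omega), Finset.card_eq_zero] at h1
      rw [h1] at h2
      simp at h2
    · -- the larger side
      obtain ⟨h, hh1, hh2⟩ : ∃ h : Bool, K (!h) ≤ K h ∧ 1 ≤ K h := by
        rcases le_total (K true) (K false) with h1 | h1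
        · exact ⟨false, h1, by omega⟩
        · exact ⟨true, h1, by omega⟩
      have hh3 : K h ≤ K (!h) + 1 := by
        cases h
        · exact hK.2
        · exact hK.1
      set A := S.filter (fun x => b x = (h, K h)) with hA
      have hAc : A.card = K h := by
        rw [hA, hb, if_pos ⟨hh2, le_refl _⟩]
      have hAS : A ⊆ S := Finset.filter_subset _ _
      have hScard : 2 * S.card = K h * (K h + 1) + K (!h) * (K (!h) + 1) := by
        rw [card_blocks K S b hb]
        cases h
        · simp only [Bool.not_false]; ring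
        · simp only [Bool.not_true]
      have hlt : (A.card - 1) ^ 2 < S.card := by
        rw [hAc]
        obtain ⟨j, hj⟩ : ∃ j, K h = j + 1 := ⟨K h - 1, by omega⟩
        rw [hj] at hScard hh3 ⊢
        rw [Nat.add_sub_cancel]
        have h7 : j * (j + 1) ≤ K (!h) * (K (!h) + 1) :=
          Nat.mul_le_mul (by omega) (by omega)
        nlinarith
      obtain ⟨v, hvN, hv0, hv⟩ := peel_one ρ S N hN hstab A hAS (Or.inr hlt)
      -- the sign on `A`
      obtain ⟨ε, hε, hvε⟩ : ∃ ε : ℂ, (ε = 1 ∨ ε = -1) ∧
          ∀ x ∈ A, ∀ y ∈ A, x ≠ y → ρ (swap x y) v = ε • v := by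
        rcases hv with hv | hv
        · exact ⟨1, Or.inl rfl, fun x hx y hy hxy => by rw [hv x hx y hy hxy, one_smul]⟩
        · exact ⟨-1, Or.inr rfl, fun x hx y hy hxy => by rw [hv x hx y hy hxy]; simp⟩
      let N' : Submodule ℂ V :=
        { carrier := {w | w ∈ N ∧ ∀ x ∈ A, ∀ y ∈ A, x ≠ y → ρ (swap x y) w = ε • w}
          add_mem' := by
            rintro a c ⟨ha1, ha2⟩ ⟨hc1, hc2⟩
            refine ⟨N.add_mem ha1 hc1, fun x hx y hy hxy => ?_⟩
            rw [map_add, ha2 x hx y hy hxy, hc2 x hx y hy hxy, smul_add]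
          zero_mem' := ⟨N.zero_mem, fun x hx y hy hxy => by simp⟩
          smul_mem' := by
            rintro c a ⟨ha1, ha2⟩
            refine ⟨N.smul_mem c ha1, fun x hx y hy hxy => ?_⟩
            rw [map_smul, ha2 x hx y hy hxy, smul_comm] }
      have hN' : N' ≠ ⊥ := by
        intro h0
        have : v ∈ N' := ⟨hvN, hvε⟩
        rw [h0, Submodule.mem_bot] at this
        exact hv0 this
      have hstab' : ∀ g ∈ supp (S \ A), ∀ w ∈ N', ρ g w ∈ N' := by
        rintro g hg w ⟨hw1, hw2⟩
        refine ⟨hstab g (supp_mono Finset.sdiff_subset hg) w hw1, fun x hx y hy hxy => ?_⟩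
        have e : swap x y * g = g * swap x y := by
          rw [mul_swap_eq_swap_mul]
          rw [mem_supp] at hg
          rw [hg x (by simp [hx]), hg y (by simp [hy])]
        rw [← rho_mul, e, rho_mul, hw2 x hx y hy hxy, map_smul]
      -- the new sizes
      let K' : Bool → ℕ := Function.update K h (K h - 1)
      have hK'h : K' h = K h - 1 := Function.update_self _ _ _
      have hK'n : K' (!h) = K (!h) := Function.update_of_ne (by cases h <;> simp) _ _
      have hK' : K' true ≤ K' false + 1 ∧ K' false ≤ K' true + 1 := by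
        cases h
        · simp only [Bool.not_false] at hK'n hh1 hh3
          rw [hK'h, hK'n]; omega
        · simp only [Bool.not_true] at hK'n hh1 hh3
          rw [hK'h, hK'n]; omega
      have hsum' : K' true + K' false < n := by
        cases h
        · simp only [Bool.not_false] at hK'n
          rw [hK'h, hK'n]; omega
        · simp only [Bool.not_true] at hK'n
          rw [hK'h, hK'n]; omega
      have hb' : ∀ h' m, ((S \ A).filter fun x => b x = (h', m)).card =
          if 1 ≤ m ∧ m ≤ K' h' then m else 0 := by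
        intro h' m
        by_cases hcase : h' = h ∧ m = K h
        · obtain ⟨h1, h2⟩ := hcase
          rw [h1, h2, hK'h, if_neg (by omega), Finset.card_eq_zero, Finset.filter_eq_empty_iff]
          intro x hx hbx
          rw [Finset.mem_sdiff] at hx
          exact hx.2 (Finset.mem_filter.2 ⟨hx.1, hbx⟩)
        · have h1 : (S \ A).filter (fun x => b x = (h', m)) =
              S.filter (fun x => b x = (h', m)) := by
            ext x
            simp only [Finset.mem_filter, Finset.mem_sdiff, hA]
            constructor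
            · rintro ⟨⟨h2, _⟩, h3⟩; exact ⟨h2, h3⟩
            · rintro ⟨h2, h3⟩
              refine ⟨⟨h2, ?_⟩, h3⟩
              rintro ⟨_, h4⟩
              rw [h3, Prod.mk.injEq] at h4
              exact hcase h4
          rw [h1, hb]
          by_cases h2 : h' = h
          · rw [h2, hK'h]
            have h3 : m ≠ K h := fun h3 => hcase ⟨h2, h3⟩
            by_cases h4 : 1 ≤ m ∧ m ≤ K h
            · rw [if_pos h4, if_pos ⟨h4.1, by omega⟩]
            · rw [if_neg h4, if_neg (by omega)]
          · have h3 : K' h' = K h' := Function.update_of_ne h2 _ _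
            rw [h3]
      obtain ⟨w, ⟨hwN, hwA⟩, hw0, θ, hθ, hw⟩ :=
        ih _ hsum' K' hK' (S \ A) hb' N' hN' hstab' rfl
      refine ⟨w, hwN, hw0, Function.update θ (h, K h) ε, ?_, ?_⟩
      · intro p
        by_cases hp : p = (h, K h)
        · rw [hp, Function.update_self]; exact hε
        · rw [Function.update_of_ne hp]; exact hθ p
      · intro x hx y hy hxy hbxy
        by_cases hxA : b x = (h, K h)
        · rw [hxA, Function.update_self]
          exact hwA x (Finset.mem_filter.2 ⟨hx, hxA⟩) y
            (Finset.mem_filter.2 ⟨hy, by rw [← hbxy, hxA]⟩) hxy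
        · rw [Function.update_of_ne hxA]
          refine hw x ?_ y ?_ hxy hbxy
          · rw [Finset.mem_sdiff]
            exact ⟨hx, fun h1 => hxA (Finset.mem_filter.1 h1).2⟩
          · rw [Finset.mem_sdiff]
            exact ⟨hy, fun h1 => hxA (by rw [hbxy]; exact (Finset.mem_filter.1 h1).2)⟩

end Pool.Agent.Helper310_Saxl
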