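import Mathlib
import Pool.Agent.Helper310_Saxl.Peel
import Pool.Agent.Helper310_Saxl.Embed

/-!
# Labels of the constituents
-/

namespace Pool.Agent.Helper310_Saxl

open Equiv Finset Representation

/-! ### Column functions -/

/-- an enumeration of every fibre of `D` on `S` -/
lemma exists_colfn {X : Type*} [DecidableEq X] (S : Finset X) (D : X → ℕ) :
    ∃ c : X → ℕ, (∀ x ∈ S, ∀ y ∈ S, D x = D y → c x = c y → x = y) ∧
      ∀ d j, (∃ y ∈ S, D y = d ∧ c y = j) ↔ j < (S.filter fun y => D y = d).card := by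
  classical
  let e : ∀ d, (S.filter fun y => D y = d) ≃ Fin (S.filter fun y => D y = d).card :=
    fun d => Finset.equivFin _
  let c : X → ℕ := fun x => if h : x ∈ S then
    (e (D x) ⟨x, Finset.mem_filter.2 ⟨h, rfl⟩⟩ : ℕ) else 0
  have hc : ∀ d x (hx : x ∈ S.filter fun y => D y = d), c x = (e d ⟨x, hx⟩ : ℕ) := by
    intro d x hx
    have hx' := Finset.mem_filter.1 hx
    obtain ⟨h1, h2⟩ := hx'
    subst h2
    simp only [c]
    rw [dif_pos h1]
  refine ⟨c, ?_, ?_⟩
  · intro x hx y hy hD hcxy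
    have hx' : x ∈ S.filter fun z => D z = D y := Finset.mem_filter.2 ⟨hx, hD⟩
    have hy' : y ∈ S.filter fun z => D z = D y := Finset.mem_filter.2 ⟨hy, rfl⟩
    rw [hc _ x hx', hc _ y hy'] at hcxy
    have := (e (D y)).injective (Fin.ext hcxy)
    exact congrArg Subtype.val this
  · intro d j
    constructor
    · rintro ⟨y, hy, hD, hcy⟩
      have hy' : y ∈ S.filter fun z => D z = d := Finset.mem_filter.2 ⟨hy, hD⟩
      rw [← hcy, hc _ y hy']
      exact (e d ⟨y, hy'⟩).2
    · intro hj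
      refine ⟨((e d).symm ⟨j, hj⟩ : X), ?_, ?_, ?_⟩
      · exact (Finset.mem_filter.1 ((e d).symm ⟨j, hj⟩).2).1
      · exact (Finset.mem_filter.1 ((e d).symm ⟨j, hj⟩).2).2
      · rw [hc d _ ((e d).symm ⟨j, hj⟩).2]
        simp

variable {X : Type*} [Fintype X] [DecidableEq X] {Γ : Type*} [Group Γ]

/-! ### Properties of the vector `u` -/

namespace Board

variable (β : Board X)

/-- the transformation behaviour on the right under the column stabiliser -/
def IsAnti (f : Perm X → ℂ) : Prop :=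
  ∀ c ∈ β.SC, ∀ a, f (a * c) = (((Perm.sign c : ℤˣ) : ℤ) : ℂ) * f a

lemma isAnti_uu : β.IsAnti β.uu := by
  intro c hc a
  unfold uu
  rw [β.f0_right hc]
  push_cast; rfl

lemma isAnti_repV {f : Perm X → ℂ} (h : β.IsAnti f) (g : Perm X) : β.IsAnti (repV X g f) := by
  intro c hc a
  rw [repV_apply, repV_apply, ← mul_assoc, h c hc]

lemma isAnti_add {f f' : Perm X → ℂ} (h : β.IsAnti f) (h' : β.IsAnti f') : β.IsAnti (f + f') := by
  intro c hc a
  rw [Pi.add_apply, Pi.add_apply, h c hc, h' c hc, mul_add]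

lemma isAnti_sum {ι : Type*} (s : Finset ι) (f : ι → Perm X → ℂ) (h : ∀ i ∈ s, β.IsAnti (f i)) :
    β.IsAnti (∑ i ∈ s, f i) := by
  intro c hc a
  rw [Finset.sum_apply, Finset.sum_apply, Finset.mul_sum]
  exact Finset.sum_congr rfl fun i hi => h i hi c hc a

/-- if no translate of `D` is transversal to the columns there is no fixed vector -/
lemma vanish {ι : Type*} {f : Perm X → ℂ} (h : β.IsAnti f) {D : X → ι}
    (hf : FixedOn (repV X) univ D f)
    (hD : ∀ a : Perm X, ∃ y z, y ≠ z ∧ D y = D z ∧ β.C (a⁻¹ y) = β.C (a⁻¹ z)) : f = 0 := by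
  funext a
  obtain ⟨y, z, hyz, h1, h2⟩ := hD a
  have h3 := congrFun (hf y (Finset.mem_univ _) z (Finset.mem_univ _) h1) a
  rw [repV_apply, swap_inv] at h3
  have h4 : swap (a⁻¹ y) (a⁻¹ z) ∈ β.SC := by
    rw [mem_SC]
    intro w
    by_cases h5 : w = a⁻¹ y
    · rw [h5, swap_apply_left, h2]
    · by_cases h6 : w = a⁻¹ z
      · rw [h6, swap_apply_right, h2]
      · rw [swap_apply_of_ne_of_ne h5 h6]
  have h5 := h _ h4 a
  rw [← swap_mul_eq_mul_swap, h3, Perm.sign_swap (fun h => hyz (a⁻¹.injective h))] at h5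
  have h6 : (2 : ℂ) * f a = 0 := by
    rw [two_mul]
    nth_rewrite 1 [h5]
    simp
  exact (mul_eq_zero.1 h6).resolve_left two_ne_zero

lemma repV_uu {s : Perm X} (hs : s ∈ β.SR) : repV X s β.uu = β.uu := by
  funext a
  rw [repV_apply]
  unfold uu
  rw [β.f0_left (β.SR.inv_mem hs)]

lemma swap_mem_SR {x y : X} (h : β.R x = β.R y) : swap x y ∈ β.SR := by
  rw [mem_SR]
  intro z
  by_cases h4 : z = x
  · rw [h4, swap_apply_left, h]
  · by_cases h5 : z = y
    · rw [h5, swap_apply_right, h]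
    · rw [swap_apply_of_ne_of_ne h4 h5]

lemma fixed_uu (g : Perm X) :
    FixedOn (repV X) univ (fun x => β.R (g⁻¹ x)) (repV X g β.uu) := by
  intro x _ y _ hxy
  rw [← rho_mul, swap_mul_eq_mul_swap, rho_mul, β.repV_uu (β.swap_mem_SR hxy)]

/-- the raising relation for a board whose rows all have `k` elements and which has at most `k`
columns -/
lemma raise_uu {k : ℕ} (hC : ∀ x, β.C x < k)
    (hk : ∀ x, k ≤ (univ.filter fun y => β.R y = β.R x).card) (g : Perm X) {x y0 : X}
    (hne : β.R (g⁻¹ y0) ≠ β.R (g⁻¹ x)) :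
    repV X g β.uu + ∑ y ∈ univ.filter (fun y => β.R (g⁻¹ y) = β.R (g⁻¹ y0)),
      repV X (swap x y) (repV X g β.uu) = 0 := by
  have h1 := raise_fixed (repV X) (β.fixed_uu g) (Finset.mem_univ x) (Finset.mem_univ y0) hne
  refine β.vanish ?_ h1 ?_
  · refine β.isAnti_add (β.isAnti_repV β.isAnti_uu _) (β.isAnti_sum _ _ fun y _ => ?_)
    exact β.isAnti_repV (β.isAnti_repV β.isAnti_uu _) _
  · intro a
    set F := univ.filter (fun y => β.R (g⁻¹ y) = β.R (g⁻¹ y0)) with hF
    have hxF : x ∉ F := by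
      rw [hF, Finset.mem_filter]
      rintro ⟨_, h2⟩
      exact hne h2.symm
    have hFc : k ≤ F.card := by
      refine le_trans (hk (g⁻¹ y0)) (le_of_eq ?_)
      refine Finset.card_bij (fun y _ => g y) ?_ ?_ ?_
      · intro y hy
        rw [hF, Finset.mem_filter]
        rw [perm_inv_apply]
        exact ⟨Finset.mem_univ _, (Finset.mem_filter.1 hy).2⟩
      · intro y _ z _ hyz; exact g.injective hyz
      · intro y hy
        rw [hF, Finset.mem_filter] at hy
        exact ⟨g⁻¹ y, Finset.mem_filter.2 ⟨Finset.mem_univ _, hy.2⟩, perm_apply_inv g y⟩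
    have hcard : (Finset.range k).card < (insert x F).card := by
      rw [Finset.card_range, Finset.card_insert_of_notMem hxF]
      omega
    obtain ⟨y, hy, z, hz, hyz, h2⟩ := Finset.exists_ne_map_eq_of_card_lt_of_maps_to hcard
      (f := fun y => β.C (a⁻¹ y)) (fun y _ => by
        rw [Finset.coe_range, Set.mem_Iio]; exact hC _)
    have hval : ∀ w ∈ insert x F,
        Function.update (fun x => β.R (g⁻¹ x)) x (β.R (g⁻¹ y0)) w = β.R (g⁻¹ y0) := by
      intro w hw
      by_cases h3 : w = x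
      · rw [h3, Function.update_self]
      · rw [Function.update_of_ne h3]
        rcases Finset.mem_insert.1 hw with h4 | h4
        · exact absurd h4 h3
        · exact (Finset.mem_filter.1 h4).2
    exact ⟨y, z, hyz, by rw [hval y hy, hval z hz], h2⟩

end Board

/-! ### Weights and labels -/

variable {V : Type*} [AddCommGroup V] [Module ℂ V]

/-- the vector `v` has the weight `Q` -/
def HasWeight (S : SGrp X Γ) (ρ : Representation ℂ Γ V) (Q : Finset X) (v : V) : Prop :=
  ∀ g, (S.φ g).right = 1 → ρ g v = (((∏ x ∈ Q, (S.φ g).left x : ℤˣ) : ℤ) : ℂ) • v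

/-- `ρ` has the label `(a, b)` -/
def HasLabel (S : SGrp X Γ) (ρ : Representation ℂ Γ V) (a b : ℕ → ℕ) : Prop :=
  ∃ T : X → Bool × ℕ × ℕ, Function.Injective T ∧
    (∀ p, (∃ x, T x = p) ↔ p.2.2 < (if p.1 then b p.2.1 else a p.2.1)) ∧
    ∃ v w : V, v ≠ 0 ∧ w ≠ 0 ∧
      HasWeight S ρ (univ.filter fun x => (T x).1 = true) v ∧
      HasWeight S ρ (univ.filter fun x => (T x).1 = true) w ∧
      (∀ x y, (T x).1 = (T y).1 → (T x).2.1 = (T y).2.1 → ρ (S.σ (swap x y)) v = v) ∧
      (∀ x y, x ≠ y → (T x).1 = (T y).1 → (T x).2.2 = (T y).2.2 → ρ (S.σ (swap x y)) w = -w)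

/-- the twist by the sign character -/
noncomputable def twist (ρ : Representation ℂ (Perm X) V) : Representation ℂ (Perm X) V where
  toFun π := (((Perm.sign π : ℤˣ) : ℤ) : ℂ) • ρ π
  map_one' := by simp
  map_mul' := by
    intro a b
    ext v
    simp [smul_smul, mul_comm]

lemma twist_apply (ρ : Representation ℂ (Perm X) V) (π : Perm X) (v : V) :
    twist ρ π v = (((Perm.sign π : ℤˣ) : ℤ) : ℂ) • ρ π v := rfl

lemma twist_swap (ρ : Representation ℂ (Perm X) V) {x y : X} (h : x ≠ y) (v : V) :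
    twist ρ (swap x y) v = -ρ (swap x y) v := by
  rw [twist_apply, Perm.sign_swap h]; simp

section weight

variable {S : SGrp X Γ} {ρ : Representation ℂ Γ V} {Q : Finset X}

lemma HasWeight.sum {ι : Type*} (s : Finset ι) (f : ι → V) (h : ∀ i ∈ s, HasWeight S ρ Q (f i)) :
    HasWeight S ρ Q (∑ i ∈ s, f i) := by
  intro g hg
  rw [map_sum, Finset.smul_sum]
  exact Finset.sum_congr rfl fun i hi => h i hi g hg

/-- the action of a permutation on a weight vector -/
lemma HasWeight.perm {v : V} (h : HasWeight S ρ Q v) (π : Perm X) (hπ : ∀ x, π x ∈ Q ↔ x ∈ Q) :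
    HasWeight S ρ Q (ρ (S.σ π) v) := by
  intro g hg
  have e : g * S.σ π = S.σ π * ((S.σ π)⁻¹ * g * S.σ π) := by group
  have h1 : S.φ ((S.σ π)⁻¹ * g * S.σ π) =
      SemidirectProduct.inl ((act X π⁻¹) (S.φ g).left) := by
    rw [map_mul, map_mul, map_inv, S.hσ]
    ext
    · simp [SemidirectProduct.mul_left, SemidirectProduct.inv_left]
    · simp [hg]
  rw [← Module.End.mul_apply, ← map_mul, e, map_mul, Module.End.mul_apply, h _ (by rw [h1]; rfl),
    map_smul]
  congr 2
  have h2 : ∏ x ∈ Q, (S.φ ((S.σ π)⁻¹ * g * S.σ π)).left x = ∏ x ∈ Q, (S.φ g).left x := by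
    rw [h1]
    simp only [SemidirectProduct.left_inl, act_apply, inv_inv]
    refine Finset.prod_bij (fun x _ => π x) ?_ ?_ ?_ ?_
    · intro x hx; exact (hπ x).2 hx
    · intro x _ y _ hxy; exact π.injective hxy
    · intro y hy
      exact ⟨π⁻¹ y, by rw [← hπ, perm_apply_inv]; exact hy, perm_apply_inv π y⟩
    · intro x _; rfl
  rw [h2]

lemma HasWeight.span {v w : V} (h : HasWeight S ρ Q v) {P : Finset X}
    (hP : ∀ π ∈ supp P, ∀ x, π x ∈ Q ↔ x ∈ Q)
    (hw : w ∈ Submodule.span ℂ {w | ∃ π ∈ supp P, w = ρ (S.σ π) v}) :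
    HasWeight S ρ Q w := by
  induction hw using Submodule.span_induction with
  | mem w hw =>
    obtain ⟨π, hπ, rfl⟩ := hw
    exact h.perm π (hP π hπ)
  | zero => intro g _; simp
  | add a b _ _ ha hb => intro g hg; rw [map_add, ha g hg, hb g hg, smul_add]
  | smul c a _ ha => intro g hg; rw [map_smul, ha g hg, smul_comm]

end weight

/-- permutations supported on disjoint sets commute -/
lemma supp_comm {P P' : Finset X} (h : Disjoint P P') {π π' : Perm X} (hπ : π ∈ supp P)
    (hπ' : π' ∈ supp P') : π * π' = π' * π := by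
  rw [mem_supp] at hπ hπ'
  have hd : ∀ x, x ∈ P → x ∉ P' := fun x hx hx' => Finset.disjoint_left.1 h hx hx'
  refine Equiv.ext fun x => ?_
  rw [Perm.mul_apply, Perm.mul_apply]
  by_cases hx : x ∈ P
  · rw [hπ' x (hd x hx)]
    by_cases h1 : π x ∈ P
    · rw [hπ' _ (hd _ h1)]
    · have := hπ _ h1
      have := π.injective this
      rw [this] at h1
      exact absurd hx h1
  · rw [hπ x hx]
    by_cases h1 : π' x ∈ P
    · have h2 := hπ' _ (hd _ h1)
      have := π'.injective h2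
      rw [this] at h1
      exact absurd h1 hx
    · rw [hπ _ h1]

/-- a vector on which a transposition acts by the sign `ε` stays so under the permutations with
disjoint support -/
lemma span_swap {ρ : Representation ℂ (Perm X) V} {v w : V} {P : Finset X} {x y : X} {ε : ℂ}
    (hx : x ∉ P) (hy : y ∉ P) (h : ρ (swap x y) v = ε • v)
    (hw : w ∈ Submodule.span ℂ {w | ∃ π ∈ supp P, w = ρ π v}) : ρ (swap x y) w = ε • w := by
  induction hw using Submodule.span_induction with
  | mem w hw =>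
    obtain ⟨π, hπ, rfl⟩ := hw
    have h1 : swap x y * π = π * swap x y := by
      rw [mul_swap_eq_swap_mul, (mem_supp.1 hπ) x hx, (mem_supp.1 hπ) y hy]
    rw [← rho_mul, h1, rho_mul, h, map_smul]
  | zero => simp
  | add a b _ _ ha hb => rw [map_add, ha, hb, smul_add]
  | smul c a _ ha => rw [map_smul, ha, smul_comm]

lemma span_twist {ρ : Representation ℂ (Perm X) V} {v w : V} {P : Finset X}
    (hw : w ∈ Submodule.span ℂ {w | ∃ π ∈ supp P, w = twist ρ π v}) :
    w ∈ Submodule.span ℂ {w | ∃ π ∈ supp P, w = ρ π v} := by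
  induction hw using Submodule.span_induction with
  | mem w hw =>
    obtain ⟨π, hπ, rfl⟩ := hw
    rw [twist_apply]
    exact Submodule.smul_mem _ _ (Submodule.subset_span ⟨π, hπ, rfl⟩)
  | zero => exact Submodule.zero_mem _
  | add a b _ _ ha hb => exact Submodule.add_mem _ ha hb
  | smul c a _ ha => exact Submodule.smul_mem _ _ ha

/-! ### The vectors `Phi g` -/

lemma sign_inst {α : Type*} (f : Perm α) (i1 i2 : DecidableEq α) (j1 j2 : Fintype α) :
    @Perm.sign α i1 j1 f = @Perm.sign α i2 j2 f := by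
  have h1 := Subsingleton.elim i1 i2
  have h2 := Subsingleton.elim j1 j2
  subst h1
  subst h2
  rfl

section Phi

variable (β : Board X) (S : SGrp X Γ) (Q : Finset X) {ρ : Representation ℂ Γ V}
  (p : IntertwiningMap (S.repG Q) ρ)

/-- the image of `u_g ⊗ e_Q` -/
noncomputable def Phi (g : Perm X) : V := p (FF (incl Q) (repV X g β.uu))

lemma Phi_perm (g π : Perm X) (hπ : ∀ x, π x ∈ Q ↔ x ∈ Q) :
    ρ (S.σ π) (Phi β S Q p g) = (((sgOn Q π : ℤˣ) : ℤ) : ℂ) • Phi β S Q p (π * g) := by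
  unfold Phi
  rw [← p.isIntertwining]
  have h1 : S.repG Q (S.σ π) (FF (incl Q) (repV X g β.uu)) =
      (((sgOn Q π : ℤˣ) : ℤ) : ℂ) • FF (incl Q) (repV X (π * g) β.uu) := by
    rw [MonoidHom.comp_apply, S.hσ, repQ_FF_incl Q _ (by simpa using hπ)]
    simp only [SemidirectProduct.left_inr, SemidirectProduct.right_inr, Pi.one_apply,
      Finset.prod_const_one, Units.val_one, Int.cast_one, one_smul]
    rw [rho_mul]
  rw [h1, map_smul]

lemma Phi_out (g π : Perm X) (hπ : ∀ x ∈ Q, π x = x) :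
    ρ (S.σ π) (Phi β S Q p g) = Phi β S Q p (π * g) := by
  have h1 : ∀ x, π x ∈ Q ↔ x ∈ Q := preserve_iff (fun x hx => by rw [hπ x hx]; exact hx)
  rw [Phi_perm β S Q p g π h1, sgOn_eq h1]
  have h2 : π.subtypePerm h1 = 1 := by
    refine Equiv.ext fun x => ?_
    exact Subtype.ext (hπ x x.2)
  rw [h2, Perm.sign_one]; simp

lemma Phi_in (g π : Perm X) (hπ : ∀ x, x ∉ Q → π x = x) :
    ρ (S.σ π) (Phi β S Q p g) = (((Perm.sign π : ℤˣ) : ℤ) : ℂ) • Phi β S Q p (π * g) := by
  have h1 : ∀ x, π x ∈ Q ↔ x ∈ Q := by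
    refine preserve_iff (fun x hx => ?_)
    by_contra hcon
    have := π.injective (hπ _ hcon)
    rw [this] at hcon
    exact hcon hx
  have h2 : Perm.sign (π.subtypePerm h1) = Perm.sign π :=
    (sign_inst _ _ _ _ _).trans (Perm.sign_subtypePerm π h1 (fun x hx => by
      by_contra hcon
      exact hx (hπ x hcon)))
  rw [Phi_perm β S Q p g π h1, sgOn_eq h1, h2]

lemma Phi_weight (g : Perm X) : HasWeight S ρ Q (Phi β S Q p g) := by
  intro t ht
  unfold Phi
  rw [← p.isIntertwining]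
  have h1 : S.repG Q t (FF (incl Q) (repV X g β.uu)) =
      (((∏ x ∈ Q, (S.φ t).left x : ℤˣ) : ℤ) : ℂ) • FF (incl Q) (repV X g β.uu) := by
    have h2 : ∀ x, (S.φ t).right x ∈ Q ↔ x ∈ Q := by rw [ht]; intro x; rfl
    rw [MonoidHom.comp_apply, repQ_FF_incl Q _ h2, sgOn_eq h2]
    have h3 : (S.φ t).right.subtypePerm h2 = 1 := by
      refine Equiv.ext fun x => Subtype.ext ?_
      simp [ht]
    rw [h3, ht, Perm.sign_one]
    simp
  rw [h1, map_smul]

lemma Phi_fixed (g : Perm X) {x y : X} (h : β.R (g⁻¹ x) = β.R (g⁻¹ y)) :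
    Phi β S Q p (swap x y * g) = Phi β S Q p g := by
  unfold Phi
  rw [rho_mul, β.fixed_uu g x (Finset.mem_univ _) y (Finset.mem_univ _) h]

lemma Phi_raise {k : ℕ} (hC : ∀ x, β.C x < k)
    (hk : ∀ x, k ≤ (univ.filter fun y => β.R y = β.R x).card) (g : Perm X) {x y0 : X}
    (hne : β.R (g⁻¹ y0) ≠ β.R (g⁻¹ x)) :
    Phi β S Q p g + ∑ y ∈ univ.filter (fun y => β.R (g⁻¹ y) = β.R (g⁻¹ y0)),
      Phi β S Q p (swap x y * g) = 0 := by
  have h1 := congrArg (fun v => p (FF (incl Q) v)) (β.raise_uu hC hk g hne)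
  simp only [map_add, map_sum, map_zero] at h1
  unfold Phi
  rw [← h1]
  simp only [rho_mul]

end Phi

end Pool.Agent.Helper310_Saxl
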