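import Mathlib
import Pool.Agent.Helper310_Saxl.Label

/-!
# Labels of the constituents: rectangular boards
-/

namespace Pool.Agent.Helper310_Saxl

open Equiv Finset Representation

lemma energy_congr {X : Type*} {ι : Type*} [Fintype ι] [DecidableEq ι] {S : Finset X}
    {D D' : X → ι} (h : ∀ x ∈ S, D x = D' x) : energy S D = energy S D' := by
  unfold energy
  refine Finset.sum_congr rfl fun l _ => ?_
  congr 2
  refine Finset.filter_congr fun x hx => ?_
  rw [h x hx]

/-- the `b`-part of the label: conjugate of the complement of `a` in the `r × k` rectangle -/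
def conjCompl (r k : ℕ) (a : ℕ → ℕ) (j : ℕ) : ℕ :=
  ((Finset.range r).filter fun i => j + a i < k).card

lemma lt_conjCompl {r k : ℕ} {a : ℕ → ℕ} (ha : Antitone a) (i j : ℕ) :
    i < conjCompl r k a j ↔ i < r ∧ j + a (r - 1 - i) < k := by
  unfold conjCompl
  constructor
  · intro h
    have h1 : i < r := by
      refine lt_of_lt_of_le h ?_
      refine le_trans (Finset.card_filter_le _ _) ?_
      rw [Finset.card_range]
    refine ⟨h1, ?_⟩
    by_contra hcon
    have h2 : (Finset.range r).filter (fun i => j + a i < k) ⊆ Finset.Ico (r - i) r := by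
      intro z hz
      rw [Finset.mem_filter, Finset.mem_range] at hz
      rw [Finset.mem_Ico]
      refine ⟨?_, hz.1⟩
      by_contra h3
      have h4 : a (r - 1 - i) ≤ a z := ha (by omega)
      omega
    have h3 := Finset.card_le_card h2
    rw [Nat.card_Ico] at h3
    omega
  · rintro ⟨h1, h2⟩
    have h3 : Finset.Ico (r - 1 - i) r ⊆ (Finset.range r).filter (fun i => j + a i < k) := by
      intro z hz
      rw [Finset.mem_Ico] at hz
      rw [Finset.mem_filter, Finset.mem_range]
      refine ⟨hz.2, ?_⟩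
      have h4 : a z ≤ a (r - 1 - i) := ha hz.1
      omega
    have h4 := Finset.card_le_card h3
    rw [Nat.card_Ico] at h4
    omega

variable {X : Type*} [Fintype X] [DecidableEq X] {Γ : Type*} [Group Γ]
  {V : Type*} [AddCommGroup V] [Module ℂ V]

theorem box_label (β : Board X) {r k : ℕ} (hR : ∀ x, β.R x < r) (hC : ∀ x, β.C x < k)
    (hcard : ∀ i < r, (univ.filter fun x => β.R x = i).card = k)
    (S : SGrp X Γ) (Q : Finset X) {ρ : Representation ℂ Γ V}
    (p : IntertwiningMap (S.repG Q) ρ) (g0 : Perm X) (h0 : Phi β S Q p g0 ≠ 0) :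
    ∃ a : ℕ → ℕ, Antitone a ∧ (∀ i, r ≤ i → a i = 0) ∧ (∀ i, a i ≤ k) ∧
      HasLabel S ρ a (conjCompl r k a) := by
  classical
  have hk : ∀ x, k ≤ (univ.filter fun y => β.R y = β.R x).card := fun x =>
    (hcard _ (hR x)).ge
  let Rf : X → Fin r := fun x => ⟨β.R x, hR x⟩
  have hRf : ∀ x y, Rf x = Rf y ↔ β.R x = β.R y := fun x y => by
    simp only [Rf, Fin.mk.injEq]
  -- maximise the energy
  obtain ⟨g, hg, hmax⟩ := Finset.exists_max_image (univ.filter fun g => Phi β S Q p g ≠ 0)
    (fun g => energy Qᶜ (fun x => Rf (g⁻¹ x))) ⟨g0, by simpa using h0⟩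
  rw [Finset.mem_filter] at hg
  have hφ0 := hg.2
  set φ := Phi β S Q p g with hφ
  let nn : Fin r → ℕ := fun i => (Qᶜ.filter fun x => Rf (g⁻¹ x) = i).card
  let mm : Fin r → ℕ := fun i => (Q.filter fun x => Rf (g⁻¹ x) = i).card
  have hnm : ∀ i, nn i + mm i = k := by
    intro i
    have h1 : (univ.filter fun x => Rf (g⁻¹ x) = i).card = k := by
      rw [← hcard i.1 i.2]
      refine Finset.card_bij (fun y _ => g⁻¹ y) ?_ ?_ ?_
      · intro y hy
        rw [Finset.mem_filter] at hy ⊢
        exact ⟨Finset.mem_univ _, congrArg Fin.val hy.2⟩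
      · intro y _ z _ hyz; exact g⁻¹.injective hyz
      · intro y hy
        rw [Finset.mem_filter] at hy
        refine ⟨g y, Finset.mem_filter.2 ⟨Finset.mem_univ _, ?_⟩, perm_inv_apply g y⟩
        rw [perm_inv_apply]; exact Fin.ext hy.2
    rw [← h1]
    simp only [nn, mm]
    rw [← Finset.card_union_of_disjoint, ← Finset.filter_union]
    · congr 1
      ext x; simp [or_comm, em]
    · exact Finset.disjoint_filter_filter (disjoint_compl_left)
  let e : Perm (Fin r) := Tuple.sort mm
  have hmono : Monotone (mm ∘ e) := Tuple.monotone_sort mm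
  let D1 : X → ℕ := fun x => (e.symm (Rf (g⁻¹ x)) : ℕ)
  let D2 : X → ℕ := fun x => r - 1 - D1 x
  have hD1lt : ∀ x, D1 x < r := fun x => (e.symm (Rf (g⁻¹ x))).2
  have hD1 : ∀ x y, D1 x = D1 y ↔ β.R (g⁻¹ x) = β.R (g⁻¹ y) := by
    intro x y
    rw [← hRf]
    constructor
    · intro h; exact e.symm.injective (Fin.ext h)
    · intro h; simp only [D1, h]
  have hD2 : ∀ x y, D2 x = D2 y ↔ D1 x = D1 y := by
    intro x y
    have h1 := hD1lt x
    have h2 := hD1lt y
    simp only [D2]
    omega
  have hord : ∀ x y, D1 x < D1 y → nn (Rf (g⁻¹ y)) ≤ nn (Rf (g⁻¹ x)) := by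
    intro x y hxy
    have h1 : mm (Rf (g⁻¹ x)) ≤ mm (Rf (g⁻¹ y)) := by
      have h2 := hmono (show e.symm (Rf (g⁻¹ x)) ≤ e.symm (Rf (g⁻¹ y)) from hxy.le)
      simpa using h2
    have h3 := hnm (Rf (g⁻¹ x))
    have h4 := hnm (Rf (g⁻¹ y))
    omega
  -- vanishing by maximality
  have hZ : ∀ x y, x ∉ Q → y ∈ Q → β.R (g⁻¹ x) ≠ β.R (g⁻¹ y) →
      nn (Rf (g⁻¹ x)) ≤ nn (Rf (g⁻¹ y)) → Phi β S Q p (swap x y * g) = 0 := by
    intro x y hx hy hne hle
    by_contra hcon
    have h1 := hmax (swap x y * g) (Finset.mem_filter.2 ⟨Finset.mem_univ _, hcon⟩)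
    have h2 : energy Qᶜ (fun z => Rf ((swap x y * g)⁻¹ z)) =
        energy Qᶜ (Function.update (fun z => Rf (g⁻¹ z)) x (Rf (g⁻¹ y))) := by
      refine energy_congr fun z hz => ?_
      rw [Finset.mem_compl] at hz
      have hzy : z ≠ y := by rintro rfl; exact hz hy
      rw [mul_inv_rev, swap_inv, Perm.mul_apply]
      by_cases h3 : z = x
      · rw [h3, swap_apply_left, Function.update_self]
      · rw [swap_apply_of_ne_of_ne h3 hzy, Function.update_of_ne h3]
    have h3 : energy Qᶜ (fun z => Rf (g⁻¹ z)) <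
        energy Qᶜ (Function.update (fun z => Rf (g⁻¹ z)) x (Rf (g⁻¹ y))) := by
      refine energy_update (Finset.mem_compl.2 hx) (fun h => hne ((hRf _ _).1 h).symm) hle
    rw [← h2] at h3
    omega
  have hσ : ∀ x y : X, (S.res ρ) (swap x y) = ρ (S.σ (swap x y)) := fun x y => rfl
  -- the two highest weight properties
  have hHW1 : HW (S.res ρ) Qᶜ D1 φ := by
    refine ⟨?_, ?_⟩
    · intro x hx y hy hxy
      rw [Finset.mem_compl] at hx hy
      rw [hσ, hφ, Phi_out β S Q p g (swap x y) (fun z hz => swap_apply_of_ne_of_ne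
        (by rintro rfl; exact hx hz) (by rintro rfl; exact hy hz)),
        Phi_fixed β S Q p g ((hD1 x y).1 hxy)]
    · intro x hx y0 hy0 hlt
      rw [Finset.mem_compl] at hx hy0
      have hne : β.R (g⁻¹ y0) ≠ β.R (g⁻¹ x) := fun h => by
        rw [← hD1] at h; omega
      have h1 := Phi_raise β S Q p hC hk g hne
      have h2 : ∑ y ∈ Qᶜ.filter (fun y => D1 y = D1 y0), Phi β S Q p (swap x y * g) =
          ∑ y ∈ univ.filter (fun y => β.R (g⁻¹ y) = β.R (g⁻¹ y0)),
            Phi β S Q p (swap x y * g) := by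
        refine Finset.sum_subset ?_ ?_
        · intro y hy
          rw [Finset.mem_filter] at hy ⊢
          exact ⟨Finset.mem_univ _, (hD1 _ _).1 hy.2⟩
        · intro y hy hny
          rw [Finset.mem_filter] at hy
          have hyQ : y ∈ Q := by
            by_contra hcon
            exact hny (Finset.mem_filter.2 ⟨Finset.mem_compl.2 hcon, (hD1 _ _).2 hy.2⟩)
          refine hZ x y hx hyQ (fun h => hne (by rw [h, hy.2])) ?_
          have h3 := hord y0 x hlt
          have h4 : Rf (g⁻¹ y) = Rf (g⁻¹ y0) := (hRf _ _).2 hy.2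
          rw [h4]; exact h3
      rw [← h2] at h1
      rw [← h1, ← hφ]
      congr 1
      refine Finset.sum_congr rfl fun y hy => ?_
      rw [Finset.mem_filter, Finset.mem_compl] at hy
      rw [hσ, hφ, Phi_out β S Q p g (swap x y) (fun z hz => swap_apply_of_ne_of_ne
        (by rintro rfl; exact hx hz) (by rintro rfl; exact hy.1 hz))]
  have hin : ∀ x ∈ Q, ∀ y ∈ Q, x ≠ y → ρ (S.σ (swap x y)) φ = -Phi β S Q p (swap x y * g) := by
    intro x hx y hy hxy
    rw [hφ, Phi_in β S Q p g (swap x y) (fun z hz => swap_apply_of_ne_of_ne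
      (by rintro rfl; exact hz hx) (by rintro rfl; exact hz hy)), Perm.sign_swap hxy]
    simp
  have hHW2 : HW (twist (S.res ρ)) Q D2 φ := by
    refine ⟨?_, ?_⟩
    · intro x hx y hy hxy
      by_cases hne : x = y
      · rw [hne]
        have e0 : (swap y y : Perm X) = 1 := swap_self y
        rw [e0, map_one]; rfl
      · rw [twist_swap _ hne, hσ, hin x hx y hy hne, neg_neg,
          Phi_fixed β S Q p g ((hD1 x y).1 ((hD2 x y).1 hxy))]
    · intro x hx y0 hy0 hlt
      have hlt' : D1 x < D1 y0 := by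
        have h1 := hD1lt x
        have h2 := hD1lt y0
        simp only [D2] at hlt
        omega
      have hne : β.R (g⁻¹ y0) ≠ β.R (g⁻¹ x) := fun h => by
        rw [← hD1] at h; omega
      have h1 := Phi_raise β S Q p hC hk g hne
      have h2 : ∑ y ∈ Q.filter (fun y => D2 y = D2 y0), Phi β S Q p (swap x y * g) =
          ∑ y ∈ univ.filter (fun y => β.R (g⁻¹ y) = β.R (g⁻¹ y0)),
            Phi β S Q p (swap x y * g) := by
        refine Finset.sum_subset ?_ ?_
        · intro y hy
          rw [Finset.mem_filter] at hy ⊢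
          exact ⟨Finset.mem_univ _, (hD1 _ _).1 ((hD2 _ _).1 hy.2)⟩
        · intro y hy hny
          rw [Finset.mem_filter] at hy
          have hyQ : y ∉ Q := by
            intro hcon
            exact hny (Finset.mem_filter.2 ⟨hcon, (hD2 _ _).2 ((hD1 _ _).2 hy.2)⟩)
          rw [swap_comm]
          refine hZ y x hyQ hx (fun h => hne (by rw [← h, hy.2])) ?_
          have h3 := hord x y0 hlt'
          have h4 : Rf (g⁻¹ y) = Rf (g⁻¹ y0) := (hRf _ _).2 hy.2
          rw [h4]; exact h3
      rw [← h2] at h1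
      rw [← h1, ← hφ]
      congr 1
      refine Finset.sum_congr rfl fun y hy => ?_
      rw [Finset.mem_filter] at hy
      have hxy : x ≠ y := by
        rintro rfl
        exact hne ((hD1 _ _).1 ((hD2 _ _).1 hy.2)).symm
      rw [twist_swap _ hxy, hσ, hin x hx y hy.1 hxy, neg_neg]
  -- the column functions
  obtain ⟨c1, hc1inj, hc1⟩ := exists_colfn Qᶜ D1
  obtain ⟨c2, hc2inj, hc2⟩ := exists_colfn Q D2
  obtain ⟨w, hw0, hwspan, hwcol⟩ := hHW1.exists_column (S.res ρ) hφ0 c1 hc1inj (by
    intro x hx j hj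
    have h1 := (hc1 (D1 x) (c1 x)).1 ⟨x, hx, rfl, rfl⟩
    exact (hc1 (D1 x) j).2 (lt_trans hj h1))
  obtain ⟨v, hv0, hvspan, hvcol⟩ := hHW2.exists_column (twist (S.res ρ)) hφ0 c2 hc2inj (by
    intro x hx j hj
    have h1 := (hc2 (D2 x) (c2 x)).1 ⟨x, hx, rfl, rfl⟩
    exact (hc2 (D2 x) j).2 (lt_trans hj h1))
  have hvspan' := span_twist hvspan
  have hwt : HasWeight S ρ Q φ := Phi_weight β S Q p g
  have hprQ : ∀ π ∈ supp Q, ∀ x, π x ∈ Q ↔ x ∈ Q := by
    intro π hπ
    refine preserve_iff (fun x hx => ?_)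
    by_contra hcon
    have := π.injective ((mem_supp.1 hπ) _ hcon)
    rw [this] at hcon
    exact hcon hx
  have hprQc : ∀ π ∈ supp Qᶜ, ∀ x, π x ∈ Q ↔ x ∈ Q := by
    intro π hπ
    refine preserve_iff (fun x hx => ?_)
    rw [(mem_supp.1 hπ) x (by simpa using hx)]; exact hx
  have hvw : HasWeight S ρ Q v := hwt.span hprQ hvspan'
  have hww : HasWeight S ρ Q w := hwt.span hprQc hwspan
  -- the label
  let a : ℕ → ℕ := fun i => (Qᶜ.filter fun x => D1 x = i).card
  have ha1 : ∀ i (hi : i < r), a i = nn (e ⟨i, hi⟩) := by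
    intro i hi
    simp only [a, nn]
    congr 1
    refine Finset.filter_congr fun x _ => ?_
    simp only [D1]
    constructor
    · intro h
      have : e.symm (Rf (g⁻¹ x)) = ⟨i, hi⟩ := Fin.ext h
      rw [← this, Equiv.apply_symm_apply]
    · intro h
      rw [h, Equiv.symm_apply_apply]
  have ha2 : ∀ i, r ≤ i → a i = 0 := by
    intro i hi
    simp only [a]
    rw [Finset.card_eq_zero, Finset.filter_eq_empty_iff]
    intro x _ h
    have := hD1lt x
    omega
  have ha3 : Antitone a := by
    intro i j hij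
    by_cases hj : j < r
    · have hi : i < r := lt_of_le_of_lt hij hj
      rw [ha1 i hi, ha1 j hj]
      have h1 := hmono (show (⟨i, hi⟩ : Fin r) ≤ ⟨j, hj⟩ from hij)
      simp only [Function.comp_apply] at h1
      have h3 := hnm (e ⟨i, hi⟩)
      have h4 := hnm (e ⟨j, hj⟩)
      omega
    · rw [ha2 j (by omega)]; exact Nat.zero_le _
  have ha4 : ∀ i, a i ≤ k := by
    intro i
    by_cases hi : i < r
    · rw [ha1 i hi]
      have h3 := hnm (e ⟨i, hi⟩)
      omega
    · rw [ha2 i (by omega)]; exact Nat.zero_le _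
  have hb : ∀ i, (Q.filter fun x => D2 x = i).card = if i < r then k - a (r - 1 - i) else 0 := by
    intro i
    by_cases hi : i < r
    · rw [if_pos hi, ha1 (r - 1 - i) (by omega)]
      have h3 := hnm (e ⟨r - 1 - i, by omega⟩)
      have h4 : (Q.filter fun x => D2 x = i).card = mm (e ⟨r - 1 - i, by omega⟩) := by
        simp only [mm]
        congr 1
        refine Finset.filter_congr fun x _ => ?_
        have h5 := hD1lt x
        simp only [D2]
        constructor
        · intro h
          have : e.symm (Rf (g⁻¹ x)) = ⟨r - 1 - i, by omega⟩ := Fin.ext (by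
            show D1 x = r - 1 - i
            omega)
          rw [← this, Equiv.apply_symm_apply]
        · intro h
          have : D1 x = r - 1 - i := by
            simp only [D1]
            rw [h, Equiv.symm_apply_apply]
          omega
      rw [h4]; omega
    · rw [if_neg hi, Finset.card_eq_zero, Finset.filter_eq_empty_iff]
      intro x _ h
      have h5 := hD1lt x
      simp only [D2] at h
      omega
  refine ⟨a, ha3, ha2, ha4, ?_⟩
  let T : X → Bool × ℕ × ℕ := fun x => if x ∈ Q then (true, c2 x, D2 x) else (false, D1 x, c1 x)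
  have hTt : ∀ x ∈ Q, T x = (true, c2 x, D2 x) := fun x hx => if_pos hx
  have hTf : ∀ x, x ∉ Q → T x = (false, D1 x, c1 x) := fun x hx => if_neg hx
  have hTQ : ∀ x, (T x).1 = true ↔ x ∈ Q := by
    intro x
    by_cases hx : x ∈ Q
    · rw [hTt x hx]; simp [hx]
    · rw [hTf x hx]; simp [hx]
  have hTQ' : (univ.filter fun x => (T x).1 = true) = Q := by
    ext x; simp [hTQ]
  refine ⟨T, ?_, ?_, v, w, hv0, hw0, by rw [hTQ']; exact hvw, by rw [hTQ']; exact hww, ?_, ?_⟩
  · intro x y hxy
    by_cases hx : x ∈ Q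
    · have hy : y ∈ Q := by rw [← hTQ, ← hxy, hTQ]; exact hx
      rw [hTt x hx, hTt y hy, Prod.mk.injEq, Prod.mk.injEq] at hxy
      exact hc2inj x hx y hy hxy.2.2 hxy.2.1
    · have hy : y ∉ Q := by rw [← hTQ, ← hxy, hTQ]; exact hx
      rw [hTf x hx, hTf y hy, Prod.mk.injEq, Prod.mk.injEq] at hxy
      exact hc1inj x (Finset.mem_compl.2 hx) y (Finset.mem_compl.2 hy) hxy.2.1 hxy.2.2
  · rintro ⟨q, i, j⟩
    cases q
    · simp only [Bool.false_eq_true, if_false]
      rw [← hc1 i j]
      constructor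
      · rintro ⟨x, hx⟩
        by_cases hxQ : x ∈ Q
        · rw [hTt x hxQ, Prod.mk.injEq] at hx
          exact absurd hx.1 (by simp)
        · rw [hTf x hxQ, Prod.mk.injEq, Prod.mk.injEq] at hx
          exact ⟨x, Finset.mem_compl.2 hxQ, hx.2.1, hx.2.2⟩
      · rintro ⟨x, hxQ, h1, h2⟩
        exact ⟨x, by rw [hTf x (Finset.mem_compl.1 hxQ), h1, h2]⟩
    · simp only [if_true]
      rw [lt_conjCompl ha3]
      have h1 : (j < r ∧ i + a (r - 1 - j) < k) ↔ i < (Q.filter fun x => D2 x = j).card := by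
        rw [hb]
        by_cases hj : j < r
        · rw [if_pos hj]
          omega
        · rw [if_neg hj]
          omega
      rw [h1, ← hc2 j i]
      constructor
      · rintro ⟨x, hx⟩
        by_cases hxQ : x ∈ Q
        · rw [hTt x hxQ, Prod.mk.injEq, Prod.mk.injEq] at hx
          exact ⟨x, hxQ, hx.2.2, hx.2.1⟩
        · rw [hTf x hxQ, Prod.mk.injEq] at hx
          exact absurd hx.1 (by simp)
      · rintro ⟨x, hxQ, h1, h2⟩
        exact ⟨x, by rw [hTt x hxQ, h1, h2]⟩
  · intro x y h1 h2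
    by_cases hxy : x = y
    · rw [hxy]
      have e0 : (swap y y : Perm X) = 1 := swap_self y
      rw [e0, map_one, map_one]; rfl
    by_cases hx : x ∈ Q
    · have hy : y ∈ Q := by rw [← hTQ, ← h1, hTQ]; exact hx
      rw [hTt x hx, hTt y hy] at h2
      have h3 := hvcol x hx y hy hxy h2
      rw [twist_swap _ hxy, neg_inj] at h3
      exact h3
    · have hy : y ∉ Q := by rw [← hTQ, ← h1, hTQ]; exact hx
      rw [hTf x hx, hTf y hy] at h2
      have h3 := hHW1.1 x (Finset.mem_compl.2 hx) y (Finset.mem_compl.2 hy) h2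
      have h4 := span_swap (ε := 1) hx hy (by rw [h3, one_smul]) hvspan'
      rw [one_smul] at h4
      exact h4
  · intro x y hxy h1 h2
    by_cases hx : x ∈ Q
    · have hy : y ∈ Q := by rw [← hTQ, ← h1, hTQ]; exact hx
      rw [hTt x hx, hTt y hy] at h2
      have h3 := hHW2.1 x hx y hy h2
      rw [twist_swap _ hxy] at h3
      have h5 : (S.res ρ) (swap x y) φ = (-1 : ℂ) • φ := by
        rw [neg_one_smul]
        exact neg_eq_iff_eq_neg.1 h3
      have h4 := span_swap (ε := -1) (P := Qᶜ) (by simpa using hx) (by simpa using hy) h5 hwspan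
      rw [neg_one_smul] at h4
      exact h4
    · have hy : y ∉ Q := by rw [← hTQ, ← h1, hTQ]; exact hx
      rw [hTf x hx, hTf y hy] at h2
      exact hwcol x (Finset.mem_compl.2 hx) y (Finset.mem_compl.2 hy) hxy h2

end Pool.Agent.Helper310_Saxl
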