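import Mathlib

/-!
# Weyl groups, nilpotent orbits and families in the classical types B, C, D

The standard combinatorial dictionary (Collingwood-McGovern, Nilpotent orbits in semisimple Lie
algebras, chapters 5, 6 and 10; Carter, Finite groups of Lie type, 11.4 and 13.3; Lusztig,
Characters of reductive groups over a finite field, chapter 4) for the complex Lie algebras
`so_{2n+1}` (type `B_n`), `sp_{2n}` (type `C_n`) and `so_{2n}` (type `D_n`):

* the Weyl group of types `B_n` and `C_n` is the group of all signed permutations of `n` letters,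
  the one of type `D_n` is its subgroup of elements with an even number of signs;
* nilpotent orbits are partitions of the dimension of the natural representation in which the even
  parts (types `B`, `D`), respectively the odd parts (type `C`), have even multiplicity; the
  closure order is the dominance order;
* the reductive part of the centraliser of an orbit is, up to isogeny and finite index, a product
  of one group for each part `j` of multiplicity `m > 0`: an orthogonal group `O_m` when `j` is odd
  (types `B`, `D`), respectively even (type `C`), and a symplectic group `Sp_m` otherwise; so the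
  orbit is solvable when no part is of the second kind and all multiplicities are at most two;
* the dual `d(l)` is the collapse of the transposed partition: the largest orbit dominated by it;
* irreducible characters are labelled by bipartitions `(a ; b)` of `n` (unordered in type `D`),
  two of them are in the same family when their symbols have the same entries, and the family of
  a special orbit is the one which contains its Springer character.
-/

namespace Pool.Agent.Helper310_Saxl

open Equiv Finset

/-! ### Weyl groups -/

/-- The classical types other than `A`. -/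
inductive Ty
  | B
  | C
  | D

/-- The elements of the Weyl group of type `T_n`: signed permutations of `n` letters. The element
with the signs `s` and the permutation `π` maps the basis vector `e_i` to `s (π i) • e_(π i)`. In
type `D` the number of signs `-1` is even. -/
@[ext]
structure Weyl (T : Ty) (n : ℕ) where
  sgn : Fin n → ℤˣ
  perm : Perm (Fin n)
  even : T = Ty.D → ∏ i, sgn i = 1

namespace Weyl

variable {T : Ty} {n : ℕ}

lemma even_mul (g h : Weyl T n) (hT : T = Ty.D) :
    ∏ i, (g.sgn i * h.sgn (g.perm⁻¹ i)) = 1 := by
  have h1 : ∏ i, h.sgn (g.perm⁻¹ i) = ∏ i, h.sgn i := Equiv.prod_comp g.perm⁻¹ h.sgn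
  rw [Finset.prod_mul_distrib, h1, g.even hT, h.even hT, mul_one]

lemma even_inv (g : Weyl T n) (hT : T = Ty.D) : ∏ i, (g.sgn (g.perm i))⁻¹ = 1 := by
  have h1 : ∏ i, (g.sgn (g.perm i))⁻¹ = ∏ i, (g.sgn i)⁻¹ :=
    Equiv.prod_comp g.perm fun i => (g.sgn i)⁻¹
  rw [h1, Finset.prod_inv_distrib, g.even hT, inv_one]

/-- The composition of signed permutations. -/
def mul (g h : Weyl T n) : Weyl T n :=
  ⟨fun i => g.sgn i * h.sgn (g.perm⁻¹ i), g.perm * h.perm, even_mul g h⟩

/-- The identity. -/
def one : Weyl T n := ⟨fun _ => 1, 1, fun _ => Finset.prod_const_one⟩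

/-- The inverse of a signed permutation. -/
def inv (g : Weyl T n) : Weyl T n := ⟨fun i => (g.sgn (g.perm i))⁻¹, g.perm⁻¹, even_inv g⟩

lemma mul_assoc' (a b c : Weyl T n) : mul (mul a b) c = mul a (mul b c) := by
  ext i
  · simp [mul, mul_assoc]
  · simp [mul, mul_assoc]

lemma one_mul' (a : Weyl T n) : mul one a = a := by
  ext i
  · simp [mul, one]
  · simp [mul, one]

lemma inv_mul' (a : Weyl T n) : mul (inv a) a = one := by
  ext i
  · simp [mul, one, inv]
  · simp [mul, one, inv]

instance : Mul (Weyl T n) := ⟨mul⟩

instance : One (Weyl T n) := ⟨one⟩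

instance : Inv (Weyl T n) := ⟨inv⟩

/-- The Weyl group. -/
instance : Group (Weyl T n) := Group.ofLeftAxioms mul_assoc' one_mul' inv_mul'

end Weyl

/-- The transposition of the letters `x` and `y` (the identity when `x = y`). -/
def tr (T : Ty) {n : ℕ} (x y : Fin n) : Weyl T n :=
  ⟨fun _ => 1, Equiv.swap x y, fun _ => Finset.prod_const_one⟩

/-! ### Representations -/

/-- The representation `ρ` contains the irreducible representation `σ`. -/
def Contains {G : Type*} [Group G] {M U : Type*} [AddCommGroup M] [Module ℂ M] [AddCommGroup U]
    [Module ℂ U] (ρ : Representation ℂ G M) (σ : Representation ℂ G U) : Prop :=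
  ∃ f : Representation.IntertwiningMap σ ρ, f ≠ 0

/-- The vector `g v`. -/
def ap {G : Type*} [Group G] {V : Type*} [AddCommGroup V] [Module ℂ V]
    (ρ : Representation ℂ G V) (g : G) (v : V) : V := ρ g v

/-- The product of the signs of `g` at the letters in `Q`. -/
def signs {T : Ty} {n : ℕ} (g : Weyl T n) (Q : Finset (Fin n)) : ℤ := ((∏ x ∈ Q, g.sgn x : ℤˣ) : ℤ)

/-- The vector `v` has the weight `Q`: a diagonal element multiplies it by the product of the signs
at the letters in `Q`. -/
def IsWeight {T : Ty} {n : ℕ} {V : Type*} [AddCommGroup V] [Module ℂ V]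
    (ρ : Representation ℂ (Weyl T n) V) (Q : Finset (Fin n)) (v : V) : Prop :=
  ∀ g : Weyl T n, g.perm = 1 → ap ρ g v = (signs g Q : ℂ) • v

/-- `t` is a bitableau of shape `(a ; b)`: a bijection from the `n` letters to the cells, which are
the triples `(false, i, j)` with `j < a i` and `(true, i, j)` with `j < b i`; here `i` is the
number of the row and `j` the number of the column. -/
def IsBitableau {n : ℕ} (a b : ℕ → ℕ) (t : Fin n → Bool × ℕ × ℕ) : Prop :=
  Function.Injective t ∧
    ∀ p, (∃ x, t x = p) ↔ p.2.2 < (if p.1 then b p.2.1 else a p.2.1)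

/-- The letters in the second component of a bitableau. -/
def second {n : ℕ} (t : Fin n → Bool × ℕ × ℕ) : Finset (Fin n) := univ.filter fun x => (t x).1

/-- `x` and `y` are in the same row of the bitableau. -/
def SameRow {n : ℕ} (t : Fin n → Bool × ℕ × ℕ) (x y : Fin n) : Prop :=
  (t x).1 = (t y).1 ∧ (t x).2.1 = (t y).2.1

/-- `x` and `y` are in the same column of the bitableau. -/
def SameCol {n : ℕ} (t : Fin n → Bool × ℕ × ℕ) (x y : Fin n) : Prop :=
  (t x).1 = (t y).1 ∧ (t x).2.2 = (t y).2.2

/-- The irreducible representation `ρ` has the label `(a ; b)`, where the partitions `a` and `b`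
are given by their parts `a 0 ≥ a 1 ≥ ...` and `b 0 ≥ b 1 ≥ ...`. For some bitableau of shape
`(a ; b)` there is a nonzero vector `v` whose weight is the set of the letters in the second
component and which is fixed by all transpositions of two letters in the same row, and a nonzero
vector `w` of the same weight which is negated by all transpositions of two letters in the same
column. Thus this weight space is the product `S^a ⊠ S^b` of Specht modules, `((n) ; ∅)` is the
trivial representation, `((n-1) ; (1))` the reflection representation and `(∅ ; (1^n))` its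
determinant. In type `D` the labels `(a ; b)` and `(b ; a)` are the same, and for `a ≠ b` they
determine the representation. -/
def HasLab {T : Ty} {n : ℕ} {V : Type*} [AddCommGroup V] [Module ℂ V]
    (ρ : Representation ℂ (Weyl T n) V) (a b : ℕ → ℕ) : Prop :=
  ∃ t, IsBitableau a b t ∧
    (∃ v : V, v ≠ 0 ∧ IsWeight ρ (second t) v ∧
      ∀ x y, SameRow t x y → ap ρ (tr T x y) v = v) ∧
    ∃ w : V, w ≠ 0 ∧ IsWeight ρ (second t) w ∧
      ∀ x y, x ≠ y → SameCol t x y → ap ρ (tr T x y) w = -w

/-! ### Nilpotent orbits -/

/-- The dimension of the natural representation. -/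
def natDim : Ty → ℕ → ℕ
  | Ty.B, n => 2 * n + 1
  | Ty.C, n => 2 * n
  | Ty.D, n => 2 * n

/-- `l` is a partition of `N`: a weakly decreasing sequence of parts followed by zeros. -/
def IsPart (N : ℕ) (l : ℕ → ℕ) : Prop :=
  Antitone l ∧ (∀ i, N ≤ i → l i = 0) ∧ ∑ i ∈ range N, l i = N

/-- The multiplicity of `j > 0` as a part of the partition `l` of `N`. -/
def mult (N : ℕ) (l : ℕ → ℕ) (j : ℕ) : ℕ := ((range N).filter fun i => l i = j).card

/-- The parts `j` for which the centraliser has a symplectic factor: the odd ones in type `C`, the
even ones in types `B` and `D`. -/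
def Sympl : Ty → ℕ → Prop
  | Ty.B, j => Even j
  | Ty.C, j => Odd j
  | Ty.D, j => Even j

/-- Nilpotent orbits: partitions in which the parts with a symplectic factor have even
multiplicity. -/
def IsOrbit (T : Ty) (n : ℕ) (l : ℕ → ℕ) : Prop :=
  IsPart (natDim T n) l ∧ ∀ j, 0 < j → Sympl T j → Even (mult (natDim T n) l j)

/-- Solvable orbits: no part has a symplectic factor and all multiplicities are at most two. -/
def IsSolvableOrbit (T : Ty) (n : ℕ) (l : ℕ → ℕ) : Prop :=
  IsOrbit T n l ∧ ∀ j, 0 < j → mult (natDim T n) l j ≠ 0 →
    ¬ Sympl T j ∧ mult (natDim T n) l j ≤ 2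

/-- The dominance order `l ≤ m`; on nilpotent orbits it is the closure order. -/
def Dom (l m : ℕ → ℕ) : Prop := ∀ p, ∑ i ∈ range p, l i ≤ ∑ i ∈ range p, m i

/-- The transposed partition of the partition `l` of `N`. -/
def transp (N : ℕ) (l : ℕ → ℕ) (j : ℕ) : ℕ := ((range N).filter fun i => j < l i).card

/-- `l` is the minimal solvable orbit: the least solvable orbit in the closure order. -/
def IsMinSolvable (T : Ty) (n : ℕ) (l : ℕ → ℕ) : Prop :=
  IsSolvableOrbit T n l ∧ ∀ m, IsSolvableOrbit T n m → Dom l m

/-- `m` is the dual `d(l)`: the largest orbit dominated by the transpose of `l`. -/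
def IsDual (T : Ty) (n : ℕ) (l m : ℕ → ℕ) : Prop :=
  IsOrbit T n m ∧ Dom m (transp (natDim T n) l) ∧
    ∀ m', IsOrbit T n m' → Dom m' (transp (natDim T n) l) → Dom m' m

/-! ### Families -/

/-- The entries of the symbol of the Springer character of the orbit `l`. In types `B` and `D`
write `l` as `l_1 ≤ ... ≤ l_N`, `N = 2n+1` or `2n`, and put `l*_i = l_i + i - 1`; the odd numbers
`l*_i` are `2 ξ* + 1`, the even ones are `2 η*`, and the rows of the symbol are formed by the `ξ*`
and the `η*`. In type `C` write `l` as `l_1 ≤ ... ≤ l_{2n}` and form the `n` numbers `ξ*` and the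
`n` numbers `η*` in the same way; the rows of the symbol are `0, ξ*_1 + 1, ..., ξ*_n + 1` and
`η*_1, ..., η*_n`. So the entries are the numbers `⌊(l_i + i - 1) / 2⌋` in types `B` and `D`,
and `0` and the numbers `⌊(l_i + i) / 2⌋` in type `C`. -/
def orbitEntries : Ty → ℕ → (ℕ → ℕ) → Multiset ℕ
  | Ty.B, n, l => (Multiset.range (2 * n + 1)).map fun i => (l (2 * n - i) + i) / 2
  | Ty.C, n, l => 0 ::ₘ (Multiset.range (2 * n)).map fun i => (l (2 * n - 1 - i) + (i + 1)) / 2
  | Ty.D, n, l => (Multiset.range (2 * n)).map fun i => (l (2 * n - 1 - i) + i) / 2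

/-- The entries of the symbol of the bipartition `(a ; b)` of `n`. In types `B` and `C` the first
row has the `n + 1` entries `a_k + k - 1` and the second row the `n` entries `b_k + k - 1`, in type
`D` both rows have `n` such entries; here the parts are written in weakly increasing order. -/
def symbolEntries : Ty → ℕ → (ℕ → ℕ) → (ℕ → ℕ) → Multiset ℕ
  | Ty.B, n, a, b => ((Multiset.range (n + 1)).map fun i => a (n - i) + i) +
      (Multiset.range n).map fun i => b (n - 1 - i) + i
  | Ty.C, n, a, b => ((Multiset.range (n + 1)).map fun i => a (n - i) + i) +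
      (Multiset.range n).map fun i => b (n - 1 - i) + i
  | Ty.D, n, a, b => ((Multiset.range n).map fun i => a (n - 1 - i) + i) +
      (Multiset.range n).map fun i => b (n - 1 - i) + i

/-- `(a ; b)` is a bipartition of `n`. -/
def IsBipart (n : ℕ) (a b : ℕ → ℕ) : Prop :=
  Antitone a ∧ Antitone b ∧ (∀ i, n ≤ i → a i = 0 ∧ b i = 0) ∧
    ∑ i ∈ range n, (a i + b i) = n

/-- The bipartition `(a ; b)` labels a character in the family of the orbit `l`. -/
def InFamily (T : Ty) (n : ℕ) (l a b : ℕ → ℕ) : Prop :=
  IsBipart n a b ∧ symbolEntries T n a b = orbitEntries T n l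

/-- The representation `ρ` contains all irreducible representations in the family of the orbit
`l`. -/
def ContainsFamily (T : Ty) (n : ℕ) (l : ℕ → ℕ) {M : Type*} [AddCommGroup M] [Module ℂ M]
    (ρ : Representation ℂ (Weyl T n) M) : Prop :=
  ∀ (V : Type) [AddCommGroup V] [Module ℂ V] (σ : Representation ℂ (Weyl T n) V),
    σ.IsIrreducible → (∃ a b, InFamily T n l a b ∧ HasLab σ a b) → Contains ρ σ

end Pool.Agent.Helper310_Saxl
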