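import Mathlib
import Pool.Agent.Helper310_Saxl.Defs
import Pool.Agent.Helper310_Saxl.Label

/-!
# The Weyl groups as groups of signed permutations
-/

namespace Pool.Agent.Helper310_Saxl

open Equiv Finset Representation

variable {T : Ty} {n : ℕ}

lemma weyl_mul_sgn (g h : Weyl T n) (i : Fin n) :
    (g * h).sgn i = g.sgn i * h.sgn (g.perm⁻¹ i) := rfl

lemma weyl_mul_perm (g h : Weyl T n) : (g * h).perm = g.perm * h.perm := rfl

lemma weyl_one_sgn (i : Fin n) : (1 : Weyl T n).sgn i = 1 := rfl

lemma weyl_one_perm : (1 : Weyl T n).perm = 1 := rfl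

/-- The Weyl group contains the permutations and acts by signed permutations. -/
def sgrp (T : Ty) (n : ℕ) : SGrp (Fin n) (Weyl T n) where
  φ :=
    { toFun := fun g => ⟨g.sgn, g.perm⟩
      map_one' := rfl
      map_mul' := fun _ _ => rfl }
  σ :=
    { toFun := fun π => ⟨fun _ => 1, π, fun _ => Finset.prod_const_one⟩
      map_one' := rfl
      map_mul' := fun π π' => by
        ext i
        · simp [weyl_mul_sgn]
        · simp [weyl_mul_perm] }
  hσ _ := rfl
  hinj := by
    intro g h hgh
    have h1 := congrArg SemidirectProduct.left hgh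
    have h2 := congrArg SemidirectProduct.right hgh
    exact Weyl.ext h1 h2

lemma finite_weyl (T : Ty) (n : ℕ) : Finite (Weyl T n) :=
  Finite.of_injective _ (sgrp T n).hinj

lemma hasLab_of_hasLabel {V : Type*} [AddCommGroup V] [Module ℂ V]
    (ρ : Representation ℂ (Weyl T n) V) (a b : ℕ → ℕ) (h : HasLabel (sgrp T n) ρ a b) :
    HasLab ρ a b := by
  obtain ⟨t, h1, h2, v, w, hv, hw, hvw, hww, h3, h4⟩ := h
  refine ⟨t, ⟨h1, h2⟩, ⟨v, hv, ?_, ?_⟩, w, hw, ?_, ?_⟩
  · intro g hg
    exact hvw g hg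
  · intro x y hxy
    exact h3 x y hxy.1 hxy.2
  · intro g hg
    exact hww g hg
  · intro x y hne hxy
    exact h4 x y hne hxy.1 hxy.2

end Pool.Agent.Helper310_Saxl
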