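import Mathlib

/-!
# Irreducible quotients and tensor products
-/

namespace Pool.Agent.Helper310_Saxl

open Representation
open scoped TensorProduct

section

variable {Γ : Type*} [Group Γ] [Finite Γ] {V : Type*} [AddCommGroup V] [Module ℂ V]
  {ρ : Representation ℂ Γ V}

/-- the equivariant projection to a subrepresentation -/
lemma exists_proj (Q : Subrepresentation ρ) :
    ∃ (Q' : Subrepresentation ρ) (p : IntertwiningMap ρ Q.toRepresentation),
      (∀ x (hx : x ∈ Q.toSubmodule), (p x : V) = x) ∧
      (∀ x, p x = 0 → x ∈ Q'.toSubmodule) ∧ Q ⊓ Q' = ⊥ := by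
  haveI : NeZero (Nat.card Γ : ℂ) := ⟨by
    rw [Nat.cast_ne_zero]; exact Nat.card_pos.ne'⟩
  obtain ⟨Q', hQ'⟩ := exists_isCompl Q
  have hc : IsCompl Q.toSubmodule Q'.toSubmodule := by
    constructor
    · rw [disjoint_iff, ← Subrepresentation.toSubmodule_inf, hQ'.inf_eq_bot]; rfl
    · rw [codisjoint_iff, ← Subrepresentation.toSubmodule_sup, hQ'.sup_eq_top]; rfl
  have hint : ∀ (g : Γ) (v : V), (Q.toSubmodule.projectionOnto Q'.toSubmodule hc) (ρ g v) =
      Q.toRepresentation g ((Q.toSubmodule.projectionOnto Q'.toSubmodule hc) v) := by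
    intro g v
    obtain ⟨a, b, hab, _⟩ := Submodule.existsUnique_add_of_isCompl hc v
    rw [← hab, map_add, map_add, map_add, Submodule.projectionOnto_apply_left,
      Submodule.projectionOnto_apply_right, add_zero,
      Submodule.projectionOnto_apply_of_mem_left hc (Q.apply_mem_toSubmodule g a.2),
      Submodule.projectionOnto_apply_of_mem_right hc (Q'.apply_mem_toSubmodule g b.2), add_zero]
    rfl
  refine ⟨Q', (Q.toSubmodule.projectionOnto Q'.toSubmodule hc).intertwiningMap_of_isIntertwiningMap
    ρ Q.toRepresentation hint, ?_, ?_, hQ'.inf_eq_bot⟩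
  · intro x hx
    rw [LinearMap.toIntertwiningMap, Submodule.projectionOnto_apply_of_mem_left hc hx]
  · intro x hx
    rw [LinearMap.toIntertwiningMap] at hx
    exact (Submodule.projectionOnto_apply_eq_zero_iff hc).1 hx

/-- a nonzero vector has a nonzero image under a map to an irreducible representation -/
theorem exists_irr [FiniteDimensional ℂ V] (a : V) (ha : a ≠ 0) :
    ∃ (P : Subrepresentation ρ), IsIrreducible P.toRepresentation ∧
      ∃ p : IntertwiningMap ρ P.toRepresentation, p a ≠ 0 := by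
  classical
  -- choose `P` of minimal dimension
  let T : Set ℕ := {d | ∃ P : Subrepresentation ρ, Module.finrank ℂ P.toSubmodule = d ∧
    ∃ p : IntertwiningMap ρ P.toRepresentation, p a ≠ 0}
  have hT : T.Nonempty := by
    refine ⟨_, ⊤, rfl, ?_⟩
    obtain ⟨Q', p, hp1, _, _⟩ := exists_proj (⊤ : Subrepresentation ρ)
    refine ⟨p, ?_⟩
    intro h0
    have := hp1 a (Submodule.mem_top : a ∈ (⊤ : Submodule ℂ V))
    rw [h0] at this
    exact ha (by simpa using this.symm)
  obtain ⟨P, hPd, p, hp⟩ := Nat.sInf_mem hT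
  have hmin : ∀ Q : Subrepresentation ρ, Q.toSubmodule < P.toSubmodule →
      ∀ q : IntertwiningMap ρ Q.toRepresentation, q a = 0 := by
    intro Q hQ q
    by_contra hcon
    have h1 : sInf T ≤ Module.finrank ℂ Q.toSubmodule := Nat.sInf_le ⟨Q, rfl, q, hcon⟩
    have h2 := Submodule.finrank_lt_finrank_of_lt hQ
    omega
  refine ⟨P, ?_, p, hp⟩
  -- the inclusion
  let i : IntertwiningMap P.toRepresentation ρ :=
    P.toSubmodule.subtype.intertwiningMap_of_isIntertwiningMap P.toRepresentation ρ
      (fun g v => rfl)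
  haveI : Nontrivial (Subrepresentation P.toRepresentation) := by
    refine ⟨⊥, ⊤, ?_⟩
    intro h0
    have h1 : (⊥ : Subrepresentation P.toRepresentation).toSubmodule =
      (⊤ : Subrepresentation P.toRepresentation).toSubmodule := by rw [h0]
    have h2 : p a ∈ (⊤ : Submodule ℂ P.toSubmodule) := Submodule.mem_top
    have h3 : (⊥ : Submodule ℂ P.toSubmodule) = ⊤ := h1
    rw [← h3, Submodule.mem_bot] at h2
    exact hp h2
  refine { eq_bot_or_eq_top := ?_ }
  intro M
  by_contra hcon
  push Not at hcon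
  -- the image of `M` in `V`
  let Q : Subrepresentation ρ :=
    { toSubmodule := M.toSubmodule.map P.toSubmodule.subtype
      apply_mem_toSubmodule := by
        rintro g _ ⟨x, hx, rfl⟩
        exact ⟨P.toRepresentation g x, M.apply_mem_toSubmodule g hx, rfl⟩ }
  have hQP : Q.toSubmodule < P.toSubmodule := by
    refine lt_of_le_of_ne (Submodule.map_subtype_le _ _) ?_
    intro h0
    apply hcon.2
    apply Subrepresentation.toSubmodule_injective
    show M.toSubmodule = ⊤
    rw [eq_top_iff]
    intro x _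
    have : (x : V) ∈ Q.toSubmodule := by rw [h0]; exact x.2
    obtain ⟨y, hy, hyx⟩ := this
    have : y = x := Subtype.ext hyx
    rwa [← this]
  obtain ⟨Q', q, hq1, hq2, hq3⟩ := exists_proj Q
  -- the map to `Q` kills `p a`
  have h1 : q (i (p a)) = 0 := hmin Q hQP ((q.comp i).comp p)
  have h2 := hq2 _ h1
  have h3 : (i (p a) : V) ∈ (Q' ⊓ P).toSubmodule := ⟨h2, (p a).2⟩
  have hQ'P : (Q' ⊓ P).toSubmodule < P.toSubmodule := by
    refine lt_of_le_of_ne (fun x hx => hx.2) ?_
    intro h0
    apply hcon.1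
    apply Subrepresentation.toSubmodule_injective
    show M.toSubmodule = ⊥
    rw [eq_bot_iff]
    intro x hx
    have h4 : (x : V) ∈ Q.toSubmodule := ⟨x, hx, rfl⟩
    have h5 : (x : V) ∈ (Q' ⊓ P).toSubmodule := by rw [h0]; exact x.2
    have h6 : (x : V) ∈ (Q ⊓ Q').toSubmodule := ⟨h4, h5.1⟩
    rw [hq3] at h6
    have h7 : (x : V) = 0 := (Submodule.mem_bot ℂ).1 h6
    rw [Submodule.mem_bot]
    exact Subtype.ext h7
  obtain ⟨_, r, hr1, _, _⟩ := exists_proj (Q' ⊓ P)
  have h4 := hmin (Q' ⊓ P) hQ'P ((r.comp i).comp p)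
  have h5 := hr1 _ h3
  have h6 : r (i (p a)) = 0 := h4
  rw [h6] at h5
  apply hp
  have h7 : (p a : V) = 0 := by
    have : (i (p a) : V) = 0 := by rw [← h5]; rfl
    exact this
  exact Subtype.ext h7

end

section

variable {A B : Type*} [AddCommGroup A] [Module ℂ A] [AddCommGroup B] [Module ℂ B]

/-- a nonzero tensor has a nonzero contraction -/
lemma exists_contr_right (t : A ⊗[ℂ] B) (ht : t ≠ 0) :
    ∃ φ : Module.Dual ℂ B, TensorProduct.rid ℂ A (LinearMap.lTensor A φ t) ≠ 0 := by
  classical
  by_contra hcon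
  push Not at hcon
  apply ht
  let b := Module.Basis.ofVectorSpace ℂ B
  have key : ∀ (t : A ⊗[ℂ] B) i, TensorProduct.equivFinsuppOfBasisRight b t i =
      TensorProduct.rid ℂ A (LinearMap.lTensor A (b.coord i) t) := by
    intro t i
    induction t using TensorProduct.induction_on with
    | zero => simp
    | tmul x y => simp
    | add x y hx hy => rw [map_add, Finsupp.add_apply, hx, hy, map_add, map_add]
  have h1 : TensorProduct.equivFinsuppOfBasisRight b t = 0 := by
    ext i
    rw [key, hcon]; rfl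
  exact (LinearEquiv.map_eq_zero_iff _).1 h1

lemma exists_contr_left (t : A ⊗[ℂ] B) (ht : t ≠ 0) :
    ∃ φ : Module.Dual ℂ A, TensorProduct.lid ℂ B (LinearMap.rTensor B φ t) ≠ 0 := by
  obtain ⟨φ, hφ⟩ := exists_contr_right (TensorProduct.comm ℂ A B t)
    (fun h => ht ((LinearEquiv.map_eq_zero_iff _).1 h))
  refine ⟨φ, ?_⟩
  intro h0
  apply hφ
  rw [← h0]
  clear h0 hφ ht
  induction t using TensorProduct.induction_on with
  | zero => simp
  | tmul x y => simp
  | add x y hx hy => simp only [map_add, hx, hy]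

end

section

variable {Γ : Type*} [Group Γ] [Finite Γ] {A B : Type*} [AddCommGroup A] [Module ℂ A]
  [AddCommGroup B] [Module ℂ B] [FiniteDimensional ℂ A] [FiniteDimensional ℂ B]
  {ρA : Representation ℂ Γ A} {ρB : Representation ℂ Γ B}

/-- a nonzero tensor has a nonzero image in a tensor product of irreducible representations -/
theorem exists_irr_tensor (t : A ⊗[ℂ] B) (ht : t ≠ 0) :
    ∃ (P : Subrepresentation ρA) (Q : Subrepresentation ρB),
      IsIrreducible P.toRepresentation ∧ IsIrreducible Q.toRepresentation ∧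
      ∃ (p : IntertwiningMap ρA P.toRepresentation) (q : IntertwiningMap ρB Q.toRepresentation),
        TensorProduct.map p.toLinearMap q.toLinearMap t ≠ 0 := by
  obtain ⟨φ, hφ⟩ := exists_contr_right t ht
  obtain ⟨P, hP, p, hp⟩ := exists_irr (ρ := ρA) _ hφ
  have h1 : LinearMap.rTensor B p.toLinearMap t ≠ 0 := by
    intro h0
    apply hp
    have key : ∀ t : A ⊗[ℂ] B, p (TensorProduct.rid ℂ A (LinearMap.lTensor A φ t)) =
        TensorProduct.rid ℂ P.toSubmodule (LinearMap.lTensor P.toSubmodule φ
          (LinearMap.rTensor B p.toLinearMap t)) := by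
      intro t
      induction t using TensorProduct.induction_on with
      | zero => simp
      | tmul x y => simp
      | add x y hx hy => simp only [map_add, hx, hy]
    rw [key, h0]; simp
  obtain ⟨χ, hχ⟩ := exists_contr_left _ h1
  obtain ⟨Q, hQ, q, hq⟩ := exists_irr (ρ := ρB) _ hχ
  refine ⟨P, Q, hP, hQ, p, q, ?_⟩
  intro h0
  apply hq
  have key : ∀ t : A ⊗[ℂ] B, q (TensorProduct.lid ℂ B (LinearMap.rTensor B χ
      (LinearMap.rTensor B p.toLinearMap t))) =
      TensorProduct.lid ℂ Q.toSubmodule (LinearMap.rTensor Q.toSubmodule χ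
        (TensorProduct.map p.toLinearMap q.toLinearMap t)) := by
    intro t
    induction t using TensorProduct.induction_on with
    | zero => simp
    | tmul x y => simp
    | add x y hx hy => simp only [map_add, hx, hy]
  rw [key, h0]; simp

end

end Pool.Agent.Helper310_Saxl
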