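import Mathlib
import Pool.Agent.Helper310_Saxl.BoxBoard
import Pool.Agent.Helper310_Saxl.BoxLabel
import Pool.Agent.Helper310_Saxl.Split

/-!
# The main theorem for rectangular boards
-/

namespace Pool.Agent.Helper310_Saxl

open Equiv Finset Representation
open scoped TensorProduct

variable {X : Type*} [Fintype X] [DecidableEq X] {Γ : Type*} [Group Γ] [Fintype Γ]
  {V : Type*} [AddCommGroup V] [Module ℂ V]

section comp

variable (S : SGrp X Γ) (ρ : Representation ℂ Γ V)

open scoped Classical in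
/-- the (non-normalised) projection to the weight `B` -/
noncomputable def comp (B : Finset X) (v : V) : V :=
  ∑ t ∈ univ.filter (fun t : Γ => (S.φ t).right = 1),
    (((∏ x ∈ B, (S.φ t).left x : ℤˣ) : ℤ) : ℂ) • ρ t v

omit [DecidableEq X] [Fintype X] [Fintype Γ] in
lemma right_one_mul {g t : Γ} (hg : (S.φ g).right = 1) :
    (S.φ (g * t)).right = (S.φ t).right ∧
      (S.φ (g * t)).left = (S.φ g).left * (S.φ t).left := by
  rw [map_mul]
  constructor
  · rw [SemidirectProduct.mul_right, hg, one_mul]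
  · rw [SemidirectProduct.mul_left, hg, map_one]; rfl

lemma comp_weight (B : Finset X) (v : V) : HasWeight S ρ B (comp S ρ B v) := by
  classical
  intro g hg
  unfold comp
  rw [map_sum, Finset.smul_sum]
  refine Finset.sum_bij (fun t _ => g * t) ?_ ?_ ?_ ?_
  · intro t ht
    rw [Finset.mem_filter] at ht ⊢
    exact ⟨Finset.mem_univ _, by rw [(right_one_mul S hg).1]; exact ht.2⟩
  · intro a _ b _ hab; exact mul_left_cancel hab
  · intro t ht
    rw [Finset.mem_filter] at ht
    refine ⟨g⁻¹ * t, Finset.mem_filter.2 ⟨Finset.mem_univ _, ?_⟩, by simp⟩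
    rw [(right_one_mul S (g := g⁻¹) (by rw [map_inv, SemidirectProduct.inv_right, hg, inv_one])).1]
    exact ht.2
  · intro t ht
    rw [map_smul, ← Module.End.mul_apply, ← map_mul, smul_smul]
    congr 1
    rw [(right_one_mul S hg).2]
    simp only [Pi.mul_apply, Finset.prod_mul_distrib]
    have h1 : (((∏ x ∈ B, (S.φ g).left x : ℤˣ) : ℤ) : ℂ) *
        (((∏ x ∈ B, (S.φ g).left x : ℤˣ) : ℤ) : ℂ) = 1 := by
      rw [← Int.cast_mul, ← Units.val_mul, Int.units_mul_self]; simp
    rw [Units.val_mul, Int.cast_mul]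
    linear_combination (-(((∏ x ∈ B, (S.φ t).left x : ℤˣ) : ℤ) : ℂ)) * h1

omit [Fintype Γ] [DecidableEq X] [Fintype X] in
lemma conj_perm (π : Perm X) {t : Γ} (ht : (S.φ t).right = 1) :
    S.φ (S.σ π * t * (S.σ π)⁻¹) = SemidirectProduct.inl ((act X π) (S.φ t).left) := by
  rw [map_mul, map_mul, map_inv, S.hσ]
  ext
  · simp [SemidirectProduct.mul_left, SemidirectProduct.inv_left]
  · simp [ht]

lemma comp_perm (B : Finset X) (v : V) (π : Perm X) (hπ : ∀ x, π x ∈ B ↔ x ∈ B) :
    ρ (S.σ π) (comp S ρ B v) = comp S ρ B (ρ (S.σ π) v) := by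
  classical
  unfold comp
  rw [map_sum]
  refine Finset.sum_bij (fun t _ => S.σ π * t * (S.σ π)⁻¹) ?_ ?_ ?_ ?_
  · intro t ht
    rw [Finset.mem_filter] at ht ⊢
    refine ⟨Finset.mem_univ _, ?_⟩
    rw [conj_perm S π ht.2]; rfl
  · intro a _ b _ hab
    exact mul_left_cancel (mul_right_cancel hab)
  · intro t ht
    rw [Finset.mem_filter] at ht
    refine ⟨(S.σ π)⁻¹ * t * S.σ π, Finset.mem_filter.2 ⟨Finset.mem_univ _, ?_⟩, by group⟩
    have := conj_perm S π⁻¹ ht.2
    rw [map_inv, inv_inv] at this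
    rw [this]; rfl
  · intro t ht
    rw [Finset.mem_filter] at ht
    rw [map_smul, ← Module.End.mul_apply, ← map_mul, ← Module.End.mul_apply, ← map_mul,
      inv_mul_cancel_right]
    congr 2
    have h2 : ∏ x ∈ B, (S.φ t).left x = ∏ x ∈ B, (S.φ (S.σ π * t * (S.σ π)⁻¹)).left x := by
      rw [conj_perm S π ht.2]
      simp only [SemidirectProduct.left_inl, act_apply]
      refine Finset.prod_bij (fun x _ => π x) ?_ ?_ ?_ ?_
      · intro x hx; exact (hπ x).2 hx
      · intro x _ y _ hxy; exact π.injective hxy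
      · intro y hy
        exact ⟨π⁻¹ y, by rw [← hπ, perm_apply_inv]; exact hy, perm_apply_inv π y⟩
      · intro x _; rw [perm_inv_apply]
    rw [h2]

lemma sum_comp (v : V) :
    ∑ B ∈ (univ : Finset X).powerset, comp S ρ B v = ((2 : ℂ) ^ Fintype.card X) • v := by
  classical
  unfold comp
  rw [Finset.sum_comm]
  have h1 : ∀ t ∈ univ.filter (fun t : Γ => (S.φ t).right = 1),
      ∑ B ∈ (univ : Finset X).powerset,
        (((∏ x ∈ B, (S.φ t).left x : ℤˣ) : ℤ) : ℂ) • ρ t v =
      (∏ x : X, (1 + (((S.φ t).left x : ℤ) : ℂ))) • ρ t v := by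
    intro t _
    rw [← Finset.sum_smul]
    congr 1
    rw [Finset.prod_one_add]
    refine Finset.sum_congr rfl fun B _ => ?_
    rw [Units.coe_prod, Int.cast_prod]
  rw [Finset.sum_congr rfl h1, Finset.sum_eq_single (1 : Γ)]
  · rw [map_one, map_one]
    simp only [SemidirectProduct.one_left, Pi.one_apply, Units.val_one, Int.cast_one,
      Module.End.one_apply, Finset.prod_const, Finset.card_univ]
    norm_num
  · intro t ht hne
    rw [Finset.mem_filter] at ht
    obtain ⟨x, hx⟩ : ∃ x, (S.φ t).left x ≠ 1 := by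
      by_contra hcon
      push Not at hcon
      apply hne
      apply S.hinj
      rw [map_one]
      refine SemidirectProduct.ext ?_ ht.2
      funext x; exact hcon x
    have h2 : (S.φ t).left x = -1 := (Int.units_eq_one_or _).resolve_left hx
    rw [Finset.prod_eq_zero (Finset.mem_univ x) (by rw [h2]; simp), zero_smul]
  · intro h
    exfalso
    apply h
    rw [Finset.mem_filter, map_one]
    exact ⟨Finset.mem_univ _, rfl⟩

/-- a vector with signs under the permutations of the blocks has a component with signs under the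
permutations which preserve its weight -/
lemma exists_comp (K : Subgroup (Perm X)) (v : V) (hv : v ≠ 0)
    (hK : ∀ π ∈ K, ρ (S.σ π) v = v ∨ ρ (S.σ π) v = -v) :
    ∃ (B : Finset X) (y : V), y ≠ 0 ∧ HasWeight S ρ B y ∧
      ∀ π ∈ K, (∀ x, π x ∈ B ↔ x ∈ B) → ρ (S.σ π) y = y ∨ ρ (S.σ π) y = -y := by
  classical
  obtain ⟨B, hB⟩ : ∃ B : Finset X, comp S ρ B v ≠ 0 := by
    by_contra hcon
    push Not at hcon
    have h1 := sum_comp S ρ v
    rw [Finset.sum_eq_zero (fun B _ => hcon B)] at h1
    rcases smul_eq_zero.1 h1.symm with h2 | h2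
    · exact pow_ne_zero _ two_ne_zero h2
    · exact hv h2
  refine ⟨B, comp S ρ B v, hB, comp_weight S ρ B v, ?_⟩
  intro π hπ hπB
  rw [comp_perm S ρ B v π hπB]
  rcases hK π hπ with h | h
  · left; rw [h]
  · right; rw [h]
    unfold comp
    rw [← Finset.sum_neg_distrib]
    refine Finset.sum_congr rfl fun t _ => ?_
    rw [map_neg, smul_neg]

end comp

/-- From the embedding theorem to irreducible constituents. -/
theorem embed_irr {X : Type} [Fintype X] [DecidableEq X] {Γ : Type*} [Group Γ] [Fintype Γ]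
    (β : Board X) (S : SGrp X Γ) {U : Type*} [AddCommGroup U] [Module ℂ U]
    (ρU : Representation ℂ Γ U) (B : Finset X) (y : U) (hy0 : y ≠ 0)
    (hT : HasWeight S ρU B y)
    (hS : ∀ π ∈ β.Sb, (∀ x, π x ∈ B ↔ x ∈ B) → ρU (S.σ π) y = y ∨ ρU (S.σ π) y = -y)
    {M : Type*} [AddCommGroup M] [Module ℂ M] (ρM : Representation ℂ Γ M)
    (hM : ∀ (ψ : Type) [AddCommGroup ψ] [Module ℂ ψ] (ρψ : Representation ℂ Γ ψ),
      IsIrreducible ρψ → (∃ (Q : Finset X) (p : IntertwiningMap (S.repG Q) ρψ) (g : Perm X),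
        Phi β S Q p g ≠ 0) → ∃ f : IntertwiningMap ρψ ρM, f ≠ 0) :
    ∃ f : IntertwiningMap ρU (ρM.tprod ρM), f ≠ 0 := by
  classical
  obtain ⟨P1, P2, v1, v2, hv, T, hT0, hTspan⟩ := embed β S ρU B y hy0 hT hS
  obtain ⟨x, hx⟩ : ∃ x, T x ≠ 0 := by
    by_contra hcon
    push Not at hcon
    apply hT0
    apply IntertwiningMap.ext
    ext x
    exact hcon x
  obtain ⟨A1, A2, hA1, hA2, p, q, hpq⟩ := exists_irr_tensor (ρA := S.repG P1) (ρB := S.repG P2)
    (T x) hx
  -- the pure tensor is not killed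
  have hz : p (FF (incl P1) v1) ≠ 0 ∧ q (FF (incl P2) v2) ≠ 0 := by
    by_contra hcon
    have h0 : TensorProduct.map p.toLinearMap q.toLinearMap
        (FF (incl P1) v1 ⊗ₜ[ℂ] FF (incl P2) v2) = 0 := by
      rw [TensorProduct.map_tmul]
      rw [not_and_or, not_not, not_not] at hcon
      rcases hcon with h | h
      · have h' : p.toLinearMap (FF (incl P1) v1) = 0 := h
        rw [h', TensorProduct.zero_tmul]
      · have h' : q.toLinearMap (FF (incl P2) v2) = 0 := h
        rw [h', TensorProduct.tmul_zero]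
    apply hpq
    have hker : ∀ w ∈ Submodule.span ℂ (Set.range fun g =>
        ((S.repG P1).tprod (S.repG P2)) g (FF (incl P1) v1 ⊗ₜ[ℂ] FF (incl P2) v2)),
        TensorProduct.map p.toLinearMap q.toLinearMap w = 0 := by
      intro w hw
      induction hw using Submodule.span_induction with
      | mem w hw =>
        obtain ⟨g, rfl⟩ := hw
        have h1 := IntertwiningMap.isIntertwining _ _ (p.tensor q) g
          (FF (incl P1) v1 ⊗ₜ[ℂ] FF (incl P2) v2)
        have h2 : ∀ w, (p.tensor q) w = TensorProduct.map p.toLinearMap q.toLinearMap w :=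
          fun w => rfl
        rw [h2, h2, h0, map_zero] at h1
        exact h1
      | zero => simp
      | add a b _ _ ha hb => rw [map_add, ha, hb, add_zero]
      | smul c a _ ha => rw [map_smul, ha, smul_zero]
    exact hker _ (hTspan x)
  -- some translate of `u` is not killed
  have hPhi : ∀ (Q : Finset X) (ψ : Type) [AddCommGroup ψ] [Module ℂ ψ]
      (ρψ : Representation ℂ Γ ψ) (p : IntertwiningMap (S.repG Q) ρψ) (v : Perm X → ℂ),
      v ∈ Submodule.span ℂ (Set.range fun r => repV X r β.uu) → p (FF (incl Q) v) ≠ 0 →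
      ∃ g, Phi β S Q p g ≠ 0 := by
    intro Q ψ _ _ ρψ p v hv hpv
    by_contra hcon
    push Not at hcon
    apply hpv
    induction hv using Submodule.span_induction with
    | mem w hw =>
      obtain ⟨g, rfl⟩ := hw
      exact hcon g
    | zero => simp
    | add a b _ _ ha hb =>
      rw [map_add, map_add]
      by_cases h1 : p (FF (incl Q) a) = 0
      · by_cases h2 : p (FF (incl Q) b) = 0
        · rw [h1, h2, add_zero]
        · exact absurd (hb h2) h2
      · exact absurd (ha h1) h1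
    | smul c a _ ha =>
      rw [map_smul, map_smul]
      by_cases h1 : p (FF (incl Q) a) = 0
      · rw [h1, smul_zero]
      · exact absurd (ha h1) h1
  obtain ⟨g1, hg1⟩ := hPhi P1 _ _ p v1 (by simpa using hv true) hz.1
  obtain ⟨g2, hg2⟩ := hPhi P2 _ _ q v2 (by simpa using hv false) hz.2
  obtain ⟨f1, hf1⟩ := hM _ _ hA1 ⟨P1, p, g1, hg1⟩
  obtain ⟨f2, hf2⟩ := hM _ _ hA2 ⟨P2, q, g2, hg2⟩
  have hinj1 : Function.Injective f1 := (IsIrreducible.injective_or_eq_zero f1).resolve_right hf1
  have hinj2 : Function.Injective f2 := (IsIrreducible.injective_or_eq_zero f2).resolve_right hf2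
  refine ⟨((f1.tensor f2).comp (p.tensor q)).comp T, ?_⟩
  intro h0
  apply hpq
  have h1 : TensorProduct.map f1.toLinearMap f2.toLinearMap
      (TensorProduct.map p.toLinearMap q.toLinearMap (T x)) = 0 := by
    have := congrArg (fun F : IntertwiningMap ρU (ρM.tprod ρM) => F x) h0
    exact this
  have h2 : Function.Injective (TensorProduct.map f1.toLinearMap f2.toLinearMap) :=
    TensorProduct.map_injective_of_flat_flat _ _ hinj1 hinj2
  exact h2 (by rw [h1, map_zero])

/-- **Main theorem.** -/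
theorem main_box {X : Type} [Fintype X] [DecidableEq X] {Γ : Type*} [Group Γ] [Fintype Γ]
    {r k : ℕ} (h1 : k ≤ r) (h2 : r ≤ k + 1) (e : X ≃ Fin r × Fin k)
    (S : SGrp X Γ) {U : Type*} [AddCommGroup U] [Module ℂ U]
    (ρU : Representation ℂ Γ U) (hU : ∃ v : U, v ≠ 0)
    {M : Type*} [AddCommGroup M] [Module ℂ M] (ρM : Representation ℂ Γ M)
    (hM : ∀ (ψ : Type) [AddCommGroup ψ] [Module ℂ ψ] (ρψ : Representation ℂ Γ ψ),
      IsIrreducible ρψ → (∃ a : ℕ → ℕ, Antitone a ∧ (∀ i, r ≤ i → a i = 0) ∧ (∀ i, a i ≤ k) ∧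
        HasLabel S ρψ a (conjCompl r k a)) → ∃ f : IntertwiningMap ρψ ρM, f ≠ 0) :
    ∃ f : IntertwiningMap ρU (ρM.tprod ρM), f ≠ 0 := by
  classical
  let β := boxBoard h1 h2 e
  -- peeling
  obtain ⟨v0, hv0⟩ := hU
  have hb : ∀ h m, ((univ : Finset X).filter fun x => (β.hf x, β.b x) = (h, m)).card =
      if 1 ≤ m ∧ m ≤ β.K h then m else 0 := by
    intro h m
    have := β.hb h m
    rw [Finset.filter_filter] at this
    rw [← this]
    congr 1
    ext x
    simp [Prod.ext_iff]
  obtain ⟨v, _, hv, θ, hθ, hvθ⟩ := peel_all (S.res ρU) β.K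
    (by
      show (if true = true then r - 1 else k) ≤ (if false = true then r - 1 else k) + 1 ∧
        (if false = true then r - 1 else k) ≤ (if true = true then r - 1 else k) + 1
      simp only [if_true, Bool.false_eq_true, if_false]
      omega)
    univ (fun x => (β.hf x, β.b x)) hb ⊤
    (by
      intro h0
      apply hv0
      rw [← Submodule.mem_bot ℂ, ← h0]
      exact Submodule.mem_top)
    (fun g _ w _ => Submodule.mem_top)
  have hv' : ∀ π ∈ β.Sb, ρU (S.σ π) v = v ∨ ρU (S.σ π) v = -v := by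
    intro π hπ
    refine young_pm (S.res ρU) (fun x => (β.hf x, β.b x)) v ?_ π ?_
    · intro x y hxy hD
      have h3 := hvθ x (Finset.mem_univ _) y (Finset.mem_univ _) hxy hD
      rcases hθ (β.hf x, β.b x) with h4 | h4
      · left; rw [h3, h4, one_smul]
      · right; rw [h3, h4, neg_one_smul]
    · intro x
      exact Prod.ext (hπ x).1 (hπ x).2
  obtain ⟨B, y, hy0, hyw, hyS⟩ := exists_comp S ρU β.Sb v hv hv'
  refine embed_irr β S ρU B y hy0 hyw hyS ρM ?_
  intro ψ _ _ ρψ hirr hQ
  obtain ⟨Q, p, g, hg⟩ := hQ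
  refine hM ψ ρψ hirr ?_
  have hcard : ∀ i < r, (univ.filter fun x => β.R x = i).card = k := by
    intro i hi
    refine count_cells e _ k (fun i j => j) (fun v => i) (fun v => v) ?_ ?_
    · intro x hx
      exact ⟨colOf_lt e x, hx.symm, rfl⟩
    · intro v hv
      exact ⟨hi, hv, rfl, fun x h _ => h⟩
  obtain ⟨a, ha1, ha2, ha3, ha4⟩ := box_label β (r := r) (k := k) (fun x => rowOf_lt e x)
    (fun x => colOf_lt e x) hcard S Q p g hg
  exact ⟨a, ha1, ha2, ha3, ha4⟩

end Pool.Agent.Helper310_Saxl
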