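import Mathlib
import Pool.Agent.Helper310_Saxl.Defs
import Pool.Agent.Helper310_Saxl.BoxLabel

/-!
# Self-dual solvable orbits and their families
-/

namespace Pool.Agent.Helper310_Saxl

open Finset

/-! ### The shape of self-dual solvable orbits -/

lemma lt_transp {N : ℕ} {l : ℕ → ℕ} (h : Antitone l) (h0 : ∀ i, N ≤ i → l i = 0) (i j : ℕ) :
    j < l i ↔ i < transp N l j := by
  unfold transp
  constructor
  · intro hj
    have h1 : range (i + 1) ⊆ (range N).filter fun i => j < l i := by
      intro z hz
      rw [mem_range] at hz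
      have h2 : j < l z := lt_of_lt_of_le hj (h (by omega))
      rw [mem_filter, mem_range]
      refine ⟨?_, h2⟩
      by_contra hcon
      rw [h0 z (by omega)] at h2
      omega
    have h2 := card_le_card h1
    rw [card_range] at h2
    omega
  · intro hi
    by_contra hcon
    have h1 : ((range N).filter fun i => j < l i) ⊆ range i := by
      intro z hz
      rw [mem_filter] at hz
      rw [mem_range]
      by_contra h3
      have h4 : l z ≤ l i := h (by omega)
      omega
    have h2 := card_le_card h1
    rw [card_range] at h2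
    omega

/-- the parts of the self-dual solvable orbits, counted from the end -/
def cpart : Ty → ℕ → ℕ
  | Ty.B, m => 2 * ((m + 1) / 2) - 1
  | Ty.C, m => 2 * ((m + 1) / 2)
  | Ty.D, m => 2 * ((m + 1) / 2) - 1

section shape

variable {T : Ty} {n : ℕ} {l : ℕ → ℕ}

lemma part_sympl (h : IsSolvableOrbit T n l) {i : ℕ} (hi : 0 < l i) : ¬ Sympl T (l i) := by
  have hN : i < natDim T n := by
    by_contra hcon
    rw [h.1.1.2.1 i (by omega)] at hi
    omega
  refine (h.2 (l i) hi ?_).1
  unfold mult
  have : 0 < ((range (natDim T n)).filter fun j => l j = l i).card :=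
    card_pos.2 ⟨i, mem_filter.2 ⟨mem_range.2 hN, rfl⟩⟩
  omega

lemma sympl_parity {i j : ℕ} (h1 : ¬ Sympl T i) (h2 : ¬ Sympl T j) : i % 2 = j % 2 := by
  cases T <;> simp only [Sympl, Nat.not_even_iff, Nat.not_odd_iff] at h1 h2 <;> omega

lemma part_gap (h : IsSolvableOrbit T n l) {i : ℕ} (hi : 0 < l (i + 2)) :
    l (i + 2) + 2 ≤ l i := by
  have h1 : l (i + 2) ≤ l (i + 1) := h.1.1.1 (by omega)
  have h2 : l (i + 1) ≤ l i := h.1.1.1 (by omega)
  have hN : i + 2 < natDim T n := by
    by_contra hcon
    rw [h.1.1.2.1 (i + 2) (by omega)] at hi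
    omega
  have hne : l (i + 2) ≠ l i := by
    intro heq
    have h3 : ({i, i + 1, i + 2} : Finset ℕ) ⊆
        (range (natDim T n)).filter fun j => l j = l i := by
      intro z hz
      simp only [mem_insert, mem_singleton] at hz
      rw [mem_filter, mem_range]
      rcases hz with rfl | rfl | rfl
      · exact ⟨by omega, rfl⟩
      · exact ⟨by omega, by omega⟩
      · exact ⟨by omega, heq⟩
    have h4 := card_le_card h3
    have h5 : ({i, i + 1, i + 2} : Finset ℕ).card = 3 := by
      rw [card_insert_of_notMem (by simp), card_insert_of_notMem (by simp), card_singleton]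
    rw [h5] at h4
    have h6 : mult (natDim T n) l (l i) = ((range (natDim T n)).filter fun j => l j = l i).card :=
      rfl
    have h7 := (h.2 (l i) (by omega) (by omega)).2
    omega
  have h3 := sympl_parity (part_sympl h (i := i) (by omega)) (part_sympl h hi)
  omega

/-- the lower bound for the parts -/
lemma part_lower (h : IsSolvableOrbit T n l) {L : ℕ} (hL : ∀ i, 0 < l i ↔ i < L) :
    ∀ m i, i + m = L → cpart T m ≤ l i := by
  intro m
  induction m using Nat.strong_induction_on with
  | _ m ih =>
    intro i him
    by_cases h0 : m = 0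
    · subst h0; cases T <;> simp [cpart]
    have hi : 0 < l i := (hL i).2 (by omega)
    have hp := part_sympl h hi
    by_cases h1 : m = 1
    · subst h1
      cases T <;> simp only [cpart, Sympl, Nat.not_even_iff, Nat.not_odd_iff] at hp ⊢ <;> omega
    by_cases h2 : m = 2
    · subst h2
      cases T <;> simp only [cpart, Sympl, Nat.not_even_iff, Nat.not_odd_iff] at hp ⊢ <;> omega
    have h3 : 0 < l (i + 2) := (hL (i + 2)).2 (by omega)
    have h4 := part_gap h h3
    have h5 := ih (m - 2) (by omega) (i + 2) (by omega)
    cases T <;> simp only [cpart] at h5 ⊢ <;> omega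

/-- an upper bound for the parts with every second index -/
lemma part_upper (h : IsSolvableOrbit T n l) {L : ℕ} (hL : ∀ i, 0 < l i ↔ i < L) (i0 : ℕ) :
    ∀ j, i0 + 2 * j < L → l (i0 + 2 * j) + 2 * j ≤ l i0 := by
  intro j
  induction j with
  | zero => intro _; simp
  | succ j ih =>
    intro hj
    have h1 := ih (by omega)
    have h2 := part_gap h (i := i0 + 2 * j) ((hL _).2 (by omega))
    have h3 : i0 + 2 * (j + 1) = i0 + 2 * j + 2 := by ring
    rw [h3]
    omega

lemma sum_parity {L : ℕ} (h : ∀ i < L, l i % 2 = 1) : (∑ i ∈ range L, l i) % 2 = L % 2 := by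
  induction L with
  | zero => simp
  | succ L ih =>
    rw [sum_range_succ]
    have h1 := ih (fun i hi => h i (by omega))
    have h2 := h L (by omega)
    omega

/-- the parts of a solvable orbit which is dominated by its transpose -/
theorem shape (h : IsSolvableOrbit T n l) (hd : Dom l (transp (natDim T n) l)) :
    ∃ k L, (L = match T with | Ty.B => 2 * k + 1 | Ty.C => 2 * k | Ty.D => 2 * k) ∧
      ∀ i, l i = cpart T (L - i) := by
  have hanti := h.1.1.1
  have hzero := h.1.1.2.1
  set N := natDim T n with hN
  set L := transp N l 0 with hL'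
  have hL : ∀ i, 0 < l i ↔ i < L := fun i => lt_transp hanti hzero i 0
  have hlow := part_lower h hL
  have hup := part_upper h hL
  have hLN : L ≤ N := by
    by_contra hcon
    have h1 : 0 < l N := (hL N).2 (by omega)
    rw [hzero N (le_refl _)] at h1
    omega
  have hd1 : l 0 ≤ L := by
    have := hd 1
    simpa using this
  have hsum : ∑ i ∈ range L, l i = N := by
    refine Eq.trans ?_ h.1.1.2.2
    refine sum_subset (range_subset_range.2 hLN) ?_
    intro i _ hi
    rw [mem_range] at hi
    have := hL i
    omega
  have hl0 := hlow L 0 (by omega)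
  have hpar : ∀ i < L, ¬ Sympl T (l i) := fun i hi => part_sympl h ((hL i).2 hi)
  cases T with
  | C =>
    simp only [cpart] at hl0 hlow ⊢
    obtain ⟨k, hk⟩ : ∃ k, L = 2 * k := ⟨L / 2, by omega⟩
    refine ⟨k, L, hk, ?_⟩
    intro i
    by_cases hi : i < L
    · have h1 := hlow (L - i) i (by omega)
      have h2 := hup 0 (i / 2) (by omega)
      have h3 : l i ≤ l (0 + 2 * (i / 2)) := hanti (by omega)
      omega
    · have := hL i
      have h1 : L - i = 0 := by omega
      rw [h1]; omega
  | D =>
    simp only [cpart, Sympl, Nat.not_even_iff] at hl0 hlow hpar ⊢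
    have h0 := sum_parity hpar
    rw [hsum, hN] at h0
    simp only [natDim] at h0
    obtain ⟨k, hk⟩ : ∃ k, L = 2 * k := ⟨L / 2, by omega⟩
    refine ⟨k, L, hk, ?_⟩
    intro i
    by_cases hi : i < L
    · have h1 := hlow (L - i) i (by omega)
      have h2 := hup 0 (i / 2) (by omega)
      have h3 : l i ≤ l (0 + 2 * (i / 2)) := hanti (by omega)
      have h4 := hpar 0 (by omega)
      omega
    · have := hL i
      have h1 : L - i = 0 := by omega
      rw [h1]; omega
  | B =>
    simp only [cpart, Sympl, Nat.not_even_iff] at hl0 hlow hpar ⊢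
    have h0 := sum_parity hpar
    rw [hsum, hN] at h0
    simp only [natDim] at h0
    obtain ⟨k, hk⟩ : ∃ k, L = 2 * k + 1 := ⟨L / 2, by omega⟩
    refine ⟨k, L, hk, ?_⟩
    -- even indices
    have heven : ∀ j, 2 * j < L → l (2 * j) = 2 * k + 1 - 2 * j := by
      intro j hj
      have h1 := hlow (L - 2 * j) (2 * j) (by omega)
      have h2 := hup 0 j (by omega)
      rw [zero_add] at h2
      omega
    -- the second part
    have hl1 : 1 ≤ k → l 1 ≤ 2 * k - 1 := by
      intro hk1
      have h1 := hd 2
      rw [sum_range_succ, sum_range_succ, sum_range_zero, sum_range_succ, sum_range_succ,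
        sum_range_zero, ← hL'] at h1
      have h2 : transp N l 1 ≤ 2 * k := by
        have h3 := lt_transp hanti hzero (2 * k) 1
        have h4 := heven k (by omega)
        omega
      have h5 := heven 0 (by omega)
      have h6 := hpar 1 (by omega)
      rw [mul_zero] at h5
      omega
    intro i
    by_cases hi : i < L
    · rcases Nat.even_or_odd' i with ⟨j, hj | hj⟩
      · rw [hj, heven j (by omega)]
        omega
      · have h1 := hlow (L - i) i (by omega)
        have h2 := hup 1 j (by omega)
        have h3 := hl1 (by omega)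
        have h4 : 1 + 2 * j = i := by omega
        rw [h4] at h2
        omega
    · have := hL i
      have h1 : L - i = 0 := by omega
      rw [h1]; omega

end shape

/-- the sum of the parts -/
lemma sum_cpart_C (k : ℕ) : ∑ m ∈ range (2 * k), cpart Ty.C (m + 1) = 2 * ((k + 1) * k) := by
  induction k with
  | zero => simp
  | succ k ih =>
    have h1 : 2 * (k + 1) = 2 * k + 1 + 1 := by ring
    rw [h1, sum_range_succ, sum_range_succ, ih]
    simp only [cpart]
    have h2 : (2 * k + 1 + 1) / 2 = k + 1 := by omega
    have h3 : (2 * k + 1 + 1 + 1) / 2 = k + 1 := by omega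
    rw [h2, h3]; ring

lemma sum_cpart_D (k : ℕ) : ∑ m ∈ range (2 * k), cpart Ty.D (m + 1) = 2 * (k * k) := by
  induction k with
  | zero => simp
  | succ k ih =>
    have h1 : 2 * (k + 1) = 2 * k + 1 + 1 := by ring
    rw [h1, sum_range_succ, sum_range_succ, ih]
    simp only [cpart]
    have h2 : 2 * ((2 * k + 1 + 1) / 2) - 1 = 2 * k + 1 := by omega
    have h3 : 2 * ((2 * k + 1 + 1 + 1) / 2) - 1 = 2 * k + 1 := by omega
    rw [h2, h3]; ring

lemma sum_cpart_B (k : ℕ) :
    ∑ m ∈ range (2 * k + 1), cpart Ty.B (m + 1) = 2 * ((k + 1) * k) + 1 := by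
  have h1 := sum_cpart_D k
  rw [sum_range_succ]
  have h2 : ∑ m ∈ range (2 * k), cpart Ty.B (m + 1) = ∑ m ∈ range (2 * k), cpart Ty.D (m + 1) :=
    rfl
  rw [h2, h1]
  simp only [cpart]
  have h3 : 2 * ((2 * k + 1 + 1) / 2) - 1 = 2 * k + 1 := by omega
  rw [h3]; ring

lemma sum_orbit {T : Ty} {n : ℕ} {l : ℕ → ℕ} (h : IsPart (natDim T n) l) {L : ℕ}
    (hl : ∀ i, l i = cpart T (L - i)) :
    ∑ m ∈ range L, cpart T (m + 1) = natDim T n := by
  have hLN : L ≤ natDim T n := by
    by_contra hcon
    have h1 := h.2.1 (natDim T n) (le_refl _)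
    rw [hl] at h1
    have h2 : L - natDim T n = (L - natDim T n - 1) + 1 := by omega
    rw [h2] at h1
    cases T <;> simp only [cpart] at h1 <;> omega
  rw [← h.2.2, ← sum_range_reflect]
  have h1 : ∀ i ∈ range L, cpart T (L - 1 - i + 1) = l i := by
    intro i hi
    rw [mem_range] at hi
    rw [hl]
    congr 1
    omega
  rw [sum_congr rfl h1]
  refine sum_subset (range_subset_range.2 hLN) ?_
  intro i _ hi
  rw [mem_range] at hi
  rw [hl]
  have h2 : L - i = 0 := by omega
  rw [h2]
  cases T <;> simp [cpart]

/-! ### Symbols -/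

/-- the entries of the symbols of the family -/
def ent (s L : ℕ) : Multiset ℕ :=
  Multiset.range s + Multiset.range s + (Multiset.range L).map (· + s)

lemma map_half (s : ℕ) :
    (Multiset.range (2 * s)).map (fun i => i / 2) = Multiset.range s + Multiset.range s := by
  induction s with
  | zero => simp
  | succ s ih =>
    have h1 : 2 * (s + 1) = 2 * s + 1 + 1 := by ring
    rw [h1, Multiset.range_succ, Multiset.range_succ, Multiset.map_cons, Multiset.map_cons, ih,
      Multiset.range_succ]
    have h2 : (2 * s + 1) / 2 = s := by omega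
    have h3 : (2 * s) / 2 = s := by omega
    rw [h2, h3]
    simp only [Multiset.cons_add, Multiset.add_cons]

lemma map_half' (s : ℕ) :
    0 ::ₘ (Multiset.range (2 * s)).map (fun i => (i + 1) / 2) =
      s ::ₘ (Multiset.range s + Multiset.range s) := by
  induction s with
  | zero => simp
  | succ s ih =>
    have h1 : 2 * (s + 1) = 2 * s + 1 + 1 := by ring
    rw [h1, Multiset.range_succ, Multiset.range_succ, Multiset.map_cons, Multiset.map_cons,
      Multiset.range_succ]
    have h2 : (2 * s + 1 + 1) / 2 = s + 1 := by omega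
    have h3 : (2 * s + 1) / 2 = s := by omega
    rw [h2, h3]
    simp only [Multiset.cons_add, Multiset.add_cons]
    rw [Multiset.cons_swap 0 (s + 1), Multiset.cons_swap 0 s, ih]

lemma entries_B {k s : ℕ} {n : ℕ} (hn : n = s + k) {l : ℕ → ℕ}
    (hl : ∀ i, l i = cpart Ty.B (2 * k + 1 - i)) :
    orbitEntries Ty.B n l = ent s (2 * k + 1) := by
  simp only [orbitEntries, ent]
  have h1 : 2 * n + 1 = 2 * s + (2 * k + 1) := by omega
  rw [h1, Multiset.range_add, Multiset.map_add, Multiset.map_map, ← map_half]
  congr 1
  · refine Multiset.map_congr rfl fun i hi => ?_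
    rw [Multiset.mem_range] at hi
    rw [hl]
    have h2 : 2 * k + 1 - (2 * n - i) = 0 := by omega
    rw [h2]
    simp only [cpart]
    omega
  · refine Multiset.map_congr rfl fun j hj => ?_
    rw [Multiset.mem_range] at hj
    simp only [Function.comp_apply]
    rw [hl]
    simp only [cpart]
    omega

lemma entries_D {k s : ℕ} {n : ℕ} (hn : n = s + k) {l : ℕ → ℕ}
    (hl : ∀ i, l i = cpart Ty.D (2 * k - i)) :
    orbitEntries Ty.D n l = ent s (2 * k) := by
  simp only [orbitEntries, ent]
  have h1 : 2 * n = 2 * s + 2 * k := by omega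
  rw [h1, Multiset.range_add, Multiset.map_add, Multiset.map_map, ← map_half]
  congr 1
  · refine Multiset.map_congr rfl fun i hi => ?_
    rw [Multiset.mem_range] at hi
    rw [hl]
    have h2 : 2 * k - (2 * s + 2 * k - 1 - i) = 0 := by omega
    rw [h2]
    simp only [cpart]
    omega
  · refine Multiset.map_congr rfl fun j hj => ?_
    rw [Multiset.mem_range] at hj
    simp only [Function.comp_apply]
    rw [hl]
    simp only [cpart]
    omega

lemma entries_C {k s : ℕ} {n : ℕ} (hn : n = s + k) {l : ℕ → ℕ}
    (hl : ∀ i, l i = cpart Ty.C (2 * k - i)) :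
    orbitEntries Ty.C n l = ent s (2 * k + 1) := by
  simp only [orbitEntries, ent]
  have h1 : 2 * n = 2 * s + 2 * k := by omega
  rw [h1, Multiset.range_add, Multiset.map_add, Multiset.map_map, add_comm (2 * k) 1,
    Multiset.range_add, Multiset.map_add, Multiset.map_map]
  have h3 : (Multiset.range 1).map (· + s) = {s} := by
    simp
  rw [h3, ← add_assoc]
  have h4 : Multiset.range s + Multiset.range s + {s} =
      0 ::ₘ (Multiset.range (2 * s)).map (fun i => (i + 1) / 2) := by
    rw [map_half', ← Multiset.singleton_add, add_comm]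
  rw [h4, Multiset.cons_add]
  congr 2
  · refine Multiset.map_congr rfl fun i hi => ?_
    rw [Multiset.mem_range] at hi
    rw [hl]
    have h2 : 2 * k - (2 * s + 2 * k - 1 - i) = 0 := by omega
    rw [h2]
    simp only [cpart]
    omega
  · refine Multiset.map_congr rfl fun j hj => ?_
    rw [Multiset.mem_range] at hj
    simp only [Function.comp_apply]
    rw [hl]
    simp only [cpart]
    omega

lemma conjCompl_anti {r k : ℕ} {a : ℕ → ℕ} : Antitone (conjCompl r k a) := by
  intro i j hij
  unfold conjCompl
  refine card_le_card ?_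
  intro z hz
  rw [mem_filter] at hz ⊢
  exact ⟨hz.1, by omega⟩

lemma conjCompl_zero {r k : ℕ} {a : ℕ → ℕ} {j : ℕ} (hj : k ≤ j) : conjCompl r k a j = 0 := by
  unfold conjCompl
  rw [card_eq_zero, filter_eq_empty_iff]
  intro z _
  omega

/-- the entries of the symbol of `(a ; b)` for a partition `a` in the rectangle and its conjugate
complement `b` -/
lemma box_entries {r k : ℕ} {a : ℕ → ℕ} (ha : Antitone a) (hak : ∀ i, a i ≤ k) :
    ((Multiset.range r).map fun j => a (r - 1 - j) + j) +
      ((Multiset.range k).map fun j => conjCompl r k a (k - 1 - j) + j) =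
      Multiset.range (r + k) := by
  have hb := fun i j => lt_conjCompl (r := r) (k := k) ha i j
  have hbr : ∀ j, conjCompl r k a j ≤ r := by
    intro j
    have := hb r j
    omega
  refine Multiset.eq_of_le_of_card_le ?_ (by simp)
  rw [Multiset.le_iff_subset]
  · intro x hx
    rw [Multiset.mem_range]
    rw [Multiset.mem_add, Multiset.mem_map, Multiset.mem_map] at hx
    rcases hx with ⟨j, hj, rfl⟩ | ⟨j, hj, rfl⟩
    · rw [Multiset.mem_range] at hj
      have := hak (r - 1 - j)
      omega
    · rw [Multiset.mem_range] at hj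
      have := hbr (k - 1 - j)
      omega
  · rw [Multiset.nodup_add]
    refine ⟨?_, ?_, ?_⟩
    · refine Multiset.Nodup.map_on ?_ (Multiset.nodup_range _)
      intro x hx y hy hxy
      rw [Multiset.mem_range] at hx hy
      rcases lt_trichotomy x y with h | h | h
      · have h1 : a (r - 1 - x) ≤ a (r - 1 - y) := ha (by omega)
        omega
      · exact h
      · have h1 : a (r - 1 - y) ≤ a (r - 1 - x) := ha (by omega)
        omega
    · refine Multiset.Nodup.map_on ?_ (Multiset.nodup_range _)
      intro x hx y hy hxy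
      rw [Multiset.mem_range] at hx hy
      rcases lt_trichotomy x y with h | h | h
      · have h1 : conjCompl r k a (k - 1 - x) ≤ conjCompl r k a (k - 1 - y) :=
          conjCompl_anti (by omega)
        omega
      · exact h
      · have h1 : conjCompl r k a (k - 1 - y) ≤ conjCompl r k a (k - 1 - x) :=
          conjCompl_anti (by omega)
        omega
    · rw [Multiset.disjoint_left]
      intro x hx hx'
      rw [Multiset.mem_map] at hx hx'
      obtain ⟨i, hi, rfl⟩ := hx
      obtain ⟨j, hj, hij⟩ := hx'
      rw [Multiset.mem_range] at hi hj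
      -- `t = b (k-1-j)`
      set t := conjCompl r k a (k - 1 - j) with ht
      have htr : t ≤ r := hbr _
      by_cases hit : i < t
      · have h1 := (hb i (k - 1 - j)).1 (by omega)
        omega
      · have h1 : ¬ (i < r ∧ k - 1 - j + a (r - 1 - i) < k) := fun h => by
          have := (hb i (k - 1 - j)).2 h
          omega
        have h2 : k ≤ k - 1 - j + a (r - 1 - i) := by
          by_contra h3
          exact h1 ⟨hi, by omega⟩
        omega

lemma symbol_half {n s r : ℕ} (hn : n = s + r) {a : ℕ → ℕ} (ha : ∀ i, r ≤ i → a i = 0) :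
    ((Multiset.range n).map fun i => a (n - 1 - i) + i) =
      Multiset.range s + ((Multiset.range r).map fun j => a (r - 1 - j) + j).map (· + s) := by
  rw [hn, Multiset.range_add, Multiset.map_add, Multiset.map_map, Multiset.map_map]
  congr 1
  · conv_rhs => rw [← Multiset.map_id (Multiset.range s)]
    refine Multiset.map_congr rfl fun i hi => ?_
    rw [Multiset.mem_range] at hi
    rw [ha _ (by omega)]
    simp
  · refine Multiset.map_congr rfl fun j hj => ?_
    rw [Multiset.mem_range] at hj
    simp only [Function.comp_apply]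
    have h1 : s + r - 1 - (s + j) = r - 1 - j := by omega
    rw [h1]; ring

lemma bipart {r k n : ℕ} (hn : n = r * k) (hkr : k ≤ r) {a : ℕ → ℕ} (ha : Antitone a)
    (ha0 : ∀ i, r ≤ i → a i = 0) (hak : ∀ i, a i ≤ k) : IsBipart n a (conjCompl r k a) := by
  have hz : ∀ i, n ≤ i → a i = 0 := by
    intro i hi
    by_cases hk : k = 0
    · have := hak i; omega
    · refine ha0 i ?_
      have : r ≤ r * k := Nat.le_mul_of_pos_right r (by omega)
      omega
  have hz' : ∀ i, n ≤ i → conjCompl r k a i = 0 := by
    intro i hi
    refine conjCompl_zero ?_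
    by_cases hr : r = 0
    · omega
    · have : k ≤ r * k := Nat.le_mul_of_pos_left k (by omega)
      omega
  refine ⟨ha, conjCompl_anti, fun i hi => ⟨hz i hi, hz' i hi⟩, ?_⟩
  have hM : ∀ M, ∀ f : ℕ → ℕ, (∀ i, n ≤ i → f i = 0) → (∀ i, M ≤ i → f i = 0) →
      ∑ i ∈ range n, f i = ∑ i ∈ range M, f i := by
    intro M f h1 h2
    rcases le_total n M with h | h
    · refine sum_subset (range_subset_range.2 h) ?_
      intro i _ hi
      rw [mem_range] at hi
      exact h1 i (by omega)
    · symm
      refine sum_subset (range_subset_range.2 h) ?_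
      intro i _ hi
      rw [mem_range] at hi
      exact h2 i (by omega)
  rw [sum_add_distrib, hM r a hz ha0, hM k _ hz' (fun i hi => conjCompl_zero hi)]
  unfold conjCompl
  simp only [card_filter]
  rw [sum_comm, ← sum_add_distrib]
  have h1 : ∀ i ∈ range r, a i + ∑ j ∈ range k, (if j + a i < k then 1 else 0) = k := by
    intro i _
    rw [← card_filter]
    have h2 : (range k).filter (fun j => j + a i < k) = range (k - a i) := by
      ext j; simp only [mem_filter, mem_range]; omega
    rw [h2, card_range]
    have := hak i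
    omega
  rw [sum_congr rfl h1, sum_const, card_range, smul_eq_mul, hn]

/-- **The families of the self-dual solvable orbits.** -/
theorem family_box {T : Ty} {n : ℕ} {l : ℕ → ℕ} (h : IsSolvableOrbit T n l)
    (hd : Dom l (transp (natDim T n) l)) :
    ∃ r k, k ≤ r ∧ r ≤ k + 1 ∧ n = r * k ∧ ∀ a : ℕ → ℕ, Antitone a → (∀ i, r ≤ i → a i = 0) →
      (∀ i, a i ≤ k) → InFamily T n l a (conjCompl r k a) := by
  obtain ⟨k, L, hL, hl⟩ := shape h hd
  have hsum := sum_orbit h.1.1 hl
  cases T with
  | B =>
    simp only at hL
    subst hL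
    rw [sum_cpart_B] at hsum
    simp only [natDim] at hsum
    have hn : n = (k + 1) * k := by omega
    refine ⟨k + 1, k, by omega, by omega, hn, ?_⟩
    intro a ha ha0 hak
    refine ⟨bipart hn (by omega) ha ha0 hak, ?_⟩
    obtain ⟨s, hs⟩ : ∃ s, n = s + k := ⟨n - k, by
      have : k ≤ (k + 1) * k := Nat.le_mul_of_pos_left k (by omega)
      omega⟩
    rw [entries_B hs hl]
    simp only [symbolEntries, ent]
    have h1 := symbol_half (n := n + 1) (s := s) (r := k + 1) (by omega) ha0
    have h2 := symbol_half (n := n) (s := s) (r := k) hs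
      (fun i (hi : k ≤ i) => conjCompl_zero (r := k + 1) (a := a) hi)
    simp only [Nat.add_sub_cancel] at h1
    rw [h1, h2]
    have h3 := congrArg (Multiset.map (· + s)) (box_entries (r := k + 1) ha hak)
    rw [Multiset.map_add] at h3
    simp only [Nat.add_sub_cancel] at h3
    have h4 : k + 1 + k = 2 * k + 1 := by ring
    rw [h4] at h3
    rw [← h3]
    simp only [add_assoc, add_left_comm]
  | C =>
    simp only at hL
    subst hL
    rw [sum_cpart_C] at hsum
    simp only [natDim] at hsum
    have hn : n = (k + 1) * k := by omega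
    refine ⟨k + 1, k, by omega, by omega, hn, ?_⟩
    intro a ha ha0 hak
    refine ⟨bipart hn (by omega) ha ha0 hak, ?_⟩
    obtain ⟨s, hs⟩ : ∃ s, n = s + k := ⟨n - k, by
      have : k ≤ (k + 1) * k := Nat.le_mul_of_pos_left k (by omega)
      omega⟩
    rw [entries_C hs hl]
    simp only [symbolEntries, ent]
    have h1 := symbol_half (n := n + 1) (s := s) (r := k + 1) (by omega) ha0
    have h2 := symbol_half (n := n) (s := s) (r := k) hs
      (fun i (hi : k ≤ i) => conjCompl_zero (r := k + 1) (a := a) hi)
    simp only [Nat.add_sub_cancel] at h1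
    rw [h1, h2]
    have h3 := congrArg (Multiset.map (· + s)) (box_entries (r := k + 1) ha hak)
    rw [Multiset.map_add] at h3
    simp only [Nat.add_sub_cancel] at h3
    have h4 : k + 1 + k = 2 * k + 1 := by ring
    rw [h4] at h3
    rw [← h3]
    simp only [add_assoc, add_left_comm]
  | D =>
    simp only at hL
    subst hL
    rw [sum_cpart_D] at hsum
    simp only [natDim] at hsum
    have hn : n = k * k := by omega
    refine ⟨k, k, by omega, by omega, hn, ?_⟩
    intro a ha ha0 hak
    refine ⟨bipart hn (by omega) ha ha0 hak, ?_⟩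
    obtain ⟨s, hs⟩ : ∃ s, n = s + k := ⟨n - k, by
      by_cases hk : k = 0
      · omega
      · have : k ≤ k * k := Nat.le_mul_of_pos_left k (by omega)
        omega⟩
    rw [entries_D hs hl]
    simp only [symbolEntries, ent]
    have h1 := symbol_half (n := n) (s := s) (r := k) hs ha0
    have h2 := symbol_half (n := n) (s := s) (r := k) hs
      (fun i (hi : k ≤ i) => conjCompl_zero (r := k) (a := a) hi)
    rw [h1, h2]
    have h3 := congrArg (Multiset.map (· + s)) (box_entries (r := k) ha hak)
    rw [Multiset.map_add] at h3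
    have h4 : k + k = 2 * k := by ring
    rw [h4] at h3
    rw [← h3]
    simp only [add_assoc, add_left_comm]

end Pool.Agent.Helper310_Saxl
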